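import Pool.Agent.KST.G0
import Pool.Agent.KST.F1

/-!
# S78: the number of faces of a parallelepiped
-/

set_option autoImplicit false

open scoped BigOperators RealInnerProductSpace

namespace Pool.Agent.S78

noncomputable section

open Classical

open Pool.Agent.KST (E IsCell Cells Pol)

/-- a description of a parallelepiped has at least `3 ^ d` cells -/
theorem cube_cells {α : Type} [Fintype α] {d : ℕ} (a : α → E d) (L : Finset α)
    (hLI : LinearIndependent ℝ (fun i : {i : α // i ∈ L} => a i.1))
    (hP : Pol a = {x | ∀ i ∈ L, |⟪a i, x⟫| ≤ 1}) : 3 ^ L.card ≤ (Cells a).card := by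
  have habs : ∀ s : SignType, |((s : SignType) : ℝ)| ≤ 1 := by
    intro s
    cases s <;> simp
  have h1 : ∀ s : {i : α // i ∈ L} → SignType, ∃ t ∈ Cells a, (fun i => t i.1) = s := by
    intro s
    obtain ⟨y, hy⟩ := Pool.Agent.KST.G0_dual hLI (fun i => ((s i : SignType) : ℝ))
    have hyP : y ∈ Pol a := by
      rw [hP]
      intro i hi
      have h := hy ⟨i, hi⟩
      rw [h]
      exact habs _
    obtain ⟨t, ht⟩ := Pool.Agent.KST.exists_cell hyP
    refine ⟨t, Pool.Agent.KST.mem_cells.2 ⟨y, ht⟩, ?_⟩
    funext i
    have h := hy i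
    by_cases h0 : t i.1 = 0
    · have h2 := (ht i.1).1 h0
      rw [h] at h2
      rw [h0]
      revert h2
      generalize s i = c
      cases c <;> simp
    · have h2 := (ht i.1).2 h0
      rw [h] at h2
      exact (Pool.Agent.KST.sign_inj h2).symm
  have h2 : (Finset.univ : Finset ({i : α // i ∈ L} → SignType)) ⊆
      (Cells a).image (fun t => fun i : {i : α // i ∈ L} => t i.1) := by
    intro s _
    obtain ⟨t, ht, hts⟩ := h1 s
    exact Finset.mem_image.2 ⟨t, ht, hts⟩
  have h3 := (Finset.card_le_card h2).trans Finset.card_image_le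
  rw [Finset.card_univ, Fintype.card_fun, Fintype.card_coe] at h3
  have h4 : Fintype.card SignType = 3 := by decide
  rw [h4] at h3
  exact h3

end

end Pool.Agent.S78
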