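import Pool.Agent.S78.Many78
import Pool.Agent.WLP.Eq56F

/-!
# S78 / Final: equality in Kalai's inequality for polytopes with simple vertex figures, dimensions
seven and eight
-/

set_option autoImplicit false

open scoped BigOperators RealInnerProductSpace

namespace Pool.Agent.S78

noncomputable section

open Classical

open Pool.Agent.KST (E IsCell Cells Pol n1NS)
open WLP

/-- **Equality in Kalai's inequality**, dimensions seven and eight, simple vertex figures -/
theorem kalai78_eq {α : Type} [Fintype α] {d : ℕ} (hd : d = 7 ∨ d = 8) (a : α → E d)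
    (hb : Bornology.IsBounded (Pol a))
    (hns : ∀ x ∈ Pol a, ¬ LinearIndependent ℝ (fun i : {i : α // |⟪a i, x⟫| = 1} => a i.1) →
      x ∈ Set.extremePoints ℝ (Pol a))
    (hN : (Cells a).card ≤ 3 ^ d) :
    ∃ L : Finset α, L.card = d ∧ LinearIndependent ℝ (fun i : {i : α // i ∈ L} => a i.1) ∧
      Pol a = {x | ∀ i ∈ L, |⟪a i, x⟫| ≤ 1} := by
  obtain ⟨L, hL, hmin⟩ := exists_min_desc a
  set a' : {i : α // i ∈ L} → E d := fun i => a i.1 with ha'
  have hPol : Pol a' = Pol a := by
    rw [hL]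
    ext x
    exact ⟨fun h i hi => h ⟨i, hi⟩, fun h i => h i.1 i.2⟩
  have hb' : Bornology.IsBounded (Pol a') := by rw [hPol]; exact hb
  have hns' : ∀ x ∈ Pol a',
      ¬ LinearIndependent ℝ (fun i : {i : {i : α // i ∈ L} // |⟪a' i, x⟫| = 1} => a' i.1) →
      x ∈ Set.extremePoints ℝ (Pol a') := by
    intro x hx h
    rw [hPol] at hx ⊢
    apply hns x hx
    intro hli
    apply h
    exact hli.comp (fun i : {i : {i : α // i ∈ L} // |⟪a' i, x⟫| = 1} =>
      (⟨i.1.1, i.2⟩ : {i : α // |⟪a i, x⟫| = 1})) (by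
        intro i j hij
        exact Subtype.ext (Subtype.ext (congrArg (fun z : {i : α // |⟪a i, x⟫| = 1} => z.1) hij)))
  have hirr : ∀ i : {i : α // i ∈ L},
      ∃ x, (∀ k, k ≠ i → |⟪a' k, x⟫| ≤ 1) ∧ 1 < |⟪a' i, x⟫| := by
    intro i
    by_contra hno
    push Not at hno
    have h1 : Pol a = {x | ∀ k ∈ L.erase i.1, |⟪a k, x⟫| ≤ 1} := by
      rw [hL]
      ext x
      constructor
      · intro h k hk
        exact h k (Finset.mem_of_mem_erase hk)
      · intro h k hk
        by_cases hki : k = i.1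
        · rw [hki]
          exact hno x (fun k' hk' => h k'.1
            (Finset.mem_erase.2 ⟨fun h => hk' (Subtype.ext h), k'.2⟩))
        · exact h k (Finset.mem_erase.2 ⟨hki, hk⟩)
    have h2 := hmin _ h1
    rw [Finset.card_erase_of_mem i.2] at h2
    have h3 := Finset.card_pos.2 ⟨i.1, i.2⟩
    omega
  have hNR : ∀ i, ∀ v ∈ n1NS a', |⟪a' i, v⟫| = 1 →
      ∃ x ∈ Pol a', x ≠ v ∧ ⟪a' i, x⟫ = ⟪a' i, v⟫ := by
    intro i v hv hiv
    by_contra hno
    push Not at hno
    obtain ⟨x, hx1, hx2⟩ := hirr i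
    have hc0 : ⟪a' i, x⟫ ≠ 0 := by
      intro h
      rw [h, abs_zero] at hx2
      linarith
    set z := (⟪a' i, v⟫ / ⟪a' i, x⟫) • x with hz
    have hzi : ⟪a' i, z⟫ = ⟪a' i, v⟫ := by
      rw [hz, real_inner_smul_right, div_mul_cancel₀ _ hc0]
    have hratio : |⟪a' i, v⟫ / ⟪a' i, x⟫| < 1 := by
      rw [abs_div, hiv, div_lt_one (by linarith)]
      exact hx2
    have hzk : ∀ k, k ≠ i → |⟪a' k, z⟫| < 1 := by
      intro k hk
      rw [hz, real_inner_smul_right, abs_mul]
      calc |⟪a' i, v⟫ / ⟪a' i, x⟫| * |⟪a' k, x⟫| ≤ |⟪a' i, v⟫ / ⟪a' i, x⟫| * 1 :=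
            mul_le_mul_of_nonneg_left (hx1 k hk) (abs_nonneg _)
        _ < 1 := by rw [mul_one]; exact hratio
    have hzP : z ∈ Pol a' := by
      intro k
      by_cases hk : k = i
      · rw [hk, hzi, hiv]
      · exact (hzk k hk).le
    have hzv : z = v := by
      by_contra h
      exact hno z hzP h hzi
    apply hv.2
    have : Unique {k : {i : α // i ∈ L} // |⟪a' k, v⟫| = 1} :=
      ⟨⟨⟨i, hiv⟩⟩, fun k => Subtype.ext (by
        by_contra hki
        have h1 := hzk k.1 hki
        rw [hzv, k.2] at h1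
        exact lt_irrefl _ h1)⟩
    rw [linearIndependent_unique_iff]
    intro h
    have h0 : (default : {k : {i : α // i ∈ L} // |⟪a' k, v⟫| = 1}) = ⟨i, hiv⟩ :=
      Subsingleton.elim _ _
    rw [h0] at h
    have h1 : a' i = 0 := h
    rw [h1, inner_zero_left, abs_zero] at hiv
    norm_num at hiv
  have hN' : (Cells a').card ≤ 3 ^ d := by
    refine le_trans ?_ hN
    have hsub : Cells a' ⊆ (Cells a).image (fun t => fun i : {i : α // i ∈ L} => t i.1) := by
      intro t' ht'
      obtain ⟨x, hx⟩ := Pool.Agent.KST.mem_cells.1 ht'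
      have hxP : x ∈ Pol a := by rw [← hPol]; exact Pool.Agent.KST.isCell_pol hx
      obtain ⟨t, ht⟩ := Pool.Agent.KST.exists_cell hxP
      refine Finset.mem_image.2 ⟨t, Pool.Agent.KST.mem_cells.2 ⟨x, ht⟩, ?_⟩
      exact Pool.Agent.KST.isCell_inj (x := x) (b := a') (fun i => ht i.1) hx
    exact (Finset.card_le_card hsub).trans Finset.card_image_le
  have hzero : ∀ u : E d, (∀ i ∈ L, ⟪a i, u⟫ = 0) → u = 0 :=
    Pool.Agent.KST.q5_zero hb (fun x hx => by rw [hL]; exact hx)
  have hspan := Pool.Agent.KST.q5_span L a hzero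
  rcases Nat.lt_or_ge d L.card with hlt | hge
  · exfalso
    rcases Nat.lt_or_ge (d + 1) L.card with hlt2 | hge2
    · exact absurd hN' (not_le.2 (many_case78 hd a' (by rw [Fintype.card_coe]; omega) hb' hns'
        hNR hirr))
    · exact hyper_case (by omega) a' (by rw [Fintype.card_coe]; omega) hb' hns' hirr hN'
  · have hfin : Module.finrank ℝ (E d) = d := finrank_euclideanSpace_fin
    have hge' : d ≤ L.card := by
      have h1 := finrank_range_le_card (R := ℝ) (fun i : {i : α // i ∈ L} => a i.1)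
      have h2 : Set.finrank ℝ (Set.range (fun i : {i : α // i ∈ L} => a i.1)) = d := by
        unfold Set.finrank
        rw [top_le_iff.1 hspan, finrank_top, hfin]
      rw [h2, Fintype.card_coe] at h1
      exact h1
    have hcd : L.card = d := le_antisymm hge hge'
    refine ⟨L, hcd, ?_, hL⟩
    exact linearIndependent_of_top_le_span_of_card_eq_finrank hspan (by
      rw [Fintype.card_coe, hfin, hcd])

end

end Pool.Agent.S78
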