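import Mathlib

/-!
# S78: the arithmetic of the face numbers
-/

set_option autoImplicit false
set_option linter.unusedVariables false

namespace Pool.Agent.S78

private theorem ARR_diff (d : ℕ) (hd : 1 ≤ d) (k H : ℕ → ℤ) (hk0 : k 0 = 0)
    (hk : ∀ n ≤ d, k (d - n) = k n) :
    (∑ n ∈ Finset.range (d + 1), 2 ^ n * k n) - (∑ n ∈ Finset.range d, 2 ^ n * H n - H 0) =
      ∑ n ∈ Finset.Ico 1 d, 2 ^ n * (k n - H n) := by
  have hkd : k d = 0 := by
    have := hk 0 (Nat.zero_le _)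
    rw [Nat.sub_zero] at this
    rw [this, hk0]
  rw [Finset.sum_range_succ, hkd, Finset.sum_range_eq_add_Ico _ (by omega : 0 < d),
    Finset.sum_range_eq_add_Ico _ (by omega : 0 < d), hk0]
  have : ∑ n ∈ Finset.Ico 1 d, 2 ^ n * (k n - H n) =
      ∑ n ∈ Finset.Ico 1 d, 2 ^ n * k n - ∑ n ∈ Finset.Ico 1 d, 2 ^ n * H n := by
    rw [← Finset.sum_sub_distrib]
    exact Finset.sum_congr rfl fun n _ => by ring
  rw [this]
  ring

private theorem ARR_two (d : ℕ) (k H : ℕ → ℤ) :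
    2 * ∑ n ∈ Finset.Ico 1 d, 2 ^ n * (k n - H n) =
      ∑ n ∈ Finset.Ico 1 d, (2 ^ n * (k n - H n) + 2 ^ (d - n) * (k (d - n) - H (d - n))) := by
  have h := Finset.sum_Ico_reflect (fun n => (2 : ℤ) ^ n * (k n - H n)) 1
    (m := d) (n := d) (by omega)
  rw [Nat.add_sub_cancel_left, Nat.add_sub_cancel] at h
  rw [Finset.sum_add_distrib, h, two_mul]

private theorem ARR_half (d : ℕ) (k H : ℕ → ℤ)
    (hk : ∀ n ≤ d, k (d - n) = k n) (hH : ∀ n < d, H (d - 1 - n) = H n)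
    (hG : ∀ n, 1 ≤ n → 2 * n < d →
      H n - H (n - 1) ≤ (1 + 2 ^ (d - 2 * n)) * (k (d - n) - H (d - n))) (n : ℕ) (h1 : 1 ≤ n)
    (h2 : 2 * n < d) :
    0 ≤ 2 ^ n * (k n - H n) + 2 ^ (d - n) * (k (d - n) - H (d - n)) := by
  have e1 := hk n (by omega)
  have e2 : H (n - 1) = H (d - n) := by
    have := hH (d - n) (by omega)
    rw [← this]
    congr 1
    omega
  have e3 : (2 : ℤ) ^ (d - n) = 2 ^ n * 2 ^ (d - 2 * n) := by
    rw [← pow_add]
    congr 1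
    omega
  have h3 := hG n h1 h2
  have h4 := mul_le_mul_of_nonneg_left h3 (by positivity : (0 : ℤ) ≤ 2 ^ n)
  rw [e3]
  rw [e2] at h4
  have e4 : k n - H n = (k (d - n) - H (d - n)) - (H n - H (d - n)) := by rw [e1]; ring
  rw [e4]
  nlinarith [h4]

private theorem ARR_all (d : ℕ) (k H : ℕ → ℤ)
    (hk : ∀ n ≤ d, k (d - n) = k n) (hH : ∀ n < d, H (d - 1 - n) = H n)
    (hle : ∀ m, d ≤ 2 * m → m < d → H m ≤ k m)
    (hG : ∀ n, 1 ≤ n → 2 * n < d →
      H n - H (n - 1) ≤ (1 + 2 ^ (d - 2 * n)) * (k (d - n) - H (d - n))) :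
    ∀ n ∈ Finset.Ico 1 d,
      0 ≤ 2 ^ n * (k n - H n) + 2 ^ (d - n) * (k (d - n) - H (d - n)) := by
  intro n hn
  rw [Finset.mem_Ico] at hn
  rcases lt_trichotomy (2 * n) d with h | h | h
  · exact ARR_half d k H hk hH hG n hn.1 h
  · have e : d - n = n := by omega
    have h1 := hle n (by omega) hn.2
    have h2 : 0 ≤ 2 ^ n * (k n - H n) := mul_nonneg (by positivity) (by linarith)
    rw [e]
    linarith
  · have h3 := ARR_half d k H hk hH hG (d - n) (by omega) (by omega)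
    have e : d - (d - n) = n := by omega
    rw [e] at h3
    linarith

/-! ### ROW ARC -/

theorem ariR (d : ℕ) (hd : 1 ≤ d) (k H : ℕ → ℤ) (hk0 : k 0 = 0)
    (hk : ∀ n ≤ d, k (d - n) = k n) (hH : ∀ n < d, H (d - 1 - n) = H n)
    (hle : ∀ m, d ≤ 2 * m → m < d → H m ≤ k m)
    (hG : ∀ n, 1 ≤ n → 2 * n < d →
      H n - H (n - 1) ≤ (1 + 2 ^ (d - 2 * n)) * (k (d - n) - H (d - n))) :
    ∑ n ∈ Finset.range d, 2 ^ n * H n - H 0 ≤ ∑ n ∈ Finset.range (d + 1), 2 ^ n * k n := by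
  have h1 := ARR_diff d hd k H hk0 hk
  have h2 := ARR_two d k H
  have h3 := Finset.sum_nonneg (ARR_all d k H hk hH hle hG)
  linarith

theorem ariR_eq (d : ℕ) (hd : 2 ≤ d) (k H : ℕ → ℤ) (hk0 : k 0 = 0)
    (hk : ∀ n ≤ d, k (d - n) = k n) (hH : ∀ n < d, H (d - 1 - n) = H n)
    (hle : ∀ m, d ≤ 2 * m → m < d → H m ≤ k m)
    (hG : ∀ n, 1 ≤ n → 2 * n < d →
      H n - H (n - 1) ≤ (1 + 2 ^ (d - 2 * n)) * (k (d - n) - H (d - n)))
    (hG1 : 2 < d → H 1 - H 0 ≤ 2 ^ (d - 2) * (k (d - 1) - H (d - 1)))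
    (heq : ∑ n ∈ Finset.range (d + 1), 2 ^ n * k n ≤
      ∑ n ∈ Finset.range d, 2 ^ n * H n - H 0) : k (d - 1) = H (d - 1) := by
  have h1 := ARR_diff d (by omega) k H hk0 hk
  have h2 := ARR_two d k H
  have h3 := ARR_all d k H hk hH hle hG
  have h4 : 2 ^ 1 * (k 1 - H 1) + 2 ^ (d - 1) * (k (d - 1) - H (d - 1)) ≤
      ∑ n ∈ Finset.Ico 1 d, (2 ^ n * (k n - H n) + 2 ^ (d - n) * (k (d - n) - H (d - n))) :=
    Finset.single_le_sum (f := fun n => 2 ^ n * (k n - H n) +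
      2 ^ (d - n) * (k (d - n) - H (d - n))) h3 (Finset.mem_Ico.2 ⟨le_rfl, by omega⟩)
  have h5 := hle (d - 1) (by omega) (by omega)
  have h6 : 2 ^ 1 * (k 1 - H 1) + 2 ^ (d - 1) * (k (d - 1) - H (d - 1)) ≤ 0 := by linarith
  rcases eq_or_lt_of_le hd with h | h
  · subst h
    norm_num at h6 h5 ⊢
    linarith
  · have h7 := hG1 h
    have e1 := hk 1 (by omega)
    have e2 : H 0 = H (d - 1) := by
      have := hH (d - 1) (by omega)
      rw [← this]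
      congr 1
      omega
    have e3 : (2 : ℤ) ^ (d - 1) = 2 * 2 ^ (d - 2) := by
      rw [← pow_succ']
      congr 1
      omega
    rw [e2] at h7
    rw [e3] at h6
    have e4 : k 1 - H 1 = (k (d - 1) - H (d - 1)) - (H 1 - H (d - 1)) := by rw [e1]; ring
    rw [e4] at h6
    nlinarith [h6, h7, h5]

end Pool.Agent.S78
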