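import Pool.Agent.S78.DataG
import Pool.Agent.S78.ArcR
import Pool.Agent.CTC.MacOf
import Pool.Agent.CTC.F2

/-!
# S78: few cut facets, dimensions at least seven
-/

set_option autoImplicit false

open scoped BigOperators RealInnerProductSpace

namespace Pool.Agent.S78

noncomputable section

open Classical

open Pool.Agent.KST (E Fn supp Le IsCell Cells Verts Simple Pol pt PP Gen Star VF Low Sweep sgn EE X
  D FF Par Ker S hh LowF Inside)
open Pool.Agent.CTC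

variable {ι : Type} [Fintype ι] {d : ℕ}

/-- the bound for the number of pairs of nonsimple vertices -/
def bnd (m : ℕ) : ℕ := (if Odd m then 3 else 5) * ((m - 1) / 2 + 1)

theorem pow_a (k : ℕ) : 3 * k + 2 ≤ 2 * 4 ^ k := by
  induction k with
  | zero => norm_num
  | succ k ih =>
    rw [pow_succ]
    omega

theorem pow_b (k : ℕ) : 5 * k + 4 ≤ 4 * 4 ^ k := by
  induction k with
  | zero => norm_num
  | succ k ih =>
    rw [pow_succ]
    omega

theorem bnd_le {m : ℕ} (n : ℕ) (h2 : 2 * n < m) :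
    bnd m ≤ (n + 1) * (1 + 2 ^ (m - 2 * n)) := by
  unfold bnd
  split_ifs with hd
  · obtain ⟨m, rfl⟩ := hd
    obtain ⟨k, rfl⟩ : ∃ k, m = n + k := ⟨m - n, by omega⟩
    have e1 : (2 * (n + k) + 1 - 1) / 2 = n + k := by omega
    have e2 : 2 * (n + k) + 1 - 2 * n = 2 * k + 1 := by omega
    rw [e1, e2, pow_succ, pow_mul]
    have h3 := pow_a k
    norm_num at h3 ⊢
    nlinarith [Nat.mul_le_mul (Nat.zero_le n) h3, Nat.mul_le_mul_left n h3]
  · have hev : Even m := Nat.not_odd_iff_even.1 hd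
    obtain ⟨m, rfl⟩ := hev
    obtain ⟨k, rfl⟩ : ∃ k, m = n + k + 1 := ⟨m - n - 1, by omega⟩
    have e1 : (n + k + 1 + (n + k + 1) - 1) / 2 = n + k := by omega
    have e2 : n + k + 1 + (n + k + 1) - 2 * n = 2 * k + 2 := by omega
    rw [e1, e2, pow_add, pow_mul]
    have h3 := pow_b k
    norm_num at h3 ⊢
    nlinarith [Nat.mul_le_mul_left n h3]

theorem pow_c (k : ℕ) : 5 * (k + 9) ≤ 2 ^ (k + 6) := by
  induction k with
  | zero => norm_num
  | succ k ih =>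
    have : 2 ^ (k + 1 + 6) = 2 * 2 ^ (k + 6) := by ring
    rw [this]
    omega

theorem pow_d (k : ℕ) : 5 * (k + 9) ≤ 4 + 4 * 2 ^ (k + 4) := by
  induction k with
  | zero => norm_num
  | succ k ih =>
    have : 2 ^ (k + 1 + 4) = 2 * 2 ^ (k + 4) := by ring
    rw [this]
    omega

theorem bnd_two {m : ℕ} (hm : 7 ≤ m) : bnd m ≤ 2 * (1 + 2 ^ (m - 4)) := by
  unfold bnd
  obtain ⟨k, rfl⟩ : ∃ k, m = k + 7 := ⟨m - 7, by omega⟩
  have h3 := pow_c k
  have e1 : k + 7 - 4 = k + 3 := by omega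
  have e2 : 2 ^ (k + 6) = 8 * 2 ^ (k + 3) := by ring
  rw [e1]
  rw [e2] at h3
  have h4 : (k + 7 - 1) / 2 * 2 ≤ k + 6 := by omega
  have h5 : k + 4 ≤ 2 ^ (k + 3) := by
    have : k + 3 < 2 ^ (k + 3) := Nat.lt_two_pow_self
    omega
  split_ifs with ho
  · omega
  · rcases Nat.eq_zero_or_pos k with rfl | hk
    · exact absurd (by decide) ho
    · obtain ⟨j, rfl⟩ : ∃ j, k = j + 1 := ⟨k - 1, by omega⟩
      have h6 := pow_d j
      have e3 : 2 ^ (j + 1 + 3) = 2 ^ (j + 4) := by ring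
      rw [e3]
      omega

theorem bnd_one {m : ℕ} (hm : 7 ≤ m) : bnd m ≤ 2 ^ (m - 2) := by
  unfold bnd
  obtain ⟨k, rfl⟩ : ∃ k, m = k + 7 := ⟨m - 7, by omega⟩
  have h3 := pow_c k
  have e1 : k + 7 - 2 = k + 5 := by omega
  have e2 : 2 ^ (k + 6) = 2 * 2 ^ (k + 5) := by ring
  rw [e1]
  rw [e2] at h3
  have h4 : (k + 7 - 1) / 2 * 2 ≤ k + 6 := by omega
  split_ifs <;> omega

theorem mainR_all {b : ι → E d} (hd : 7 ≤ d) (hS : Simple b) (hb : Bornology.IsBounded (Pol b))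
    {J : Finset ι} (hJ : SepC b J) (hr : J.card ≤ bnd d) :
    ∃ k H : ℕ → ℤ, k 0 = 0 ∧ (∀ n ≤ d, k (d - n) = k n) ∧ (∀ n < d, H (d - 1 - n) = H n) ∧
      (∀ m, d ≤ 2 * m → m < d → H m ≤ k m) ∧
      (∀ n : ℕ, 1 ≤ n → 2 * n < d →
        H n - H (n - 1) ≤ (1 + 2 ^ (d - 2 * n)) * (k (d - n) - H (d - n))) ∧
      (H 1 - H 0 ≤ 2 ^ (d - 2) * (k (d - 1) - H (d - 1))) ∧
      ((Cells b).card : ℤ) = 3 ^ d + 2 * ∑ n ∈ Finset.range (d + 1), 2 ^ n * k n ∧
      ∑ j ∈ J, (((Cells b).filter (fun s => s j = 1)).card : ℤ) =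
        ∑ n ∈ Finset.range d, 2 ^ n * H n ∧
      H 0 = ((J.filter (fun j => ∃ t ∈ Cells b, t j = 1)).card : ℤ) ∧
      ((Finset.univ.filter (fun l => l ∉ J ∧ ∃ t ∈ Cells b, t l = 1)).card : ℤ) + H 0 ≤
        k 1 + d := by
  obtain ⟨e, rfl⟩ : ∃ e, d = e + 1 := ⟨d - 1, by omega⟩
  obtain ⟨k, H, hD, hG1, hG2, hGn⟩ := dataG (by omega) hS hb hJ
  have hr' : H 0 ≤ (bnd (e + 1) : ℤ) := by
    rw [← hD.hr]
    have h1 : (J.filter (fun j => ∃ t ∈ Cells b, t j = 1)).card ≤ J.card :=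
      Finset.card_filter_le _ _
    exact_mod_cast h1.trans hr
  have hs : ∀ n, 1 ≤ n → 2 * n < e + 1 → k n - H (n - 1) = k (e + 1 - n) - H (e + 1 - n) ∧
      0 ≤ k (e + 1 - n) - H (e + 1 - n) := by
    intro n hn hn2
    have h1 := hD.ksym n (by omega)
    have h2 := hD.hsym (n - 1) (by omega)
    rw [show e + 1 - 1 - (n - 1) = e + 1 - n from by omega] at h2
    have h3 := hD.hle (e + 1 - n) (by omega) (by omega)
    rw [h1, h2] at h3 ⊢
    exact ⟨rfl, by linarith⟩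
  refine ⟨k, H, hD.k0, hD.ksym, hD.hsym, hD.hle, ?_, ?_,
    hD.cells, hD.facets, hD.hr.symm, by have := hD.fac; push_cast; linarith⟩
  · intro n hn hn2
    obtain ⟨e1, e2⟩ := hs n hn hn2
    rw [← e1] at e2 ⊢
    have key : ∀ q : ℤ, H n - H (n - 1) ≤ q * (k n - H (n - 1)) →
        q ≤ 1 + 2 ^ (e + 1 - 2 * n) →
        H n - H (n - 1) ≤ (1 + 2 ^ (e + 1 - 2 * n)) * (k n - H (n - 1)) := by
      intro q hq1 hq2
      exact hq1.trans (mul_le_mul_of_nonneg_right hq2 e2)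
    rcases Nat.lt_or_ge n 3 with h3 | h3
    · interval_cases n
      · refine key _ hG1 ?_
        have h4 : ((bnd (e + 1) : ℕ) : ℤ) ≤ 2 ^ (e + 1 - 2) := by
          exact_mod_cast bnd_one (m := e + 1) (by omega)
        rw [mul_one]
        linarith
      · refine key _ hG2 ?_
        have h4 : ((bnd (e + 1) : ℕ) : ℤ) ≤ 2 * (1 + 2 ^ (e + 1 - 4)) := by
          exact_mod_cast bnd_two (m := e + 1) (by omega)
        rw [show e + 1 - 2 * 2 = e + 1 - 4 from rfl]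
        omega
    · refine key _ (hGn n h3 hn2) ?_
      have h4 : ((bnd (e + 1) : ℕ) : ℤ) ≤ ((n : ℤ) + 1) * (1 + 2 ^ (e + 1 - 2 * n)) := by
        exact_mod_cast bnd_le (m := e + 1) n hn2
      have h5 : (0 : ℤ) < (n : ℤ) + 1 := by positivity
      have h6 : (H 0 + n) / ((n : ℤ) + 1) < 1 + 2 ^ (e + 1 - 2 * n) + 1 := by
        rw [Int.ediv_lt_iff_lt_mul h5]
        nlinarith
      linarith
  · obtain ⟨e1, e2⟩ := hs 1 le_rfl (by omega)
    have e3 : k (e + 1 - 1) - H (e + 1 - 1) = k 1 - H 0 := e1.symm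
    rw [e3] at e2 ⊢
    refine hG1.trans (mul_le_mul_of_nonneg_right ?_ e2)
    have h4 : ((bnd (e + 1) : ℕ) : ℤ) ≤ 2 ^ (e + 1 - 2) := by
      exact_mod_cast bnd_one (m := e + 1) (by omega)
    linarith

theorem mainR {b : ι → E d} (hd : 7 ≤ d) (hS : Simple b) (hb : Bornology.IsBounded (Pol b))
    {J : Finset ι} (hJ : SepC b J) (hr : J.card ≤ bnd d) :
    3 ^ d + 2 * ∑ j ∈ J, ((Cells b).filter (fun s => s j = 1)).card ≤
      (Cells b).card + 2 * (J.filter (fun j => ∃ t ∈ Cells b, t j = 1)).card := by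
  obtain ⟨k, H, h1, h2, h3, h5, h6, -, h7, h8, h9, -⟩ := mainR_all hd hS hb hJ hr
  exact mainC_of h7 h8 h9.le (ariR d (by omega) k H h1 h2 h3 h5 h6)

theorem mainR_eq {b : ι → E d} (hd : 7 ≤ d) (hS : Simple b) (hb : Bornology.IsBounded (Pol b))
    {J : Finset ι} (hJ : SepC b J) (hr : J.card ≤ bnd d)
    (heq : (Cells b).card + 2 * (J.filter (fun j => ∃ t ∈ Cells b, t j = 1)).card ≤
      3 ^ d + 2 * ∑ j ∈ J, ((Cells b).filter (fun s => s j = 1)).card) :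
    (Finset.univ.filter (fun l => l ∉ J ∧ ∃ t ∈ Cells b, t l = 1)).card ≤ d := by
  obtain ⟨k, H, h1, h2, h3, h5, h6, h6', h7, h8, h9, h10⟩ := mainR_all hd hS hb hJ hr
  have hE := ariR_eq d (by omega) k H h1 h2 h3 h5 h6 (fun _ => h6')
    (by
      zify at heq
      rw [h7, h8, ← h9] at heq
      linarith)
  have e1 : k 1 = k (d - 1) := (h2 1 (by omega)).symm
  have e2 : H (d - 1) = H 0 := by
    have := h3 0 (by omega)
    simpa using this
  have : ((Finset.univ.filter (fun l => l ∉ J ∧ ∃ t ∈ Cells b, t l = 1)).card : ℤ) ≤ d := by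
    rw [e1, hE, e2] at h10
    linarith
  exact_mod_cast this

end

end Pool.Agent.S78
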