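import Pool.Agent.CTC.T0C
import Pool.Agent.CTC.Q4C
import Pool.Agent.KST.G0
import Pool.Agent.WLP.TB
import Pool.Agent.S78.MainR

/-! S78: few nonsimple vertices, the theorem for cells -/

set_option autoImplicit false

open scoped BigOperators RealInnerProductSpace

namespace Pool.Agent.S78

noncomputable section

open Classical

open Pool.Agent.KST (E Fn supp Le IsCell Cells Verts Simple Pol pt PP Gen Star VF Low Sweep sgn EE X
  D FF Par Ker S hh LowF Inside)
open Pool.Agent.CTC

variable {ι : Type} [Fintype ι] {d : ℕ}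

/-- the index set of the cuts -/
private theorem KAR_filter_inr (α β : Type) [Fintype α] [Fintype β] :
    (Finset.univ.filter (fun l : α ⊕ β => ∃ j, l = Sum.inr j)) =
      Finset.univ.map Function.Embedding.inr := by
  ext l
  simp only [Finset.mem_filter, Finset.mem_univ, true_and, Finset.mem_map,
    Function.Embedding.inr_apply]
  constructor
  · rintro ⟨j, rfl⟩; exact ⟨j, rfl⟩
  · rintro ⟨j, rfl⟩; exact ⟨j, rfl⟩

private theorem KAR_sum_inr {α β : Type} [Fintype α] [Fintype β] (f : α ⊕ β → ℕ) :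
    ∑ l ∈ Finset.univ.filter (fun l : α ⊕ β => ∃ j, l = Sum.inr j), f l =
      ∑ j : β, f (Sum.inr j) := by
  rw [KAR_filter_inr, Finset.sum_map]
  rfl

private theorem KAR_card_inr {α β : Type} [Fintype α] [Fintype β] (p : α ⊕ β → Prop)
    [DecidablePred p] :
    ((Finset.univ.filter (fun l : α ⊕ β => ∃ j, l = Sum.inr j)).filter p).card =
      ∑ j : β, (if p (Sum.inr j) then 1 else 0) := by
  rw [Finset.card_filter, KAR_sum_inr]

private theorem KAR_card_J {α β : Type} [Fintype α] [Fintype β] {m : ℕ}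
    (h : Fintype.card β ≤ m) :
    (Finset.univ.filter (fun l : α ⊕ β => ∃ j, l = Sum.inr j)).card ≤ m := by
  rw [KAR_filter_inr, Finset.card_map, Finset.card_univ]
  exact h

private theorem KAR_pol_sub {α β : Type} [Fintype α] [Fintype β] (a : α → E d) (g : β → E d) :
    Pol (Sum.elim a g) ⊆ Pol a := fun _ hx i => hx (Sum.inl i)

private theorem KAR_numbers {α β : Type} [Fintype α] [Fintype β] {a : α → E d} {g : β → E d}
    (hd : 7 ≤ d) (H : HypC a g) (hb : Bornology.IsBounded (Pol a))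
    (hcol : Fintype.card β ≤ bnd d) :
    (3 ^ d + 2 * ∑ j : β, ((Cells (Sum.elim a g)).filter (fun s => s (Sum.inr j) = 1)).card ≤
      (Cells (Sum.elim a g)).card +
        2 * ∑ j : β, (if ∃ t ∈ Cells (Sum.elim a g), t (Sum.inr j) = 1 then 1 else 0)) ∧
    (∀ j : β, 2 * (if ∃ t ∈ Cells (Sum.elim a g), t (Sum.inr j) = 1 then 1 else 0) ≤
      (Inside a g j 1).card + (Inside a g j (-1)).card) ∧
    (∀ j : β, (∃ t ∈ Cells (Sum.elim a g), t (Sum.inr j) = 1) →
      1 ≤ (Inside a g j 1).card ∧ 1 ≤ (Inside a g j (-1)).card) := by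
  have hpos : ∀ j : β, (∃ t ∈ Cells (Sum.elim a g), t (Sum.inr j) = 1) →
      1 ≤ (Inside a g j 1).card ∧ 1 ≤ (Inside a g j (-1)).card := by
    rintro j ⟨t, ht, htj⟩
    refine ⟨WLP.inside_posB H.toHypB hb j 1 (by decide) ⟨t, ht, htj⟩,
      WLP.inside_posB H.toHypB hb j (-1) (by decide)
        ⟨-t, Pool.Agent.KST.neg_mem_cells ht, ?_⟩⟩
    rw [Pi.neg_apply, htj]
  refine ⟨?_, fun j => ?_, hpos⟩
  · have h := mainR hd H.simple (hb.subset (KAR_pol_sub a g)) (hypC_sep H) (KAR_card_J hcol)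
    rw [KAR_sum_inr, KAR_card_inr] at h
    exact h
  · by_cases hj : ∃ t ∈ Cells (Sum.elim a g), t (Sum.inr j) = 1
    · rw [if_pos hj]
      have := hpos j hj
      omega
    · rw [if_neg hj]
      omega

theorem kalaiR {α β : Type} [Fintype α] [Fintype β] {a : α → E d} {g : β → E d}
    (hd : 7 ≤ d) (H : HypC a g) (hb : Bornology.IsBounded (Pol a))
    (hcol : Fintype.card β ≤ bnd d) :
    3 ^ d ≤ (Cells a).card := by
  obtain ⟨h1, h2, -⟩ := KAR_numbers hd H hb hcol
  have h3 := WLP.card_splitB H.toHypB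
  have h4 := WLP.inside_cardB H.toHypB
  have h5 : 2 * ∑ j : β, (if ∃ t ∈ Cells (Sum.elim a g), t (Sum.inr j) = 1 then 1 else 0) ≤
      ∑ j : β, ((Inside a g j 1).card + (Inside a g j (-1)).card) := by
    rw [Finset.mul_sum]
    exact Finset.sum_le_sum fun j _ => h2 j
  omega

private theorem KAR_eq_main {α β : Type} [Fintype α] [Fintype β] {a : α → E d} {g : β → E d}
    (hd : 7 ≤ d) (H : HypC a g) (hb : Bornology.IsBounded (Pol a))
    (hcol : Fintype.card β ≤ bnd d)
    (heq : (Cells a).card ≤ 3 ^ d) :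
    (Cells (Sum.elim a g)).card + 2 * ((Finset.univ.filter
      (fun l => ∃ j : β, l = Sum.inr j)).filter
        (fun l => ∃ t ∈ Cells (Sum.elim a g), t l = 1)).card ≤
      3 ^ d + 2 * ∑ l ∈ Finset.univ.filter (fun l => ∃ j : β, l = Sum.inr j),
        ((Cells (Sum.elim a g)).filter (fun s => s l = 1)).card := by
  obtain ⟨-, h2, -⟩ := KAR_numbers hd H hb hcol
  have h3 := WLP.card_splitB H.toHypB
  have h4 := WLP.inside_cardB H.toHypB
  have h5 : 2 * ∑ j : β, (if ∃ t ∈ Cells (Sum.elim a g), t (Sum.inr j) = 1 then 1 else 0) ≤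
      ∑ j : β, ((Inside a g j 1).card + (Inside a g j (-1)).card) := by
    rw [Finset.mul_sum]
    exact Finset.sum_le_sum fun j _ => h2 j
  rw [KAR_sum_inr, KAR_card_inr]
  omega

private theorem KAR_eq_inside {α β : Type} [Fintype α] [Fintype β] {a : α → E d} {g : β → E d}
    (hd : 7 ≤ d) (H : HypC a g) (hb : Bornology.IsBounded (Pol a))
    (hcol : Fintype.card β ≤ bnd d)
    (heq : (Cells a).card ≤ 3 ^ d) (j : β)
    (s : SignType) (hs : s ≠ 0) : (Inside a g j s).card ≤ 1 := by
  obtain ⟨h1, h2, h6⟩ := KAR_numbers hd H hb hcol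
  have h3 := WLP.card_splitB H.toHypB
  have h4 := WLP.inside_cardB H.toHypB
  have h5 : ∑ j : β, ((Inside a g j 1).card + (Inside a g j (-1)).card) ≤
      ∑ j : β, 2 * (if ∃ t ∈ Cells (Sum.elim a g), t (Sum.inr j) = 1 then 1 else 0) := by
    rw [← Finset.mul_sum]
    omega
  have h7 : ∀ j : β, (Inside a g j 1).card + (Inside a g j (-1)).card =
      2 * (if ∃ t ∈ Cells (Sum.elim a g), t (Sum.inr j) = 1 then 1 else 0) := by
    have h8 := (Finset.sum_eq_sum_iff_of_le (s := Finset.univ) fun j _ => h2 j).1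
      (le_antisymm (Finset.sum_le_sum fun j _ => h2 j) h5)
    exact fun j => (h8 j (Finset.mem_univ _)).symm
  have h9 := h7 j
  have h10 : (Inside a g j 1).card ≤ 1 ∧ (Inside a g j (-1)).card ≤ 1 := by
    by_cases hj : ∃ t ∈ Cells (Sum.elim a g), t (Sum.inr j) = 1
    · rw [if_pos hj] at h9
      have := h6 j hj
      omega
    · rw [if_neg hj] at h9
      omega
  rcases s with _ | _ | _
  · exact absurd rfl hs
  · exact h10.2
  · exact h10.1

/-- a family of constraints whose common zero set is trivial spans -/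
private theorem KAR_span {α : Type} (L : Finset α) (a : α → E d)
    (h : ∀ u : E d, (∀ i ∈ L, ⟪a i, u⟫ = 0) → u = 0) :
    ⊤ ≤ Submodule.span ℝ (Set.range (fun i : {i : α // i ∈ L} => a i.1)) := by
  have h1 : (Submodule.span ℝ (Set.range (fun i : {i : α // i ∈ L} => a i.1)))ᗮ = ⊥ := by
    rw [Submodule.eq_bot_iff]
    intro u hu
    apply h u
    intro i hi
    exact (Submodule.mem_orthogonal _ _).1 hu _ (Submodule.subset_span ⟨⟨i, hi⟩, rfl⟩)
  rw [Submodule.orthogonal_eq_bot_iff.1 h1]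

private theorem KAR_zero {α : Type} [Fintype α] {a : α → E d}
    (hb : Bornology.IsBounded (Pol a))
    {L : Finset α} (hL : ∀ x, (∀ i ∈ L, |⟪a i, x⟫| ≤ 1) → x ∈ Pol a) :
    ∀ u : E d, (∀ i ∈ L, ⟪a i, u⟫ = 0) → u = 0 := by
  intro u hu
  by_contra hne
  obtain ⟨r, hr⟩ := hb.exists_norm_le
  have hn : 0 < ‖u‖ := norm_pos_iff.2 hne
  have h1 : ((|r| + 1) / ‖u‖) • u ∈ Pol a := by
    apply hL
    intro i hi
    rw [real_inner_smul_right, hu i hi, mul_zero, abs_zero]
    exact zero_le_one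
  have h2 := hr _ h1
  rw [norm_smul, Real.norm_eq_abs, abs_of_nonneg (by positivity), div_mul_cancel₀ _ hn.ne'] at h2
  linarith [le_abs_self r]

private theorem KAR_card {ι α : Type} [Fintype ι] [Fintype α] (b : ι → E d) (f : α → ι)
    (hf : Function.Injective f) (J : Finset ι) (hJ : ∀ i, f i ∉ J) :
    (Finset.univ.filter (fun i => ∃ t ∈ Cells b, t (f i) = 1)).card ≤
      (Finset.univ.filter (fun l => l ∉ J ∧ ∃ t ∈ Cells b, t l = 1)).card := by
  rw [← Finset.card_image_of_injective _ hf]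
  apply Finset.card_le_card
  intro l hl
  rw [Finset.mem_image] at hl
  obtain ⟨i, hi, rfl⟩ := hl
  rw [Finset.mem_filter] at hi ⊢
  exact ⟨Finset.mem_univ _, hJ i, hi.2⟩

private theorem KAR_mem {ι : Type} [Fintype ι] {p : ι → Prop} [DecidablePred p] {l : ι}
    (h : l ∈ Finset.univ.filter p) : p l := (Finset.mem_filter.1 h).2

theorem kalaiR_eq {α β : Type} [Fintype α] [Fintype β] {a : α → E d} {g : β → E d}
    (hd : 7 ≤ d) (H : HypC a g) (hb : Bornology.IsBounded (Pol a))
    (hcol : Fintype.card β ≤ bnd d) (heq : (Cells a).card ≤ 3 ^ d) :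
    ∃ L : Finset α, L.card = d ∧ LinearIndependent ℝ (fun i : {i : α // i ∈ L} => a i.1) ∧
      Pol a = {x | ∀ i ∈ L, |⟪a i, x⟫| ≤ 1} := by
  -- it is enough to find few sufficient constraints
  suffices hmain : ∃ L : Finset α, L.card ≤ d ∧
      ∀ x, (∀ i ∈ L, |⟪a i, x⟫| ≤ 1) → x ∈ Pol a by
    obtain ⟨L, hLd, hL⟩ := hmain
    have hspan := KAR_span L a (KAR_zero hb hL)
    have hfin : Module.finrank ℝ (E d) = d := finrank_euclideanSpace_fin
    have hcard : Fintype.card {i : α // i ∈ L} = L.card := by simp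
    have hge : d ≤ L.card := by
      have h1 := finrank_range_le_card (R := ℝ) (fun i : {i : α // i ∈ L} => a i.1)
      rw [Set.finrank, top_le_iff.1 hspan, finrank_top, hfin, hcard] at h1
      exact h1
    have heqc : L.card = d := le_antisymm hLd hge
    refine ⟨L, heqc, ?_, ?_⟩
    · apply linearIndependent_of_top_le_span_of_card_eq_finrank hspan
      rw [hcard, heqc, hfin]
    · ext x
      constructor
      · intro hx i _
        exact hx i
      · intro hx
        exact hL x hx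
  refine ⟨Finset.univ.filter (fun i => ∃ t ∈ Cells (Sum.elim a g), t (Sum.inl i) = 1), ?_, ?_⟩
  · have hbd : Bornology.IsBounded (Pol (Sum.elim a g)) := hb.subset (KAR_pol_sub a g)
    have h1 := mainR_eq hd H.simple hbd (hypC_sep H) (KAR_card_J hcol)
      (KAR_eq_main hd H hb hcol heq)
    refine le_trans (KAR_card (Sum.elim a g) Sum.inl Sum.inl_injective _ ?_) h1
    intro i hi
    obtain ⟨j, hj⟩ := KAR_mem hi
    exact absurd hj (by simp)
  · intro x hx
    apply pol_eqB H.toHypB hb (by omega) (fun j s hs => KAR_eq_inside hd H hb hcol heq j s hs) x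
    intro i hi
    exact hx i (Finset.mem_filter.2 ⟨Finset.mem_univ _, hi⟩)

end

end Pool.Agent.S78
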