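import Pool.Agent.CTC.F4
import Pool.Agent.S78.Cube
import Pool.Agent.S78.Final
import Pool.Agent.S78.KacR

/-!
# Centrally symmetric polytopes with simple vertex figures: dimensions seven and eight, and few
nonsimple vertices
-/

set_option autoImplicit false

open scoped BigOperators RealInnerProductSpace

namespace Pool.Agent.S78

noncomputable section

open Classical

open Pool.Agent.K3E (TL TL_apply Fc Cube Cross Han)

open Pool.Agent.KST (E Pol Cells up inner_up mem_pol_up li_up li_congr bdd_up cells_card_NL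
  para_equiv cells_le inj_of shape NatHyp cells_final)

open Pool.Agent.CTC (SVF NSP FewT svf_up low6 fewT_ineq finalT many_final nat_hypC ns_ncard
  final_eq_all final_exact)

variable {d : ℕ}

/-- dimensions seven and eight: the description of the polytope -/
theorem eq78 (hd : 7 ≤ d) (hd8 : d ≤ 8) {n : ℕ} (a : Fin n → Fin d → ℝ)
    (hinj : ∀ z, (∀ i, a i ⬝ᵥ z = 0) → z = 0) (h : SVF a)
    (hN : GRD.NL (LinearMap.range (TL a)) ≤ 3 ^ d) :
    ∃ L : Finset (Fin n), L.card = d ∧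
      LinearIndependent ℝ (fun i : {i : Fin n // i ∈ L} => up a i.1) ∧
      Pol (up a) = {x | ∀ i ∈ L, |⟪up a i, x⟫| ≤ 1} := by
  have hb := bdd_up a hinj
  rw [← cells_card_NL] at hN
  exact kalai78_eq (by omega) (up a) hb (svf_up h) hN

/-- dimensions seven and eight: the inequality -/
theorem ineq78 (hd : 7 ≤ d) (hd8 : d ≤ 8) {n : ℕ} (a : Fin n → Fin d → ℝ)
    (hinj : ∀ z, (∀ i, a i ⬝ᵥ z = 0) → z = 0) (h : SVF a) :
    3 ^ d ≤ GRD.NL (LinearMap.range (TL a)) := by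
  rcases le_total (3 ^ d) (GRD.NL (LinearMap.range (TL a))) with h1 | h1
  · exact h1
  · obtain ⟨L, hL, hLI, hP⟩ := eq78 hd hd8 a hinj h h1
    rw [← cells_card_NL]
    have h2 := cube_cells (up a) L hLI hP
    rw [hL] at h2
    exact h2

/-- few nonsimple vertices -/
theorem few8 (hd : 7 ≤ d) {n : ℕ} (a : Fin n → Fin d → ℝ)
    (hinj : ∀ z, (∀ i, a i ⬝ᵥ z = 0) → z = 0) (h : SVF a)
    (hfew : {x : Fin d → ℝ | (∀ i, |a i ⬝ᵥ x| ≤ 1) ∧ NSP a x}.ncard ≤ 2 * bnd d) :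
    3 ^ d ≤ GRD.NL (LinearMap.range (TL a)) ∧
    (GRD.NL (LinearMap.range (TL a)) ≤ 3 ^ d →
      ∃ L : (Fin d → ℝ) ≃ₗ[ℝ] (Fin d → ℝ), {x | ∀ i, |a i ⬝ᵥ x| ≤ 1} = {x | L x ∈ Cube d}) := by
  have hb := bdd_up a hinj
  obtain ⟨r, g, H, hr⟩ := nat_hypC (up a) hb (svf_up h)
  rw [ns_ncard] at hr
  have hr' : Fintype.card (Fin r) ≤ bnd d := by
    rw [Fintype.card_fin]
    omega
  rw [← cells_card_NL]
  refine ⟨kalaiR hd H hb hr', fun heq => ?_⟩
  obtain ⟨L, hL, hLI, hP⟩ := kalaiR_eq hd H hb hr' heq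
  exact para_equiv a hb L hL hP

/-- the inequality for the polytope -/
theorem final_exact8 (hd : 1 ≤ d) {n : ℕ} (a : Fin n → Fin d → ℝ) (h : SVF a)
    {P : Set (Fin d → ℝ)}
    (hP : (P = {x | ∀ i, |a i ⬝ᵥ x| ≤ 1} ∧ Bornology.IsBounded P) ∨
      (P = convexHull ℝ (Set.range a ∪ Set.range (fun i => -a i)) ∧ (interior P).Nonempty))
    (h' : d ≤ 8 ∨ FewT a ∨
      {x : Fin d → ℝ | (∀ i, |a i ⬝ᵥ x| ≤ 1) ∧ NSP a x}.ncard ≤ 2 * bnd d) :
    (3 : ℕ∞) ^ d ≤ (Fc P).encard := by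
  have hinj := inj_of a hP
  refine le_trans ?_ (cells_le hd a hP)
  have h1 : 3 ^ d ≤ GRD.NL (LinearMap.range (TL a)) := by
    by_cases h6 : d ≤ 6
    · exact low6 h6 a hinj h
    · by_cases h8 : d ≤ 8
      · exact ineq78 (by omega) h8 a hinj h
      · rcases h' with h' | h' | h'
        · exact absurd h' h8
        · exact fewT_ineq hd a hinj h h'
        · exact (few8 (by omega) a hinj h h').1
  exact_mod_cast h1

/-- all sufficient conditions for the equality case together -/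
theorem final_eq_all8 (hd : 5 ≤ d) {n : ℕ} (a : Fin n → Fin d → ℝ) (h : SVF a)
    (h' : d ≤ 8 ∨ FewT a ∨
      2 ^ d ≤ (Set.extremePoints ℝ {x : Fin d → ℝ | ∀ i, |a i ⬝ᵥ x| ≤ 1}).ncard ∨
      {x : Fin d → ℝ | (∀ i, |a i ⬝ᵥ x| ≤ 1) ∧ NSP a x}.ncard ≤ 2 * bnd d ∨ NatHyp a)
    {P : Set (Fin d → ℝ)}
    (hP : (P = {x | ∀ i, |a i ⬝ᵥ x| ≤ 1} ∧ Bornology.IsBounded P) ∨
      (P = convexHull ℝ (Set.range a ∪ Set.range (fun i => -a i)) ∧ (interior P).Nonempty))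
    (hN : (Fc P).encard ≤ (3 : ℕ∞) ^ d) :
    ∃ Q : Set (Fin d → ℝ), (Q = {x | ∀ i, |x i| ≤ 1} ∨ Q = {x | ∑ i, |x i| ≤ 1}) ∧
      Han d Q ∧
      (∃ (L : (Fin d → ℝ) ≃ₗ[ℝ] (Fin d → ℝ)), P = (fun x => L x) '' Q) ∧
      Nonempty ({F : Set (Fin d → ℝ) // IsExposed ℝ P F ∧ F.Nonempty} ≃o
        {G : Set (Fin d → ℝ) // IsExposed ℝ Q G ∧ G.Nonempty}) := by
  by_cases h6 : d ≤ 6
  · exact final_eq_all hd a h (Or.inl h6) hP hN
  have hinj := inj_of a hP
  have hle := cells_le (by omega) a hP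
  have h3 := hle.trans hN
  have h4 : GRD.NL (LinearMap.range (TL a)) ≤ 3 ^ d := by exact_mod_cast h3
  refine shape (by omega) a hP ?_
  by_cases h8 : d ≤ 8
  · obtain ⟨L, hL, hLI, hP'⟩ := eq78 (by omega) h8 a hinj h h4
    exact para_equiv a (bdd_up a hinj) L hL hP'
  rcases h' with h' | h' | h' | h' | h'
  · exact absurd h' h8
  · exact finalT hd a hinj h h' h4
  · exact many_final (by omega) a hinj h h' h4
  · exact (few8 (by omega) a hinj h h').2 h4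
  · exact (cells_final a hinj (Or.inl h')).2 h4

end

end Pool.Agent.S78
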