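import Pool.Agent.S78.Defs
import Pool.Agent.CTC.SH
import Pool.Agent.CTC.ROW

/-!
# S78: duality, the shift in the direction of a star is onto in low degrees
-/

set_option autoImplicit false

open scoped BigOperators RealInnerProductSpace

namespace Pool.Agent.S78

noncomputable section

open Classical

open Pool.Agent.KST (E Fn supp Le IsCell Cells Verts Simple Pol pt PP Gen Star VF Low Sweep sgn EE X
  D FF Par Ker S hh LowF Inside)
open Pool.Agent.CTC (Xe uv StarS Meet Few GenC SepC Top ng)

variable {ι : Type} [Fintype ι] {d : ℕ}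

/-- vectors of the star of `a` are compatible with `uv a` -/
private theorem ONT_compat {b : ι → E d} (a : ι × SignType) {k : ℕ}
    {e : ι → ℤ} (he : e ∈ EE (StarS b a) k) : 0 ≤ ((a.2 : SignType) : ℤ) * e a.1 := by
  have h1 : sgn e ∈ StarS b a := (Finset.mem_filter.mp he).2.2
  obtain ⟨-, t, -, hle, hta⟩ := Finset.mem_filter.mp h1
  by_cases h0 : e a.1 = 0
  · rw [h0, mul_zero]
  · have h2 : sgn e a.1 ≠ 0 := by
      unfold sgn
      intro h
      exact h0 (sign_eq_zero_iff.mp h)
    have h3 : a.2 = SignType.sign (e a.1) := by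
      rw [← hta]
      exact hle a.1 h2
    rw [h3, sign_mul_self]
    exact abs_nonneg _

private theorem ONT_swap (a : ι × SignType) (φ : Fn ι) {e e' : ι → ℤ}
    (he : 0 ≤ ((a.2 : SignType) : ℤ) * e a.1) (he' : 0 ≤ ((a.2 : SignType) : ℤ) * e' a.1)
    (ha : a.2 ≠ 0) :
    Xe (e + uv a) φ e' = Xe (e' + uv a) φ e := by
  rw [CTC.Xe_apply, CTC.Xe_apply]
  have key : (∀ l, 0 ≤ (e + uv a) l * e' l) ↔ (∀ l, 0 ≤ (e' + uv a) l * e l) := by
    constructor <;> intro h l <;> have hl := h l <;> simp only [Pi.add_apply, uv] at hl ⊢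
    · by_cases hla : l = a.1
      · subst hla
        simp only [if_true] at hl ⊢
        obtain ⟨j, s⟩ := a
        simp only at he he' ha hl ⊢
        cases s
        · exact absurd rfl ha
        · simp at he he' ⊢
          nlinarith
        · simp at he he' ⊢
          nlinarith
      · rw [if_neg hla] at hl ⊢
        linarith [mul_comm (e l + 0) (e' l)]
    · by_cases hla : l = a.1
      · subst hla
        simp only [if_true] at hl ⊢
        obtain ⟨j, s⟩ := a
        simp only at he he' ha hl ⊢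
        cases s
        · exact absurd rfl ha
        · simp at he he' ⊢
          nlinarith
        · simp at he he' ⊢
          nlinarith
      · rw [if_neg hla] at hl ⊢
        linarith [mul_comm (e l + 0) (e' l)]
  have h2 : e + uv a + e' = e' + uv a + e := by
    funext l
    simp only [Pi.add_apply]
    ring
  simp only [key, h2]

private theorem ONT_two (a : ι × SignType) (g : Fn ι) {e' : ι → ℤ}
    (he' : 0 ≤ ((a.2 : SignType) : ℤ) * e' a.1) :
    Xe (uv a) g e' = g (e' + uv a) := by
  rw [CTC.Xe_apply, if_pos, add_comm]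
  intro l
  unfold uv
  split_ifs with h
  · rw [h]; exact he'
  · simp

/-- weights on a finite set whose functional kills a vector exactly if the vector is in a span -/
private theorem ONT_dual {α β : Type} [Fintype α] (s : Finset β) (v : β → α → ℝ) (x : α → ℝ)
    (h : ∀ w : α → ℝ, (∀ j ∈ s, ∑ i, w i * v j i = 0) → ∑ i, w i * x i = 0) :
    ∃ u : β → ℝ, x = ∑ j ∈ s, u j • v j := by
  have hx : x ∈ Submodule.span ℝ (v '' (s : Set β)) := by
    rw [← Subspace.forall_mem_dualAnnihilator_apply_eq_zero_iff]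
    intro φ hφ
    have e : ∀ y : α → ℝ, φ y = ∑ i, φ (Pi.single i 1) * y i := by
      intro y
      conv_lhs => rw [LinearMap.pi_apply_eq_sum_univ φ y]
      refine Finset.sum_congr rfl (fun i _ => ?_)
      rw [smul_eq_mul, mul_comm]
      congr 2
      funext k
      simp only [Pi.single_apply, eq_comm]
    rw [e x]
    refine h (fun i => φ (Pi.single i 1)) ?_
    intro j hj
    rw [← e (v j)]
    exact (Submodule.mem_dualAnnihilator φ).mp hφ _ (Submodule.subset_span ⟨j, hj, rfl⟩)
  obtain ⟨c, hc⟩ := (Submodule.mem_span_image_finset_iff_exists_fun' ℝ).mp hx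
  exact ⟨c, hc.symm⟩

private theorem ONT_star_cells {b : ι → E d} (a : ι × SignType) {k : ℕ} {f : Fn ι}
    (hf : f ∈ FF (StarS b a) k) : f ∈ FF (Cells b) k := by
  intro e he
  refine hf e (fun h => he ?_)
  unfold EE at h ⊢
  rw [Finset.mem_filter] at h ⊢
  exact ⟨h.1, h.2.1, (Finset.mem_filter.mp h.2.2).1⟩

/-- duality: the shift in direction `j` is onto in low degrees -/
theorem star_onto {b c : ι → E d} (hS : Simple b) (hb : Bornology.IsBounded (Pol b))
    (hc : GenC c) {φ : Fn ι} (hφ : Top b c φ) {j : ι} {q : ℕ} (hq : 1 ≤ q) (hqd : q + 1 ≤ d)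
    (hinj : ∀ h ∈ FF (Star b j) (d - q) ⊓ Ker c, Xe (uv (j, 1)) h = 0 → h = 0)
    {t : Fn ι} (ht : t ∈ FF (Star b j) (q - 1) ⊓ Ker c) :
    ∃ f ∈ FF (Star b j) q ⊓ Ker c, Xe (uv (j, 1)) f = t := by
  set a : ι × SignType := (j, 1) with ha
  have ha2 : a.2 ≠ 0 := by rw [ha]; simp
  have hst : StarS b a = Star b j := CTC.StarS_one b j
  rw [← hst] at ht hinj ⊢
  have hdual := ONT_dual (α := {e // e ∈ EE (StarS b a) (q - 1)}) (EE (StarS b a) (d - q - 1))
    (fun e p => Xe (uv a) (Xe (e + uv a) φ) p.1) (fun p => t p.1) ?_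
  · obtain ⟨u, hu⟩ := hdual
    have hf : ∑ e ∈ EE (StarS b a) (d - q - 1), u e • Xe (e + uv a) φ ∈
        FF (StarS b a) q ⊓ Ker c := by
      refine Submodule.sum_mem _ (fun e he => Submodule.smul_mem _ _ ?_)
      exact (CTC.Xe_row hS hφ.1 a ha2 (n := q) (m := d - q) (by omega) (by omega) he).1
    refine ⟨_, hf, ?_⟩
    have h1 : Xe (uv a) (∑ e ∈ EE (StarS b a) (d - q - 1), u e • Xe (e + uv a) φ) ∈
        FF (StarS b a) (q - 1) := by
      refine CTC.Xe_star hS a ha2 ?_
      rw [Nat.sub_add_cancel hq]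
      exact ONT_star_cells a (Submodule.mem_inf.mp hf).1
    funext e'
    by_cases he' : e' ∈ EE (StarS b a) (q - 1)
    · have h2 := congrFun hu ⟨e', he'⟩
      simp only [Finset.sum_apply, Pi.smul_apply] at h2
      rw [h2, map_sum, Finset.sum_apply]
      refine Finset.sum_congr rfl (fun e _ => ?_)
      rw [map_smul, Pi.smul_apply]
    · rw [h1 e' he', (Submodule.mem_inf.mp ht).1 e' he']
  · intro w hw
    set h : Fn ι := ∑ e : {e // e ∈ EE (StarS b a) (q - 1)}, w e • Xe (e.1 + uv a) φ with hh'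
    have hmem : h ∈ FF (StarS b a) (d - q) ⊓ Ker c := by
      refine Submodule.sum_mem _ (fun e _ => Submodule.smul_mem _ _ ?_)
      exact (CTC.Xe_row hS hφ.1 a ha2 (n := d - q) (m := q) (by omega) (by omega) e.2).1
    have hX : Xe (uv a) h = 0 := by
      have h1 : Xe (uv a) h ∈ FF (StarS b a) (d - q - 1) := by
        refine CTC.Xe_star hS a ha2 ?_
        rw [Nat.sub_add_cancel (by omega : 1 ≤ d - q)]
        exact ONT_star_cells a (Submodule.mem_inf.mp hmem).1
      funext e'
      by_cases he' : e' ∈ EE (StarS b a) (d - q - 1)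
      · have h2 := hw e' he'
        rw [Pi.zero_apply, ← h2, hh', map_sum, Finset.sum_apply]
        refine Finset.sum_congr rfl (fun e _ => ?_)
        rw [map_smul, Pi.smul_apply, smul_eq_mul, ONT_two a _ (ONT_compat a he'),
          ONT_two a _ (ONT_compat a e.2), CTC.Xe_symm]
      · rw [h1 e' he', Pi.zero_apply]
    have hz : h = 0 := hinj h hmem hX
    set L : Fn ι →ₗ[ℝ] ℝ := ∑ e : {e // e ∈ EE (StarS b a) (q - 1)},
      w e • LinearMap.proj e.1 with hL
    have hLa : ∀ g : Fn ι, L g = ∑ e : {e // e ∈ EE (StarS b a) (q - 1)}, w e * g e.1 := by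
      intro g
      simp [hL, LinearMap.sum_apply]
    have hspan := CTC.rows_span hS hb hc hφ a ha2 (n := q - 1) (m := d - q + 1) (by omega)
      (by omega)
    have hle : Submodule.span ℝ {g | ∃ e ∈ EE (StarS b a) (d - q + 1 - 1),
        g = Xe (e + uv a) φ} ≤ LinearMap.ker L := by
      rw [Submodule.span_le]
      rintro g ⟨e, he, rfl⟩
      rw [SetLike.mem_coe, LinearMap.mem_ker, hLa]
      have h0 := congrFun hz e
      rw [hh', Finset.sum_apply, Pi.zero_apply] at h0
      rw [← h0]
      refine Finset.sum_congr rfl (fun e'' _ => ?_)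
      rw [Pi.smul_apply, smul_eq_mul,
        ONT_swap a φ (ONT_compat a he) (ONT_compat a e''.2) ha2]
    have := hle (hspan ht)
    rw [LinearMap.mem_ker, hLa] at this
    exact this

end

end Pool.Agent.S78
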