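import Pool.Agent.S78.Defs
import Pool.Agent.S78.Onto
import Pool.Agent.CTC.INJ
import Pool.Agent.CTC.TOP
import Pool.Agent.CTC.BLK

/-!
# Dimensions of the kernel spaces of the stars
-/

set_option autoImplicit false

open scoped BigOperators RealInnerProductSpace

namespace Pool.Agent.S78

noncomputable section

open Classical

open Pool.Agent.KST (E Fn supp Le IsCell Cells Verts Simple Pol pt PP Gen Star VF Low Sweep sgn EE X
  D FF Par Ker S hh LowF Inside FF_fin)
open Pool.Agent.CTC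

variable {ι : Type} [Fintype ι] {d : ℕ}

/-- no signed facet meets both `(j, +)` and `(j, -)` -/
theorem no_both {b : ι → E d} {J : Finset ι} (hJ : SepC b J) {j : ι} (hj : j ∈ J)
    {p : ι × SignType} (h1 : Meet b p (j, 1)) (h2 : Meet b p (j, -1)) : False := by
  obtain ⟨hp, t, ht, htp, htj⟩ := h1
  obtain ⟨-, u, hu, hup, huj⟩ := h2
  have h3 := hJ.opp j hj t ht (-u) (Pool.Agent.KST.neg_mem_cells hu) htj (by
    rw [Pi.neg_apply, huj]
    show -(-1 : SignType) = 1
    decide) p.1 (by rw [htp]; exact hp) (by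
    rw [Pi.neg_apply, hup]
    revert hp
    generalize p.2 = s
    cases s <;> decide)
  rw [Pi.neg_apply, htp, hup] at h3
  revert hp h3
  generalize p.2 = s
  cases s <;> decide

theorem few_card {b : ι → E d} {J : Finset ι} (hJ : SepC b J) {T : Finset ι} (hT : T ⊆ J)
    {n : ℕ} (h : T.card ≤ n) : Few b T n := by
  intro p
  refine le_trans (Finset.card_le_card_of_injOn (fun q => q.1) ?_ ?_) h
  · intro q hq
    exact (Finset.mem_filter.1 (Finset.mem_coe.1 hq)).2.1
  · rintro ⟨i, s⟩ hq ⟨j, t⟩ hr hij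
    have hij' : i = j := hij
    subst hij'
    obtain ⟨-, hiT, hs, hm⟩ := Finset.mem_filter.1 (Finset.mem_coe.1 hq)
    obtain ⟨-, -, ht, hm'⟩ := Finset.mem_filter.1 (Finset.mem_coe.1 hr)
    simp only at hiT hs ht
    rcases s with _ | _ | _
    · exact absurd rfl hs
    · rcases t with _ | _ | _
      · exact absurd rfl ht
      · rfl
      · exact (no_both hJ (hT hiT) hm' hm).elim
    · rcases t with _ | _ | _
      · exact absurd rfl ht
      · exact (no_both hJ (hT hiT) hm hm').elim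
      · rfl

omit [Fintype ι] in
theorem rk (K : Submodule ℝ (Fn ι)) [FiniteDimensional ℝ K] (L : Fn ι →ₗ[ℝ] Fn ι) :
    Module.finrank ℝ K = Module.finrank ℝ ↥(K.map L) +
      Module.finrank ℝ ↥(K ⊓ LinearMap.ker L) := by
  have h1 := LinearMap.finrank_range_add_finrank_ker (L.domRestrict K)
  rw [← h1, LinearMap.range_domRestrict, LinearMap.ker_domRestrict]
  congr 1
  rw [← Submodule.finrank_map_subtype_eq K ((LinearMap.ker L).comap K.subtype),
    Submodule.map_comap_subtype]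

private theorem dim_fin (C : Finset (ι → SignType)) (k : ℕ) (c : ι → E d) :
    FiniteDimensional ℝ ↥(FF C k ⊓ Ker c) := by
  have := FF_fin C k
  exact Submodule.finiteDimensional_of_le inf_le_left

theorem star_sub (b : ι → E d) (j : ι) (n : ℕ) : FF (Star b j) n ≤ FF (Cells b) n := by
  intro f hf e he
  refine hf e fun h => he ?_
  obtain ⟨h1, h2, h3⟩ := Finset.mem_filter.mp h
  exact Finset.mem_filter.mpr ⟨h1, h2, (Finset.mem_filter.mp h3).1⟩

theorem shift_mem {b c : ι → E d} (hS : Simple b) {j : ι} {q : ℕ} (hq : 1 ≤ q) {f : Fn ι}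
    (hf : f ∈ FF (Star b j) q ⊓ Ker c) :
    Xe (uv (j, 1)) f ∈ FF (Star b j) (q - 1) ⊓ Ker c := by
  refine ⟨?_, Xe_Ker _ hf.2⟩
  rw [← StarS_one]
  refine Xe_star hS (j, 1) (show (1 : SignType) ≠ 0 by decide) ?_
  rw [Nat.sub_add_cancel hq]
  exact star_sub b j q hf.1

/-- the shift in direction `j` is injective in high degrees -/
theorem shift_inj {b : ι → E (d + 1)} (hS : Simple b) (hb : Bornology.IsBounded (Pol b)) (j : ι)
    (hA : ∀ s ∈ Cells b, ∀ t ∈ Cells b, s j = 1 → t j = 1 → ∀ l, s l ≠ 0 → t l ≠ 0 → s l = t l)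
    {c : ι → E (d + 1)}
    (hc : AlgebraicIndependent ℤ (fun p : ι × Fin (d + 1) => c p.1 p.2)) {m : ℕ}
    (hm : d + 1 ≤ 2 * m) (hm' : m ≤ d) :
    ∀ h ∈ FF (Star b j) m ⊓ Ker c, Xe (uv (j, 1)) h = 0 → h = 0 := by
  intro h hh h0
  refine WLP.core hS hb j hA hc hm hm' h hh.1 hh.2 ?_
  intro e he
  have h1 := congrFun h0 (e - uv (j, 1))
  rw [Xe_apply, if_pos, add_sub_cancel] at h1
  · exact h1
  · intro l
    rw [Pi.sub_apply]
    by_cases hl : l = j
    · subst hl
      have : uv (l, (1 : SignType)) l = 1 := by simp [uv]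
      rw [this]
      omega
    · have : uv (j, (1 : SignType)) l = 0 := by simp [uv, hl]
      rw [this, zero_mul]

theorem star_mono {b : ι → E (d + 1)} (hS : Simple b) (hb : Bornology.IsBounded (Pol b)) (j : ι)
    (hA : ∀ s ∈ Cells b, ∀ t ∈ Cells b, s j = 1 → t j = 1 → ∀ l, s l ≠ 0 → t l ≠ 0 → s l = t l)
    {c : ι → E (d + 1)}
    (hc : AlgebraicIndependent ℤ (fun p : ι × Fin (d + 1) => c p.1 p.2)) {m : ℕ}
    (hm : d + 1 ≤ 2 * m) (hm' : m ≤ d) :
    Module.finrank ℝ ↥(FF (Star b j) m ⊓ Ker c) ≤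
      Module.finrank ℝ ↥(FF (Star b j) (m - 1) ⊓ Ker c) := by
  have := dim_fin (Star b j) m c
  have := dim_fin (Star b j) (m - 1) c
  have h1 := rk (FF (Star b j) m ⊓ Ker c) (Xe (uv (j, 1)))
  have h2 : (FF (Star b j) m ⊓ Ker c ⊓ LinearMap.ker (Xe (uv (j, 1))) : Submodule ℝ (Fn ι)) =
      ⊥ := by
    rw [eq_bot_iff]
    intro f hf
    exact shift_inj hS hb j hA hc hm hm' f hf.1 (LinearMap.mem_ker.1 hf.2)
  rw [h2, finrank_bot, add_zero] at h1
  rw [h1]
  refine Submodule.finrank_mono ?_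
  rintro _ ⟨f, hf, rfl⟩
  exact shift_mem hS (by omega) hf

theorem star_dim {b : ι → E (d + 1)} (hS : Simple b) (hb : Bornology.IsBounded (Pol b)) (j : ι)
    (hA : ∀ s ∈ Cells b, ∀ t ∈ Cells b, s j = 1 → t j = 1 → ∀ l, s l ≠ 0 → t l ≠ 0 → s l = t l)
    {c : ι → E (d + 1)}
    (hc : AlgebraicIndependent ℤ (fun p : ι × Fin (d + 1) => c p.1 p.2)) {q : ℕ}
    (hq : 1 ≤ q) (hqd : 2 * q ≤ d + 1) (hqd' : q ≤ d) :
    Module.finrank ℝ ↥(FF (Star b j) q ⊓ Ker c) =
      Module.finrank ℝ ↥(FF (Star b j) (q - 1) ⊓ Ker c) +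
        Module.finrank ℝ ↥(WW b c j q) := by
  have := dim_fin (Star b j) q c
  have hg := genC_of_alg hc
  obtain ⟨φ, hφ⟩ := exists_top hS hb hg
  have h1 := rk (FF (Star b j) q ⊓ Ker c) (Xe (uv (j, 1)))
  rw [h1]
  congr 1
  have h2 : (FF (Star b j) q ⊓ Ker c).map (Xe (uv (j, 1))) =
      FF (Star b j) (q - 1) ⊓ Ker c := by
    apply le_antisymm
    · rintro _ ⟨f, hf, rfl⟩
      exact shift_mem hS hq hf
    · intro t ht
      obtain ⟨f, hf, hft⟩ := star_onto hS hb hg hφ hq (by omega)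
        (shift_inj hS hb j hA hc (m := d + 1 - q) (by omega) (by omega)) ht
      exact ⟨f, hf, hft⟩
  rw [h2]

/-- sums over a set from sums over its small subsets -/
theorem blocks {α : Type} (J : Finset α) (x : α → ℤ) (s : ℤ) (t : ℕ) (ht : 1 ≤ t)
    (h : ∀ T ⊆ J, T.card ≤ t → ∑ j ∈ T, x j ≤ s) :
    ∑ j ∈ J, x j ≤ (((J.card + t - 1) / t : ℕ) : ℤ) * s := by
  obtain ⟨col, hcol⟩ := BLK_blocks {j : α // j ∈ J} t ((J.card + t - 1) / t) ht (by
    rw [Fintype.card_coe]
    have := Nat.lt_div_mul_add (a := J.card + t - 1) (b := t) (by omega)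
    rw [mul_comm] at this
    omega)
  have h1 : ∑ j ∈ J, x j = ∑ q, ∑ j ∈ (Finset.univ : Finset {j : α // j ∈ J}).filter
      (fun j => col j = q), x j.1 := by
    rw [Finset.sum_fiberwise, ← Finset.sum_coe_sort]
  rw [h1]
  have h2 : ∀ q ∈ (Finset.univ : Finset (Fin ((J.card + t - 1) / t))),
      ∑ j ∈ (Finset.univ : Finset {j : α // j ∈ J}).filter (fun j => col j = q), x j.1 ≤ s := by
    intro q _
    have h3 := h (((Finset.univ : Finset {j : α // j ∈ J}).filter (fun j => col j = q)).map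
      (Function.Embedding.subtype _)) (by
        intro j hj
        obtain ⟨j', -, rfl⟩ := Finset.mem_map.1 hj
        exact j'.2) (by rw [Finset.card_map]; exact hcol q)
    rw [Finset.sum_map] at h3
    exact h3
  have h3 := Finset.sum_le_sum h2
  rw [Finset.sum_const, Finset.card_univ, Fintype.card_fin, nsmul_eq_mul] at h3
  exact h3

end

end Pool.Agent.S78
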