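import Pool.Agent.S78.Defs
import Pool.Agent.CTC.STR
import Pool.Agent.CTC.SH
import Pool.Agent.KST.G0
import Pool.Agent.KST.A2

/-!
# The stars of at most `n + 1` pairs of cut facets are independent in degree `n ≥ 3`
-/

set_option autoImplicit false

open scoped BigOperators RealInnerProductSpace

namespace Pool.Agent.S78

noncomputable section

open Classical

open Pool.Agent.KST (E Fn supp Le IsCell Cells Verts Simple Pol pt PP Gen Star VF Low Sweep sgn EE X
  D FF Par Ker S hh LowF Inside)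
open Pool.Agent.CTC (Xe uv StarS Meet Few GenC SepC Top ng)

variable {ι : Type} [Fintype ι] {d : ℕ}

private theorem R1_mem_EE (C : Finset (ι → SignType)) (n : ℕ) (e : ι → ℤ) (h : e ∈ EE C n) :
    (∑ l, (e l).natAbs = n) ∧ sgn e ∈ C := by
  unfold Pool.Agent.KST.EE at h
  rw [Finset.mem_filter] at h
  exact h.2

private theorem R1_neg_ne {s : SignType} (h : s ≠ 0) : -s ≠ 0 := by
  revert h
  cases s <;> decide

private theorem R1_X_apply (l : ι) (f : Fn ι) (e : ι → ℤ) :
    X l f e = (if 0 ≤ e l then f (Function.update e l (e l + 1)) else 0) -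
      (if e l ≤ 0 then f (Function.update e l (e l - 1)) else 0) := rfl

/-- the values of two facets meeting `a` agree -/
private theorem R1_uniq {b : ι → E d} {J : Finset ι} (hJ : SepC b J) {a p q : ι × SignType}
    (ha : a.1 ∈ J) (ha0 : a.2 ≠ 0) (hp : Meet b p a) (hq : Meet b q a) (h : p.1 = q.1) :
    p = q := by
  obtain ⟨hp0, t, ht, htp, hta⟩ := hp
  obtain ⟨hq0, t', ht', htq, hta'⟩ := hq
  refine Prod.ext h ?_
  have htl : t p.1 ≠ 0 := by rw [htp]; exact hp0
  have htl' : t' p.1 ≠ 0 := by rw [h, htq]; exact hq0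
  by_cases h1 : a.2 = 1
  · have h2 := hJ.opp a.1 ha t ht t' ht' (by rw [hta, h1]) (by rw [hta', h1]) p.1 htl htl'
    rw [← htp, ← htq, h2, h]
  · have h1' : -a.2 = 1 := by
      revert h1 ha0
      generalize a.2 = s
      cases s <;> decide
    have h2 := hJ.opp a.1 ha (-t) (Pool.Agent.KST.neg_mem_cells ht) (-t')
      (Pool.Agent.KST.neg_mem_cells ht') (by rw [Pi.neg_apply, hta, h1'])
      (by rw [Pi.neg_apply, hta', h1']) p.1 (by rw [Pi.neg_apply]; exact R1_neg_ne htl)
      (by rw [Pi.neg_apply]; exact R1_neg_ne htl')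
    rw [Pi.neg_apply, Pi.neg_apply, neg_inj] at h2
    rw [← htp, ← htq, h2, h]

/-- no facet meets two opposite cut facets -/
private theorem R1_opp {b : ι → E d} {J : Finset ι} (hJ : SepC b J) {x u v : ι × SignType}
    (hu : u.1 ∈ J) (hu0 : u.2 ≠ 0) (hv0 : v.2 ≠ 0) (h : u.1 = v.1) (hxu : Meet b x u)
    (hxv : Meet b x v) : u = v := by
  by_contra hne
  have h2 : u.2 ≠ v.2 := fun h2 => hne (Prod.ext h h2)
  have hneg : v.2 = -u.2 := by
    revert h2 hu0 hv0
    generalize u.2 = s
    generalize v.2 = t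
    cases s <;> cases t <;> decide
  obtain ⟨hx0, t, ht, htx, htu⟩ := hxu
  obtain ⟨-, t', ht', htx', htv⟩ := hxv
  rw [← h, hneg] at htv
  have htl : t x.1 ≠ 0 := by rw [htx]; exact hx0
  have htl' : t' x.1 ≠ 0 := by rw [htx']; exact hx0
  have hfin : t x.1 = -t' x.1 := by
    by_cases h1 : u.2 = 1
    · have h2 := hJ.opp u.1 hu t ht (-t') (Pool.Agent.KST.neg_mem_cells ht') (by rw [htu, h1])
        (by rw [Pi.neg_apply, htv, neg_neg, h1]) x.1 htl
        (by rw [Pi.neg_apply]; exact R1_neg_ne htl')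
      rw [h2, Pi.neg_apply]
    · have h1' : -u.2 = 1 := by
        revert h1 hu0
        generalize u.2 = s
        cases s <;> decide
      have h2 := hJ.opp u.1 hu (-t) (Pool.Agent.KST.neg_mem_cells ht) t' ht'
        (by rw [Pi.neg_apply, htu, h1']) (by rw [htv, h1']) x.1
        (by rw [Pi.neg_apply]; exact R1_neg_ne htl) htl'
      rw [← h2, Pi.neg_apply, neg_neg]
  rw [htx, htx'] at hfin
  revert hx0 hfin
  generalize x.2 = s
  cases s <;> decide

private theorem R1_meet {b : ι → E d} {a : ι × SignType} {n : ℕ} {f : Fn ι}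
    (hf : f ∈ FF (StarS b a) n) {e : ι → ℤ} (he : f e ≠ 0) :
    (∑ l, (e l).natAbs = n) ∧ ∀ l, e l ≠ 0 → Meet b (l, SignType.sign (e l)) a := by
  have h1 : e ∈ EE (StarS b a) n := by
    by_contra h
    exact he (hf e h)
  obtain ⟨h2, h3⟩ := R1_mem_EE _ _ _ h1
  refine ⟨h2, fun l hl => ?_⟩
  obtain ⟨-, t, ht, hle, hta⟩ := Finset.mem_filter.1 h3
  have h4 : sgn e l ≠ 0 := by
    show SignType.sign (e l) ≠ 0
    rw [Ne, sign_eq_zero_iff]
    exact hl
  exact ⟨h4, t, ht, hle l h4, hta⟩

/-- the equation below `e` in direction `p` -/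
private theorem R1_eqn {c : ι → E d} (hc : GenC c) (V : Finset (ι × SignType))
    (hV : V.card ≤ d) (f : Fn ι) (hf : f ∈ Ker c) {e : ι → ℤ} {p : ι} (hp : e p ≠ 0)
    (hpV : (p, SignType.sign (e p)) ∈ V)
    (hop : ∀ z, f z ≠ 0 → z p ≠ 0 → SignType.sign (z p) = SignType.sign (e p))
    (hN : ∀ l, l ≠ p → ∀ z, f z ≠ 0 → z l ≠ 0 →
      (∀ k, Function.update e p (e p - (e p).sign) k ≠ 0 → z k ≠ 0 ∧ SignType.sign (z k) =
        SignType.sign (Function.update e p (e p - (e p).sign) k)) → ∃ σ, (l, σ) ∈ V) :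
    f e = 0 := by
  have hind := hc (V.image Prod.fst) (Finset.card_image_le.trans hV)
  obtain ⟨y, hy⟩ := Pool.Agent.KST.G0_dual hind (fun q => if q.1 = p then 1 else 0)
  have hyl : ⟪c p, y⟫ = 1 := by
    have := hy ⟨p, Finset.mem_image.2 ⟨_, hpV, rfl⟩⟩
    simpa using this
  have hyk : ∀ k σ, k ≠ p → (k, σ) ∈ V → ⟪c k, y⟫ = 0 := by
    intro k σ hk h1
    have := hy ⟨k, Finset.mem_image.2 ⟨_, h1, rfl⟩⟩
    simpa [hk] using this
  have hD := (Pool.Agent.KST.mem_Ker c f).1 hf y
  set s : ℤ := (e p).sign with hs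
  set e' : ι → ℤ := Function.update e p (e p - s) with he'
  have hDe : ∑ k, ⟪c k, y⟫ * X k f e' = 0 := by
    rw [← Pool.Agent.KST.D_apply, hD]
    rfl
  have hk0 : ∀ k, k ≠ p → ⟪c k, y⟫ * X k f e' = 0 := by
    intro k hk
    by_cases hTk : ∃ σ, (k, σ) ∈ V
    · obtain ⟨σ, hσ⟩ := hTk
      rw [hyk k σ hk hσ, zero_mul]
    · rw [R1_X_apply]
      have h1 : (if 0 ≤ e' k then f (Function.update e' k (e' k + 1)) else 0) = 0 := by
        split_ifs with h
        · by_contra hfz
          refine hTk (hN k hk _ hfz ?_ ?_)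
          · rw [Function.update_self]
            omega
          · intro q hq
            by_cases hqk : q = k
            · subst hqk
              rw [Function.update_self]
              refine ⟨by omega, ?_⟩
              rw [sign_pos (show (0 : ℤ) < e' q + 1 by omega),
                sign_pos (show (0 : ℤ) < e' q by omega)]
            · rw [Function.update_of_ne hqk]
              exact ⟨hq, rfl⟩
        · rfl
      have h2 : (if e' k ≤ 0 then f (Function.update e' k (e' k - 1)) else 0) = 0 := by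
        split_ifs with h
        · by_contra hfz
          refine hTk (hN k hk _ hfz ?_ ?_)
          · rw [Function.update_self]
            omega
          · intro q hq
            by_cases hqk : q = k
            · subst hqk
              rw [Function.update_self]
              refine ⟨by omega, ?_⟩
              rw [sign_neg (show e' q - 1 < (0 : ℤ) by omega),
                sign_neg (show e' q < (0 : ℤ) by omega)]
            · rw [Function.update_of_ne hqk]
              exact ⟨hq, rfl⟩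
        · rfl
      rw [h1, h2, sub_zero, mul_zero]
  rw [Finset.sum_eq_single p (fun k _ hk => hk0 k hk)
    (fun h => absurd (Finset.mem_univ p) h), hyl, one_mul, R1_X_apply] at hDe
  have hel : e' p = e p - s := by rw [he', Function.update_self]
  rcases lt_or_gt_of_ne hp with hneg | hpos
  · have hs1 : s = -1 := Int.sign_eq_neg_one_of_neg hneg
    have hA : (if 0 ≤ e' p then f (Function.update e' p (e' p + 1)) else 0) = 0 := by
      split_ifs with h
      · by_contra hfz
        have h1 := hop _ hfz (by rw [Function.update_self]; omega)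
        rw [Function.update_self, sign_pos (by omega), sign_neg hneg] at h1
        exact absurd h1 (by decide)
      · rfl
    have hB : (if e' p ≤ 0 then f (Function.update e' p (e' p - 1)) else 0) = f e := by
      rw [if_pos (by omega)]
      congr 1
      rw [hel, he', Function.update_idem]
      rw [show e p - s - 1 = e p by omega, Function.update_eq_self]
    rw [hA, hB, zero_sub, neg_eq_zero] at hDe
    exact hDe
  · have hs1 : s = 1 := Int.sign_eq_one_of_pos hpos
    have hB : (if e' p ≤ 0 then f (Function.update e' p (e' p - 1)) else 0) = 0 := by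
      split_ifs with h
      · by_contra hfz
        have h1 := hop _ hfz (by rw [Function.update_self]; omega)
        rw [Function.update_self, sign_neg (by omega), sign_pos hpos] at h1
        exact absurd h1 (by decide)
      · rfl
    have hA : (if 0 ≤ e' p then f (Function.update e' p (e' p + 1)) else 0) = f e := by
      rw [if_pos (by omega)]
      congr 1
      rw [hel, he', Function.update_idem]
      rw [show e p - s + 1 = e p by omega, Function.update_eq_self]
    rw [hA, hB, sub_zero] at hDe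
    exact hDe

/-- ROW R1 -/
theorem indepN {b c : ι → E d} (hc : GenC c) {J : Finset ι} (hJ : SepC b J) {T : Finset ι}
    (hT : T ⊆ J) {n : ℕ} (hn : 3 ≤ n) (hTn : T.card ≤ n + 1) (f : ι × SignType → Fn ι)
    (hf : ∀ a, a.1 ∈ T → a.2 ≠ 0 → f a ∈ FF (StarS b a) n ⊓ Ker c)
    (hs : ∑ a ∈ Finset.univ.filter (fun a : ι × SignType => a.1 ∈ T ∧ a.2 ≠ 0), f a = 0) :
    ∀ a, a.1 ∈ T → a.2 ≠ 0 → f a = 0 := by
  intro a haT ha0
  by_contra hfa
  -- the stars covering a point of the support
  have key : ∀ e, f a e ≠ 0 → ∃ a' : ι × SignType, a'.1 ∈ T ∧ a'.2 ≠ 0 ∧ a' ≠ a ∧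
      ∀ l, e l ≠ 0 → Meet b (l, SignType.sign (e l)) a' := by
    intro e he
    have h1 : ∑ x ∈ Finset.univ.filter (fun a : ι × SignType => a.1 ∈ T ∧ a.2 ≠ 0), f x e = 0 := by
      have := congrFun hs e
      rw [Finset.sum_apply] at this
      exact this
    have h2 : ∃ a' ∈ Finset.univ.filter (fun a : ι × SignType => a.1 ∈ T ∧ a.2 ≠ 0),
        a' ≠ a ∧ f a' e ≠ 0 := by
      by_contra hcon
      push Not at hcon
      rw [Finset.sum_eq_single a (fun x hx hxa => hcon x hx hxa)
        (fun h => absurd (Finset.mem_filter.2 ⟨Finset.mem_univ a, haT, ha0⟩) h)] at h1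
      exact he h1
    obtain ⟨a', ha', hne, hfe⟩ := h2
    obtain ⟨-, h3, h4⟩ := Finset.mem_filter.1 ha'
    exact ⟨a', h3, h4, hne, (R1_meet (hf a' h3 h4).1 hfe).2⟩
  have hma : ∀ e, f a e ≠ 0 → ∀ l, e l ≠ 0 → Meet b (l, SignType.sign (e l)) a :=
    fun e he => (R1_meet (hf a haT ha0).1 he).2
  -- a minimal cover
  obtain ⟨U, hU, hmin⟩ : ∃ U : Finset (ι × SignType),
      ((∀ w ∈ U, w.1 ∈ T ∧ w.2 ≠ 0 ∧ w ≠ a) ∧
        ∀ e, f a e ≠ 0 → ∃ w ∈ U, ∀ l, e l ≠ 0 → Meet b (l, SignType.sign (e l)) w) ∧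
      ∀ w0 ∈ U, ¬ ∀ e, f a e ≠ 0 → ∃ w ∈ U.erase w0,
        ∀ l, e l ≠ 0 → Meet b (l, SignType.sign (e l)) w := by
    have hex : ∃ m : ℕ, ∃ U : Finset (ι × SignType), U.card = m ∧
        ((∀ w ∈ U, w.1 ∈ T ∧ w.2 ≠ 0 ∧ w ≠ a) ∧
        ∀ e, f a e ≠ 0 → ∃ w ∈ U, ∀ l, e l ≠ 0 → Meet b (l, SignType.sign (e l)) w) := by
      refine ⟨_, Finset.univ.filter (fun w => w.1 ∈ T ∧ w.2 ≠ 0 ∧ w ≠ a), rfl,
        fun w hw => (Finset.mem_filter.1 hw).2, fun e he => ?_⟩
      obtain ⟨a', h1, h2, h3, h4⟩ := key e he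
      exact ⟨a', Finset.mem_filter.2 ⟨Finset.mem_univ _, h1, h2, h3⟩, h4⟩
    obtain ⟨U, hUc, hU1, hU2⟩ := Nat.find_spec hex
    refine ⟨U, ⟨hU1, hU2⟩, fun w0 hw0 hcon => ?_⟩
    have h1 := Nat.find_min hex (m := (U.erase w0).card)
      (by rw [← hUc]; exact Finset.card_erase_lt_of_mem hw0)
    exact h1 ⟨U.erase w0, rfl, fun w hw => hU1 w (Finset.mem_of_mem_erase hw), hcon⟩
  obtain ⟨hU1, hU2⟩ := hU
  obtain ⟨e1, he1⟩ : ∃ e, f a e ≠ 0 := by
    by_contra hcon
    push Not at hcon
    exact hfa (funext hcon)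
  obtain ⟨w0, hw0, -⟩ := hU2 e1 he1
  obtain ⟨hw0T, hw00, hw0a⟩ := hU1 w0 hw0
  have h0 := hmin w0 hw0
  push Not at h0
  obtain ⟨e, he, hnc⟩ := h0
  -- `e` is covered by `w0`
  have hmw0 : ∀ l, e l ≠ 0 → Meet b (l, SignType.sign (e l)) w0 := by
    obtain ⟨w, hw, hw'⟩ := hU2 e he
    by_cases hww : w = w0
    · rw [← hww]; exact hw'
    · obtain ⟨l, hl, hl'⟩ := hnc w (Finset.mem_erase.2 ⟨hww, hw⟩)
      exact absurd (hw' l hl) hl'
  -- the lower neighbours are covered by others
  have hlow : ∀ p, e p ≠ 0 → ∃ w ∈ U.erase w0,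
      ∀ l, Function.update e p (e p - (e p).sign) l ≠ 0 →
        Meet b (l, SignType.sign (Function.update e p (e p - (e p).sign) l)) w := by
    intro p hp
    by_contra hcon
    push Not at hcon
    refine he (R1_eqn hc (Finset.univ.filter (fun q => Meet b q a ∧ Meet b q w0))
      (hJ.common a w0 (hT haT) (hT hw0T) ha0 hw00 (Ne.symm hw0a)) (f a) (hf a haT ha0).2 hp
      (Finset.mem_filter.2 ⟨Finset.mem_univ _, hma e he p hp, hmw0 p hp⟩) ?_ ?_)
    · intro z hz hzp
      exact congrArg Prod.snd (R1_uniq hJ (hT haT) ha0 (hma z hz p hzp) (hma e he p hp) rfl)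
    · intro l hl z hz hzl hzk
      obtain ⟨w, hw, hw'⟩ := hU2 z hz
      have hww : w = w0 := by
        by_contra hww
        obtain ⟨q, hq, hq'⟩ := hcon w (Finset.mem_erase.2 ⟨hww, hw⟩)
        obtain ⟨h1, h2⟩ := hzk q hq
        rw [← h2] at hq'
        exact hq' (hw' q h1)
      rw [hww] at hw'
      exact ⟨_, Finset.mem_filter.2 ⟨Finset.mem_univ _, hma z hz l hzl, hw' l hzl⟩⟩
  choose! w hwU hw using hlow
  -- `e` is squarefree
  have hsq : ∀ p, e p ≠ 0 → (e p).natAbs = 1 ∧ ¬ Meet b (p, SignType.sign (e p)) (w p) := by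
    intro p hp
    obtain ⟨l, hl, hl'⟩ := hnc (w p) (hwU p hp)
    have hlp : l = p := by
      by_contra hlp
      have h1 := hw p hp l (by rw [Function.update_of_ne hlp]; exact hl)
      rw [Function.update_of_ne hlp] at h1
      exact hl' h1
    subst hlp
    refine ⟨?_, hl'⟩
    by_contra h1
    apply hl'
    rcases lt_or_gt_of_ne hp with h9 | h9
    · have h2 : (e l).sign = -1 := Int.sign_eq_neg_one_of_neg h9
      have h3 := hw l hp l
      rw [Function.update_self, h2] at h3
      have h4 := h3 (by omega)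
      rw [sign_neg (show e l - -1 < 0 by omega)] at h4
      rw [sign_neg h9]
      exact h4
    · have h2 : (e l).sign = 1 := Int.sign_eq_one_of_pos h9
      have h3 := hw l hp l
      rw [Function.update_self, h2] at h3
      have h4 := h3 (by omega)
      rw [sign_pos (show 0 < e l - 1 by omega)] at h4
      rw [sign_pos h9]
      exact h4
  have hother : ∀ p, e p ≠ 0 → ∀ q, e q ≠ 0 → q ≠ p →
      Meet b (q, SignType.sign (e q)) (w p) := by
    intro p hp q hq hqp
    have h1 := hw p hp q (by rw [Function.update_of_ne hqp]; exact hq)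
    rw [Function.update_of_ne hqp] at h1
    exact h1
  -- the support has `n` elements
  set S0 : Finset ι := Finset.univ.filter (fun l => e l ≠ 0) with hS0
  have hS0c : S0.card = n := by
    have h1 := (R1_meet (hf a haT ha0).1 he).1
    rw [← h1, Finset.card_eq_sum_ones, hS0, Finset.sum_filter]
    refine Finset.sum_congr rfl fun l _ => ?_
    by_cases hl : e l = 0
    · rw [if_neg (not_not.2 hl), hl]; rfl
    · rw [if_pos hl, (hsq l hl).1]
  have hmemS : ∀ p, p ∈ S0 ↔ e p ≠ 0 := by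
    intro p
    rw [hS0, Finset.mem_filter]
    exact ⟨fun h => h.2, fun h => ⟨Finset.mem_univ _, h⟩⟩
  have hwT : ∀ p, e p ≠ 0 → (w p).1 ∈ T ∧ (w p).2 ≠ 0 ∧ w p ≠ a ∧ w p ≠ w0 := by
    intro p hp
    obtain ⟨h1, h2⟩ := Finset.mem_erase.1 (hwU p hp)
    obtain ⟨h3, h4, h5⟩ := hU1 _ h2
    exact ⟨h3, h4, h5, h1⟩
  -- the labels are distinct
  have hinj : Set.InjOn (fun p => (w p).1) (S0 : Set ι) := by
    intro p hp q hq hpq
    have hp' : e p ≠ 0 := (hmemS p).1 (Finset.mem_coe.1 hp)
    have hq' : e q ≠ 0 := (hmemS q).1 (Finset.mem_coe.1 hq)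
    by_contra hne
    obtain ⟨r, hr, hrp⟩ : ∃ r ∈ S0, r ∉ ({p, q} : Finset ι) := by
      by_contra hcon
      push Not at hcon
      have h1 := Finset.card_le_card (show S0 ⊆ {p, q} from hcon)
      have h2 : ({p, q} : Finset ι).card ≤ 2 := Finset.card_le_two
      omega
    rw [Finset.mem_insert, Finset.mem_singleton, not_or] at hrp
    have hr' := (hmemS r).1 hr
    obtain ⟨h1, h2, -, -⟩ := hwT p hp'
    obtain ⟨-, h4, -, -⟩ := hwT q hq'
    have h5 := R1_opp hJ (hT h1) h2 h4 hpq (hother p hp' r hr' hrp.1) (hother q hq' r hr' hrp.2)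
    have h6 := hother q hq' p hp' hne
    rw [← h5] at h6
    exact (hsq p hp').2 h6
  have hex : ∀ p, ∃ r, e r ≠ 0 ∧ r ≠ p := by
    intro p
    by_contra hcon
    push Not at hcon
    have h1 := Finset.card_le_card (show S0 ⊆ {p} from fun x hx =>
      Finset.mem_singleton.2 (hcon x ((hmemS x).1 hx)))
    rw [Finset.card_singleton] at h1
    omega
  have ha1 : a.1 ≠ w0.1 := by
    intro h
    obtain ⟨r, hr, -⟩ := hex a.1
    exact hw0a (R1_opp hJ (hT haT) ha0 hw00 h (hma e he r hr) (hmw0 r hr)).symm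
  have ha2 : a.1 ∉ S0.image (fun p => (w p).1) := by
    intro h
    obtain ⟨p, hp, hpa⟩ := Finset.mem_image.1 h
    have hp' := (hmemS p).1 hp
    obtain ⟨r, hr, hrp⟩ := hex p
    obtain ⟨-, h2, h3, -⟩ := hwT p hp'
    exact h3 (R1_opp hJ (hT haT) ha0 h2 hpa.symm (hma e he r hr)
      (hother p hp' r hr hrp)).symm
  have hw2 : w0.1 ∉ S0.image (fun p => (w p).1) := by
    intro h
    obtain ⟨p, hp, hpa⟩ := Finset.mem_image.1 h
    have hp' := (hmemS p).1 hp
    obtain ⟨r, hr, hrp⟩ := hex p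
    obtain ⟨-, h2, -, h3⟩ := hwT p hp'
    exact h3 (R1_opp hJ (hT hw0T) hw00 h2 hpa.symm (hmw0 r hr)
      (hother p hp' r hr hrp)).symm
  have hsub : insert a.1 (insert w0.1 (S0.image (fun p => (w p).1))) ⊆ T := by
    intro x hx
    rw [Finset.mem_insert, Finset.mem_insert] at hx
    rcases hx with rfl | rfl | hx
    · exact haT
    · exact hw0T
    · obtain ⟨p, hp, rfl⟩ := Finset.mem_image.1 hx
      exact (hwT p ((hmemS p).1 hp)).1
  have hcard := Finset.card_le_card hsub
  rw [Finset.card_insert_of_notMem (by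
      rw [Finset.mem_insert, not_or]
      exact ⟨ha1, ha2⟩),
    Finset.card_insert_of_notMem hw2, Finset.card_image_of_injOn hinj, hS0c] at hcard
  omega

end

end Pool.Agent.S78
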