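import Pool.Agent.S78.Defs
import Pool.Agent.CTC.STP

/-!
# The key inequality with independence as a hypothesis
-/

set_option autoImplicit false

open scoped BigOperators RealInnerProductSpace

namespace Pool.Agent.S78

noncomputable section

open Classical

open Pool.Agent.KST (E Fn supp Le IsCell Cells Verts Simple Pol pt PP Gen Star VF Low Sweep sgn EE X
  D FF Par Ker S hh LowF Inside FF_fin)
open Pool.Agent.CTC

variable {ι : Type} [Fintype ι] {d : ℕ}

/-- vectors of the star of `a` are compatible with `uv a` -/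
private theorem KEYA_compat {b : ι → E d} (a : ι × SignType) {k : ℕ}
    {e : ι → ℤ} (he : e ∈ EE (StarS b a) k) : 0 ≤ ((a.2 : SignType) : ℤ) * e a.1 := by
  have h1 : sgn e ∈ StarS b a := (Finset.mem_filter.mp he).2.2
  obtain ⟨-, t, -, hle, hta⟩ := Finset.mem_filter.mp h1
  by_cases h0 : e a.1 = 0
  · rw [h0, mul_zero]
  · have h2 : sgn e a.1 ≠ 0 := by
      unfold sgn
      intro h
      exact h0 (sign_eq_zero_iff.mp h)
    have h3 : a.2 = SignType.sign (e a.1) := by
      rw [← hta]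
      exact hle a.1 h2
    rw [h3, sign_mul_self]
    exact abs_nonneg _

private theorem KEYA_swap (a : ι × SignType) (φ : Fn ι) {e e' : ι → ℤ}
    (he : 0 ≤ ((a.2 : SignType) : ℤ) * e a.1) (he' : 0 ≤ ((a.2 : SignType) : ℤ) * e' a.1)
    (ha : a.2 ≠ 0) :
    Xe (e + uv a) φ e' = Xe (e' + uv a) φ e := by
  rw [Xe_apply, Xe_apply]
  have key : (∀ l, 0 ≤ (e + uv a) l * e' l) ↔ (∀ l, 0 ≤ (e' + uv a) l * e l) := by
    constructor <;> intro h l <;> have hl := h l <;> simp only [Pi.add_apply, uv] at hl ⊢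
    · by_cases hla : l = a.1
      · subst hla
        simp only [if_true] at hl ⊢
        obtain ⟨j, s⟩ := a
        simp only at he he' ha hl ⊢
        cases s
        · exact absurd rfl ha
        · simp at he he' ⊢
          nlinarith
        · simp at he he' ⊢
          nlinarith
      · rw [if_neg hla] at hl ⊢
        linarith [mul_comm (e l + 0) (e' l)]
    · by_cases hla : l = a.1
      · subst hla
        simp only [if_true] at hl ⊢
        obtain ⟨j, s⟩ := a
        simp only at he he' ha hl ⊢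
        cases s
        · exact absurd rfl ha
        · simp at he he' ⊢
          nlinarith
        · simp at he he' ⊢
          nlinarith
      · rw [if_neg hla] at hl ⊢
        linarith [mul_comm (e l + 0) (e' l)]
  have h2 : e + uv a + e' = e' + uv a + e := by
    funext l
    simp only [Pi.add_apply]
    ring
  simp only [key, h2]

private theorem KEYA_two (a : ι × SignType) (φ : Fn ι) {e e' : ι → ℤ}
    (he' : 0 ≤ ((a.2 : SignType) : ℤ) * e' a.1) :
    Xe (uv a) (Xe e φ) e' = Xe (e' + uv a) φ e := by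
  rw [Xe_apply, if_pos, Xe_symm, add_comm]
  intro l
  unfold uv
  split_ifs with h
  · rw [h]; exact he'
  · simp

private theorem KEYA_natAbs {C : Finset (ι → SignType)} {n : ℕ} {e : ι → ℤ} (he : e ∈ EE C n) :
    ∑ l, (e l).natAbs = n := (Finset.mem_filter.mp he).2.1

private theorem KEYA_sub {b : ι → E d} (a : ι × SignType) {k : ℕ} :
    EE (StarS b a) k ⊆ EE (Cells b) k := by
  intro e he
  unfold EE at he ⊢
  rw [Finset.mem_filter] at he ⊢
  exact ⟨he.1, he.2.1, (Finset.mem_filter.mp he.2.2).1⟩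

/-- weights on a finite set whose functional kills a vector exactly if the vector is in a span -/
private theorem KEYA_dual {α β : Type} [Fintype α] (s : Finset β) (v : β → α → ℝ) (x : α → ℝ)
    (h : ∀ w : α → ℝ, (∀ j ∈ s, ∑ i, w i * v j i = 0) → ∑ i, w i * x i = 0) :
    ∃ u : β → ℝ, x = ∑ j ∈ s, u j • v j := by
  have hx : x ∈ Submodule.span ℝ (v '' (s : Set β)) := by
    rw [← Subspace.forall_mem_dualAnnihilator_apply_eq_zero_iff]
    intro φ hφ
    have e : ∀ y : α → ℝ, φ y = ∑ i, φ (Pi.single i 1) * y i := by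
      intro y
      conv_lhs => rw [LinearMap.pi_apply_eq_sum_univ φ y]
      refine Finset.sum_congr rfl (fun i _ => ?_)
      rw [smul_eq_mul, mul_comm]
      congr 2
      funext k
      simp only [Pi.single_apply, eq_comm]
    rw [e x]
    refine h (fun i => φ (Pi.single i 1)) ?_
    intro j hj
    rw [← e (v j)]
    exact (Submodule.mem_dualAnnihilator φ).mp hφ _ (Submodule.subset_span ⟨j, hj, rfl⟩)
  obtain ⟨c, hc⟩ := (Submodule.mem_span_image_finset_iff_exists_fun' ℝ).mp hx
  exact ⟨c, hc.symm⟩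

theorem surjI {b c : ι → E d} (hS : Simple b) (hb : Bornology.IsBounded (Pol b))
    (hc : GenC c) {φ : Fn ι} (hφ : Top b c φ) {J : Finset ι} (hJ : SepC b J) {T : Finset ι}
    (hT : T ⊆ J) {n m : ℕ} (hnm : n + m = d) (hn : 1 ≤ n) (hm : 1 ≤ m) (hI : ∀ f : ι × SignType → Fn ι,
      (∀ a, a.1 ∈ T → a.2 ≠ 0 → f a ∈ FF (StarS b a) n ⊓ Ker c) →
      ∑ a ∈ Finset.univ.filter (fun a : ι × SignType => a.1 ∈ T ∧ a.2 ≠ 0), f a = 0 →
      ∀ a, a.1 ∈ T → a.2 ≠ 0 → f a = 0)
    (t : ι → Fn ι) (ht : ∀ j ∈ T, t j ∈ FF (Star b j) (m - 1) ⊓ Ker c) :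
    ∃ f ∈ FF (Cells b) m ⊓ Ker c ⊓ Par ι (-1), ∀ j ∈ T, Xe (uv (j, 1)) f = t j := by
  have hdown : ∀ s t, t ∈ Cells b → Le s t → s ∈ Cells b :=
    fun s t h1 h2 => Pool.Agent.KST.cells_down hS h1 h2
  have hφF : φ ∈ FF (Cells b) d := (Submodule.mem_inf.mp hφ.1).1
  have hφK : φ ∈ Ker c := (Submodule.mem_inf.mp hφ.1).2
  set A : Finset (ι × SignType) :=
    Finset.univ.filter (fun a : ι × SignType => a.1 ∈ T ∧ a.2 ≠ 0) with hA
  have hAmem : ∀ a, a ∈ A ↔ a.1 ∈ T ∧ a.2 ≠ 0 := by intro a; simp [hA]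
  have gen : ∀ (t' : ι × SignType → Fn ι), (∀ a ∈ A, t' a ∈ FF (StarS b a) (m - 1) ⊓ Ker c) →
      ∃ g ∈ FF (Cells b) m ⊓ Ker c, ∀ a ∈ A, Xe (uv a) g = t' a := by
    intro t' ht'
    have hdual := KEYA_dual
      (α := (a : {a // a ∈ A}) × {e // e ∈ EE (StarS b a.1) (m - 1)}) (EE (Cells b) n)
      (fun e p => Xe (uv p.1.1) (Xe e φ) p.2.1) (fun p => t' p.1.1 p.2.1) ?_
    · obtain ⟨u, hu⟩ := hdual
      have hg : ∑ e ∈ EE (Cells b) n, u e • Xe e φ ∈ FF (Cells b) m ⊓ Ker c := by
        refine Submodule.sum_mem _ (fun e he => Submodule.smul_mem _ _ ?_)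
        refine Submodule.mem_inf.mpr ⟨?_, Xe_Ker e hφK⟩
        refine Xe_FF hdown e (KEYA_natAbs he) ?_
        rw [add_comm, hnm]; exact hφF
      refine ⟨_, hg, ?_⟩
      intro a ha
      have h1 : Xe (uv a) (∑ e ∈ EE (Cells b) n, u e • Xe e φ) ∈ FF (StarS b a) (m - 1) := by
        refine Xe_star hS a ((hAmem a).mp ha).2 ?_
        rw [Nat.sub_add_cancel hm]
        exact (Submodule.mem_inf.mp hg).1
      funext e'
      by_cases he' : e' ∈ EE (StarS b a) (m - 1)
      · have h2 := congrFun hu ⟨⟨a, ha⟩, ⟨e', he'⟩⟩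
        simp only [Finset.sum_apply, Pi.smul_apply] at h2
        rw [h2, map_sum, Finset.sum_apply]
        refine Finset.sum_congr rfl (fun e _ => ?_)
        rw [map_smul, Pi.smul_apply]
      · rw [h1 e' he', (Submodule.mem_inf.mp (ht' a ha)).1 e' he']
    · intro w hw
      set f : ι × SignType → Fn ι := fun a =>
        if h : a ∈ A then ∑ e : {e // e ∈ EE (StarS b a) (m - 1)},
          w ⟨⟨a, h⟩, e⟩ • Xe (e.1 + uv a) φ else 0 with hf
      have hfa : ∀ (a : ι × SignType) (h : a ∈ A), f a =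
          ∑ e : {e // e ∈ EE (StarS b a) (m - 1)}, w ⟨⟨a, h⟩, e⟩ • Xe (e.1 + uv a) φ := by
        intro a h
        simp only [hf, dif_pos h]
      have hfm : ∀ a, a.1 ∈ T → a.2 ≠ 0 → f a ∈ FF (StarS b a) n ⊓ Ker c := by
        intro a h1 h2
        rw [hfa a ((hAmem a).mpr ⟨h1, h2⟩)]
        refine Submodule.sum_mem _ (fun e _ => Submodule.smul_mem _ _ ?_)
        exact (Xe_row hS hφ.1 a h2 hnm hm e.2).1
      have hsum : ∑ a ∈ A, f a = 0 := by
        funext e
        rw [Finset.sum_apply]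
        by_cases he : e ∈ EE (Cells b) n
        · have h1 := hw e he
          rw [Fintype.sum_sigma] at h1
          rw [Pi.zero_apply, ← h1, ← Finset.sum_coe_sort A]
          refine Finset.sum_congr rfl (fun a _ => ?_)
          rw [hfa a.1 a.2, Finset.sum_apply]
          refine Finset.sum_congr rfl (fun e'' _ => ?_)
          rw [Pi.smul_apply, smul_eq_mul, KEYA_two a.1 φ (KEYA_compat a.1 e''.2)]
        · rw [Pi.zero_apply]
          refine Finset.sum_eq_zero (fun a ha => ?_)
          have h1 := (Submodule.mem_inf.mp (hfm a ((hAmem a).mp ha).1 ((hAmem a).mp ha).2)).1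
          exact h1 e (fun h => he (KEYA_sub a h))
      have hz := hI f hfm hsum
      rw [Fintype.sum_sigma]
      refine Finset.sum_eq_zero (fun a _ => ?_)
      have ha := (hAmem a.1).mp a.2
      set L : Fn ι →ₗ[ℝ] ℝ := ∑ e : {e // e ∈ EE (StarS b a.1) (m - 1)},
        w ⟨a, e⟩ • LinearMap.proj e.1 with hL
      have hLa : ∀ g : Fn ι, L g = ∑ e : {e // e ∈ EE (StarS b a.1) (m - 1)},
          w ⟨a, e⟩ * g e.1 := by
        intro g
        simp [hL, LinearMap.sum_apply]
      have hspan := rows_span hS hb hc hφ a.1 ha.2 (n := m - 1) (m := n + 1) (by omega) (by omega)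
      have hle : Submodule.span ℝ {g | ∃ e ∈ EE (StarS b a.1) (n + 1 - 1),
          g = Xe (e + uv a.1) φ} ≤ LinearMap.ker L := by
        rw [Submodule.span_le]
        rintro g ⟨e, he, rfl⟩
        rw [SetLike.mem_coe, LinearMap.mem_ker, hLa]
        have h0 := congrFun (hz a.1 ha.1 ha.2) e
        rw [hfa a.1 a.2, Finset.sum_apply, Pi.zero_apply] at h0
        rw [← h0]
        refine Finset.sum_congr rfl (fun e'' _ => ?_)
        rw [Pi.smul_apply, smul_eq_mul,
          KEYA_swap a.1 φ (KEYA_compat a.1 he) (KEYA_compat a.1 e''.2) ha.2]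
      have := hle (hspan (ht' a.1 a.2))
      rw [LinearMap.mem_ker, hLa] at this
      exact this
  -- the odd solution
  obtain ⟨g, hg, hgt⟩ := gen (fun a => if a.2 = 1 then t a.1 else - ng (t a.1)) (by
    intro a ha
    obtain ⟨h1, h2⟩ := (hAmem a).mp ha
    have h3 := ht a.1 h1
    obtain ⟨j, s⟩ := a
    simp only at h1 h2 h3 ⊢
    by_cases hs : s = 1
    · rw [if_pos hs, hs, StarS_one]
      exact h3
    · rw [if_neg hs]
      have hs' : s = -1 := by
        cases s
        · exact absurd rfl h2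
        · rfl
        · exact absurd rfl hs
      refine Submodule.neg_mem _ (Submodule.mem_inf.mpr ⟨?_, ng_Ker (Submodule.mem_inf.mp h3).2⟩)
      have h4 := (Submodule.mem_inf.mp h3).1
      rw [← StarS_one] at h4
      have h5 := ng_StarS (j, 1) h4
      rw [hs']
      exact h5)
  obtain ⟨hgF, hgK⟩ := Submodule.mem_inf.mp hg
  refine ⟨(1 / 2 : ℝ) • (g - ng g), ?_, ?_⟩
  · refine Submodule.mem_inf.mpr ⟨Submodule.smul_mem _ _ (Submodule.mem_inf.mpr ⟨?_, ?_⟩), ?_⟩
    · exact Submodule.sub_mem _ hgF (ng_Cells hgF)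
    · exact Submodule.sub_mem _ hgK (ng_Ker hgK)
    · intro e
      simp only [Pi.smul_apply, Pi.sub_apply, ng, neg_neg, smul_eq_mul]
      ring
  · intro j hj
    have h1 := hgt (j, 1) ((hAmem _).mpr ⟨hj, by simp⟩)
    have h2 := hgt (j, -1) ((hAmem _).mpr ⟨hj, by simp⟩)
    simp only [if_true] at h1
    have h3 : ¬ ((-1 : SignType) = 1) := by decide
    rw [if_neg h3] at h2
    have h4 : Xe (uv (j, 1)) (ng g) = - t j := by
      have e1 : (uv (j, (1 : SignType)) : ι → ℤ) = - uv (j, (-1 : SignType)) := by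
        funext l
        simp only [uv, Pi.neg_apply]
        split_ifs <;> simp
      rw [e1, ← ng_Xe, h2]
      funext e
      have := congrFun (ng_ng (t j)) e
      simp only [ng, Pi.neg_apply, neg_neg] at this ⊢
    rw [map_smul, map_sub, h1, h4]
    funext e
    simp only [Pi.smul_apply, Pi.sub_apply, Pi.neg_apply, smul_eq_mul]
    ring

omit [Fintype ι] in
private theorem KEYB_ng_add (f g : Fn ι) : ng (f + g) = ng f + ng g := rfl

omit [Fintype ι] in
private theorem KEYB_ng_smul (r : ℝ) (f : Fn ι) : ng (r • f) = r • ng f := rfl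

/-- a function of the star of `w` vanishes at vectors with nonzero coordinate `j` -/
private theorem KEYB_vanish {b : ι → E d} {J : Finset ι} (hJ : SepC b J) {j w : ι} (hj : j ∈ J)
    (hw : w ∈ J) (hjw : j ≠ w) {n : ℕ} {f : Fn ι} (hf : f ∈ FF (Star b w) n) (e : ι → ℤ)
    (he : e j ≠ 0) : f e = 0 := by
  refine hf e fun hmem => ?_
  have h1 : sgn e ∈ Star b w := (Finset.mem_filter.mp hmem).2.2
  obtain ⟨_, t, ht, hle, htw⟩ := Finset.mem_filter.mp h1
  have h2 : sgn e j ≠ 0 := by
    intro h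
    exact he (sign_eq_zero_iff.mp h)
  have h3 : t j ≠ 0 := by rw [hle j h2]; exact h2
  exact hjw (hJ.disj t ht j hj w hw h3 (by rw [htw]; decide))

private theorem KEYB_Xe_zero {b : ι → E d} {J : Finset ι} (hJ : SepC b J) {j w : ι} (hj : j ∈ J)
    (hw : w ∈ J) (hjw : j ≠ w) {n : ℕ} {f : Fn ι} (hf : f ∈ FF (Star b w) n) :
    Xe (uv (j, 1)) f = 0 ∧ Xe (uv (j, 1)) (ng f) = 0 := by
  have key : ∀ e' : ι → ℤ, (∀ l, 0 ≤ uv (j, (1 : SignType)) l * e' l) →
      (uv (j, (1 : SignType)) + e') j ≠ 0 := by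
    intro e' h
    have h1 := h j
    have h2 : uv (j, (1 : SignType)) j = 1 := by
      simp [uv]
    rw [h2] at h1
    rw [Pi.add_apply, h2]
    omega
  constructor
  · funext e'
    rw [Xe_apply]
    split_ifs with h
    · rw [KEYB_vanish hJ hj hw hjw hf _ (key e' h)]
      rfl
    · rfl
  · funext e'
    rw [Xe_apply]
    split_ifs with h
    · have : ng f (uv (j, (1 : SignType)) + e') = f (-(uv (j, (1 : SignType)) + e')) := rfl
      rw [this, KEYB_vanish hJ hj hw hjw hf _ (by
        rw [Pi.neg_apply, neg_ne_zero]; exact key e' h)]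
      rfl
    · rfl

private theorem KEYB_star_sub (b : ι → E d) (j : ι) (n : ℕ) : FF (Star b j) n ≤ FF (Cells b) n := by
  intro f hf e he
  refine hf e fun h => he ?_
  obtain ⟨h1, h2, h3⟩ := Finset.mem_filter.mp h
  exact Finset.mem_filter.mpr ⟨h1, h2, (Finset.mem_filter.mp h3).1⟩

theorem starPI {b c : ι → E d} (hS : Simple b) (hb : Bornology.IsBounded (Pol b))
    (hc : GenC c) {J : Finset ι} (hJ : SepC b J) {T : Finset ι}
    (hT : T ⊆ J) {n m : ℕ} (hnm : n + m = d) (hn : 1 ≤ n) (hm : 1 ≤ m) (hI : ∀ f : ι × SignType → Fn ι,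
      (∀ a, a.1 ∈ T → a.2 ≠ 0 → f a ∈ FF (StarS b a) n ⊓ Ker c) →
      ∑ a ∈ Finset.univ.filter (fun a : ι × SignType => a.1 ∈ T ∧ a.2 ≠ 0), f a = 0 →
      ∀ a, a.1 ∈ T → a.2 ≠ 0 → f a = 0)
    (hinj : ∀ f : ι → Fn ι, (∀ j ∈ J, f j ∈ FF (Star b j) m ⊓ Ker c) →
      ∑ j ∈ J, (f j - ng (f j)) = 0 → ∀ j ∈ J, f j = 0) :
    ∑ j ∈ T, Module.finrank ℝ ↥(FF (Star b j) (m - 1) ⊓ Ker c) +
      ∑ j ∈ J \ T, Module.finrank ℝ ↥(FF (Star b j) m ⊓ Ker c) ≤
      Module.finrank ℝ ↥(FF (Cells b) m ⊓ Ker c ⊓ Par ι (-1)) := by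
  obtain ⟨φ, hφ⟩ := exists_top hS hb hc
  set W : Submodule ℝ (Fn ι) := FF (Cells b) m ⊓ Ker c ⊓ Par ι (-1) with hW
  have hfin : ∀ (C : Finset (ι → SignType)) (k : ℕ), FiniteDimensional ℝ ↥(FF C k ⊓ Ker c) := by
    intro C k
    have := FF_fin C k
    exact Submodule.finiteDimensional_of_le inf_le_left
  have hWfin : FiniteDimensional ℝ W := by
    have := hfin (Cells b) m
    exact Submodule.finiteDimensional_of_le inf_le_left
  -- the map Psi
  have hmem : ∀ (j : T) (f : W), Xe (uv (j.1, (1 : SignType))) f.1 ∈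
      FF (Star b j.1) (m - 1) ⊓ Ker c := by
    intro j f
    refine ⟨?_, Xe_Ker _ f.2.1.2⟩
    rw [← StarS_one]
    refine Xe_star hS (j.1, 1) (show (1 : SignType) ≠ 0 by decide) ?_
    have : m - 1 + 1 = m := by omega
    rw [this]
    exact f.2.1.1
  let Psi : W →ₗ[ℝ] ((j : T) → ↥(FF (Star b j.1) (m - 1) ⊓ Ker c)) :=
    { toFun := fun f j => ⟨Xe (uv (j.1, (1 : SignType))) f.1, hmem j f⟩
      map_add' := by
        intro f g
        funext j
        apply Subtype.ext
        exact map_add _ _ _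
      map_smul' := by
        intro r f
        funext j
        apply Subtype.ext
        exact map_smul _ _ _ }
  have hfinT : ∀ j : T, FiniteDimensional ℝ ↥(FF (Star b j.1) (m - 1) ⊓ Ker c) :=
    fun j => hfin _ _
  have hsurj : Function.Surjective Psi := by
    intro t
    obtain ⟨f, hf, hft⟩ := surjI hS hb hc hφ hJ hT hnm hn hm hI
      (fun j => if h : j ∈ T then (t ⟨j, h⟩).1 else 0) (by
        intro j hj
        rw [dif_pos hj]
        exact (t ⟨j, hj⟩).2)
    refine ⟨⟨f, hf⟩, ?_⟩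
    funext j
    apply Subtype.ext
    have := hft j.1 j.2
    rw [dif_pos j.2] at this
    exact this
  have hrank := LinearMap.finrank_range_add_finrank_ker Psi
  have hr1 : Module.finrank ℝ (LinearMap.range Psi)
      = ∑ j ∈ T, Module.finrank ℝ ↥(FF (Star b j) (m - 1) ⊓ Ker c) := by
    rw [LinearMap.range_eq_top.mpr hsurj, finrank_top, Module.finrank_pi_fintype]
    exact Finset.sum_coe_sort T (fun j => Module.finrank ℝ ↥(FF (Star b j) (m - 1) ⊓ Ker c))
  -- the map Phi into the kernel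
  have hJT : ∀ w : (J \ T : Finset ι), w.1 ∈ J ∧ w.1 ∉ T := fun w => Finset.mem_sdiff.mp w.2
  have hmem2 : ∀ (g : (w : (J \ T : Finset ι)) → ↥(FF (Star b w.1) m ⊓ Ker c)),
      (∑ w : (J \ T : Finset ι), ((g w).1 - ng (g w).1)) ∈ W := by
    intro g
    refine Submodule.sum_mem _ fun w _ => ?_
    have h1 := KEYB_star_sub b w.1 m (g w).2.1
    refine ⟨⟨Submodule.sub_mem _ h1 (ng_Cells h1), Submodule.sub_mem _ (g w).2.2
      (ng_Ker (g w).2.2)⟩, ?_⟩
    intro e
    have : ((g w).1 - ng (g w).1) (-e) = (g w).1 (-e) - (g w).1 (- -e) := rfl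
    rw [this, neg_neg]
    have : ((g w).1 - ng (g w).1) e = (g w).1 e - (g w).1 (-e) := rfl
    rw [this]
    ring
  let Phi : ((w : (J \ T : Finset ι)) → ↥(FF (Star b w.1) m ⊓ Ker c)) →ₗ[ℝ] W :=
    { toFun := fun g => ⟨∑ w : (J \ T : Finset ι), ((g w).1 - ng (g w).1), hmem2 g⟩
      map_add' := by
        intro f g
        apply Subtype.ext
        show ∑ w : (J \ T : Finset ι), (((f w).1 + (g w).1) - ng ((f w).1 + (g w).1))
          = ∑ w : (J \ T : Finset ι), ((f w).1 - ng (f w).1)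
            + ∑ w : (J \ T : Finset ι), ((g w).1 - ng (g w).1)
        rw [← Finset.sum_add_distrib]
        refine Finset.sum_congr rfl fun w _ => ?_
        rw [KEYB_ng_add]
        abel
      map_smul' := by
        intro r f
        apply Subtype.ext
        show ∑ w : (J \ T : Finset ι), ((r • (f w).1) - ng (r • (f w).1))
          = r • ∑ w : (J \ T : Finset ι), ((f w).1 - ng (f w).1)
        rw [Finset.smul_sum]
        refine Finset.sum_congr rfl fun w _ => ?_
        rw [KEYB_ng_smul, smul_sub] }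
  have hPhiker : ∀ g, Phi g ∈ LinearMap.ker Psi := by
    intro g
    rw [LinearMap.mem_ker]
    funext j
    apply Subtype.ext
    show Xe (uv (j.1, (1 : SignType))) (∑ w : (J \ T : Finset ι), ((g w).1 - ng (g w).1)) = 0
    rw [map_sum]
    refine Finset.sum_eq_zero fun w _ => ?_
    have hne : j.1 ≠ w.1 := fun h => (hJT w).2 (h ▸ j.2)
    have := KEYB_Xe_zero hJ (hT j.2) (hJT w).1 hne (g w).2.1
    rw [map_sub, this.1, this.2, sub_zero]
  have hPhiinj : Function.Injective (LinearMap.codRestrict (LinearMap.ker Psi) Phi hPhiker) := by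
    refine (injective_iff_map_eq_zero (LinearMap.codRestrict (LinearMap.ker Psi) Phi
      hPhiker)).mpr ?_
    intro g hg
    have h0 : ∑ w : (J \ T : Finset ι), ((g w).1 - ng (g w).1) = 0 :=
      congrArg (fun x => (x.1.1 : Fn ι)) hg
    set F : ι → Fn ι := fun j => if h : j ∈ (J \ T : Finset ι) then (g ⟨j, h⟩).1 else 0 with hFdef
    have h1 : ∀ j ∈ J, F j ∈ FF (Star b j) m ⊓ Ker c := by
      intro j _
      by_cases h : j ∈ (J \ T : Finset ι)
      · simp only [hFdef, dif_pos h]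
        exact (g ⟨j, h⟩).2
      · simp only [hFdef, dif_neg h]
        exact Submodule.zero_mem _
    have h2 : ∑ j ∈ J, (F j - ng (F j)) = 0 := by
      have h3 : ∑ j ∈ J, (F j - ng (F j)) = ∑ j ∈ J \ T, (F j - ng (F j)) := by
        symm
        refine Finset.sum_subset Finset.sdiff_subset ?_
        intro j _ hj
        simp only [hFdef, dif_neg hj]
        have : ng (0 : Fn ι) = 0 := rfl
        rw [this, sub_zero]
      rw [h3, ← Finset.sum_coe_sort (J \ T) (fun j => F j - ng (F j)), ← h0]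
      refine Finset.sum_congr rfl fun w _ => ?_
      simp only [hFdef, dif_pos w.2]
    have h4 := hinj F h1 h2
    funext w
    apply Subtype.ext
    have := h4 w.1 (hJT w).1
    simp only [hFdef, dif_pos w.2] at this
    exact this
  have hfinJ : ∀ w : (J \ T : Finset ι), FiniteDimensional ℝ ↥(FF (Star b w.1) m ⊓ Ker c) :=
    fun w => hfin _ _
  have hr2 : ∑ j ∈ J \ T, Module.finrank ℝ ↥(FF (Star b j) m ⊓ Ker c)
      ≤ Module.finrank ℝ (LinearMap.ker Psi) := by
    have := LinearMap.finrank_le_finrank_of_injective hPhiinj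
    rw [Module.finrank_pi_fintype] at this
    refine le_trans (le_of_eq ?_) this
    exact (Finset.sum_coe_sort (J \ T)
      (fun j => Module.finrank ℝ ↥(FF (Star b j) m ⊓ Ker c))).symm
  omega


end

end Pool.Agent.S78
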