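import Pool.Agent.S78.Defs

/-!
# Growth of the spaces `WW`
-/

set_option autoImplicit false

open scoped BigOperators RealInnerProductSpace

namespace Pool.Agent.S78

noncomputable section

open Classical

open Pool.Agent.KST (E Fn supp Le IsCell Cells Verts Simple Pol pt PP Gen Star VF Low Sweep sgn EE X
  D FF Par Ker S hh LowF Inside)
open Pool.Agent.CTC (Xe uv StarS Meet Few GenC SepC Top ng Xe_apply Xe_comp Xe_Ker Xe_FF)

variable {ι : Type} [Fintype ι] {d : ℕ}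

/-! ### Pivots -/

private theorem R4_pivot {σ V : Type} [LinearOrder σ] [AddCommGroup V] [Module ℝ V]
    (G : Finset σ) (ev : V →ₗ[ℝ] (σ → ℝ)) (hinj : ∀ h : V, (∀ m ∈ G, ev h m = 0) → h = 0) :
    (G.filter (fun m => ∃ h : V, ev h m ≠ 0 ∧ ∀ m' ∈ G, m' < m → ev h m' = 0)).card =
      Module.finrank ℝ V ∧
    ∀ h : V, (∀ m ∈ G.filter (fun m => ∃ h : V, ev h m ≠ 0 ∧ ∀ m' ∈ G, m' < m → ev h m' = 0),
      ev h m = 0) → h = 0 := by
  set P := G.filter (fun m => ∃ h : V, ev h m ≠ 0 ∧ ∀ m' ∈ G, m' < m → ev h m' = 0) with hP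
  have hres : ∀ h : V, (∀ m ∈ P, ev h m = 0) → h = 0 := by
    intro h hh
    apply hinj
    by_contra hcon
    push Not at hcon
    obtain ⟨m1, hm1, hm2⟩ := hcon
    have hne : (G.filter (fun m => ev h m ≠ 0)).Nonempty := ⟨m1, Finset.mem_filter.2 ⟨hm1, hm2⟩⟩
    have hmem := Finset.min'_mem _ hne
    rw [Finset.mem_filter] at hmem
    refine hmem.2 (hh _ ?_)
    rw [hP, Finset.mem_filter]
    refine ⟨hmem.1, h, hmem.2, fun m' hm' hlt => ?_⟩
    by_contra hc
    exact absurd hlt (not_lt.2 (Finset.min'_le _ _ (Finset.mem_filter.2 ⟨hm', hc⟩)))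
  let r : V →ₗ[ℝ] ({m // m ∈ P} → ℝ) :=
    { toFun := fun h m => ev h m.1
      map_add' := by intro x y; funext m; simp
      map_smul' := by intro c x; funext m; simp }
  have hr : Function.Injective r := by
    rw [← LinearMap.ker_eq_bot, LinearMap.ker_eq_bot']
    intro h hh
    apply hres
    intro m hm
    exact congrFun hh ⟨m, hm⟩
  haveI : FiniteDimensional ℝ V := FiniteDimensional.of_injective r hr
  refine ⟨le_antisymm ?_ ?_, hres⟩
  · have hch : ∀ m : {m // m ∈ P}, ∃ h : V, ev h m.1 ≠ 0 ∧ ∀ m' ∈ G, m' < m.1 → ev h m' = 0 :=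
      fun m => (Finset.mem_filter.1 m.2).2
    choose v hv1 hv2 using hch
    have hli : LinearIndependent ℝ v := by
      rw [Fintype.linearIndependent_iff]
      intro g hg
      by_contra hcon
      push Not at hcon
      obtain ⟨i0, hi0⟩ := hcon
      have hne : (Finset.univ.filter (fun i : {m // m ∈ P} => g i ≠ 0)).Nonempty :=
        ⟨i0, Finset.mem_filter.2 ⟨Finset.mem_univ _, hi0⟩⟩
      have hmem := Finset.min'_mem _ hne
      set i1 := Finset.min' _ hne with hi1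
      rw [Finset.mem_filter] at hmem
      have h1 : ev (∑ i, g i • v i) i1.1 = 0 := by rw [hg]; simp
      rw [map_sum, Finset.sum_apply, Finset.sum_eq_single i1] at h1
      · rw [map_smul, Pi.smul_apply, smul_eq_mul] at h1
        rcases mul_eq_zero.1 h1 with h2 | h2
        · exact hmem.2 h2
        · exact hv1 i1 h2
      · intro i _ hne'
        rw [map_smul, Pi.smul_apply, smul_eq_mul]
        by_cases hgi : g i = 0
        · rw [hgi, zero_mul]
        · have hle : i1 ≤ i := Finset.min'_le (Finset.univ.filter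
              (fun i : {m // m ∈ P} => g i ≠ 0)) i (Finset.mem_filter.2 ⟨Finset.mem_univ _, hgi⟩)
          have hlt : i1 < i := lt_of_le_of_ne hle (Ne.symm hne')
          rw [hv2 i i1.1 (Finset.mem_filter.1 i1.2).1 hlt, mul_zero]
      · intro h2
        exact absurd (Finset.mem_univ _) h2
    have := hli.fintype_card_le_finrank
    rwa [Fintype.card_coe] at this
  · have := LinearMap.finrank_le_finrank_of_injective hr
    rwa [Module.finrank_fintype_fun_eq_card, Fintype.card_coe] at this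

/-! ### Vectors with the signs of the star -/

/-- the vector with signs `σ` and absolute values `m` -/
private def R4_emb (σ : ι → SignType) (m : ι → ℕ) : ι → ℤ :=
  fun l => ((σ l : SignType) : ℤ) * (m l : ℤ)

private theorem R4_L1 {C : Finset (ι → SignType)} {σ : ι → SignType}
    (hσ : ∀ s ∈ C, ∀ l, s l ≠ 0 → s l = σ l) {n : ℕ} {h : Fn ι} (hh : h ∈ FF C n) {e : ι → ℤ}
    (he : h e ≠ 0) : ∃ m : ι → ℕ, ∑ l, m l = n ∧ e = R4_emb σ m := by
  have h1 : e ∈ EE C n := by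
    by_contra hc
    exact he (hh e hc)
  unfold Pool.Agent.KST.EE at h1
  rw [Finset.mem_filter] at h1
  obtain ⟨-, h2, h3⟩ := h1
  refine ⟨fun l => (e l).natAbs, h2, ?_⟩
  funext l
  show e l = ((σ l : SignType) : ℤ) * ((e l).natAbs : ℤ)
  by_cases h0 : e l = 0
  · simp [h0]
  · have h4 : sgn e l ≠ 0 := by
      show SignType.sign (e l) ≠ 0
      rw [Ne, sign_eq_zero_iff]
      exact h0
    rw [← hσ _ h3 l h4]
    show e l = ((SignType.sign (e l) : SignType) : ℤ) * ((e l).natAbs : ℤ)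
    rcases lt_or_gt_of_ne h0 with h5 | h5
    · rw [sign_neg h5, SignType.coe_neg_one]
      omega
    · rw [sign_pos h5, SignType.coe_one]
      omega

private theorem R4_L5 {C : Finset (ι → SignType)} {σ : ι → SignType}
    (hσ : ∀ s ∈ C, ∀ l, s l ≠ 0 → s l = σ l) {n : ℕ} {h : Fn ι} (hh : h ∈ FF C n)
    (hz : ∀ m : ι → ℕ, ∑ l, m l = n → h (R4_emb σ m) = 0) : h = 0 := by
  funext e
  by_contra hc
  obtain ⟨m, hm, rfl⟩ := R4_L1 hσ hh hc
  exact hc (hz m hm)

private theorem R4_sq {s : SignType} (h : s ≠ 0) : ((s : SignType) : ℤ) * ((s : SignType) : ℤ) = 1 := by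
  revert h
  cases s <;> simp

private theorem R4_L2 {σ : ι → SignType} (hσ0 : ∀ l, σ l ≠ 0) (l : ι) (h : Fn ι) (m : ι → ℕ) :
    Xe (uv (l, σ l)) h (R4_emb σ m) = h (R4_emb σ (m + Pi.single l 1)) := by
  have hc : ∀ k, 0 ≤ uv (l, σ l) k * R4_emb σ m k := by
    intro k
    unfold uv R4_emb
    by_cases hk : k = l
    · subst hk
      rw [if_pos rfl, ← mul_assoc, R4_sq (hσ0 k), one_mul]
      positivity
    · rw [if_neg hk, zero_mul]
  rw [Xe_apply, if_pos hc]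
  congr 1
  funext k
  unfold uv R4_emb
  by_cases hk : k = l
  · subst hk
    simp only [Pi.add_apply, if_pos, Pi.single_eq_same]
    push_cast
    ring
  · simp [hk]

private theorem R4_uv_natAbs (a : ι × SignType) (ha : a.2 ≠ 0) : ∑ l, (uv a l).natAbs = 1 := by
  unfold uv
  rw [Finset.sum_eq_single a.1 (fun l _ hl => by rw [if_neg hl]; rfl)
    (fun h => absurd (Finset.mem_univ _) h), if_pos rfl]
  revert ha
  generalize a.2 = s
  cases s <;> simp

omit [Fintype ι] in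
private theorem R4_compat {σ : ι → SignType} (hσ0 : ∀ l, σ l ≠ 0) (l k : ι) :
    ∀ i, 0 ≤ uv (l, σ l) i * uv (k, σ k) i := by
  intro i
  unfold uv
  by_cases h1 : i = l
  · by_cases h2 : i = k
    · subst h1
      subst h2
      rw [if_pos rfl, R4_sq (hσ0 i)]
      exact zero_le_one
    · rw [if_neg h2, mul_zero]
  · rw [if_neg h1, zero_mul]

private theorem R4_comm {σ : ι → SignType} (hσ0 : ∀ l, σ l ≠ 0) (l k : ι) (h : Fn ι) :
    Xe (uv (l, σ l)) (Xe (uv (k, σ k)) h) = Xe (uv (k, σ k)) (Xe (uv (l, σ l)) h) := by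
  rw [Xe_comp _ _ (R4_compat hσ0 l k), Xe_comp _ _ (R4_compat hσ0 k l), add_comm]

private theorem R4_down {b : ι → E d} (hS : Simple b) (j : ι) :
    ∀ s t, t ∈ Star b j → Le s t → s ∈ Star b j := by
  intro s t ht hst
  unfold Pool.Agent.KST.Star at ht ⊢
  rw [Finset.mem_filter] at ht ⊢
  obtain ⟨h1, u, h2, h3, h4⟩ := ht
  refine ⟨Pool.Agent.KST.cells_down hS h1 hst, u, h2, ?_, h4⟩
  intro l hl
  have h5 := hst l hl
  rw [← h5]
  exact h3 l (by rw [h5]; exact hl)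

private theorem R4_L3 {b c : ι → E d} (hS : Simple b) {j : ι} {σ : ι → SignType}
    (hσ0 : ∀ l, σ l ≠ 0) (hσj : σ j = 1) (l : ι) {q : ℕ} {h : Fn ι} (hh : h ∈ WW b c j (q + 1)) :
    Xe (uv (l, σ l)) h ∈ WW b c j q := by
  obtain ⟨⟨h1, h2⟩, h3⟩ := hh
  refine ⟨⟨Xe_FF (R4_down hS j) _ (R4_uv_natAbs (l, σ l) (hσ0 l)) h1, Xe_Ker _ h2⟩, ?_⟩
  have h4 : Xe (uv (j, 1)) h = 0 := h3
  show Xe (uv (j, 1)) (Xe (uv (l, σ l)) h) = 0
  have h5 := R4_comm hσ0 j l h
  rw [hσj, h4, map_zero] at h5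
  exact h5

private theorem R4_dec {κ : Type} [DecidableEq κ] {m : κ → ℕ} {l : κ} (h : m l ≠ 0) :
    ∃ m' : κ → ℕ, m = m' + Pi.single l 1 := by
  refine ⟨Function.update m l (m l - 1), ?_⟩
  funext k
  by_cases hk : k = l
  · subst hk
    rw [Pi.add_apply, Function.update_self, Pi.single_eq_same]
    omega
  · rw [Pi.add_apply, Function.update_of_ne hk, Pi.single_eq_of_ne hk, add_zero]

private theorem R4_sum_single {κ : Type} [Fintype κ] [DecidableEq κ] (m : κ → ℕ) (i : κ) :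
    ∑ k, (m + Pi.single i 1 : κ → ℕ) k = ∑ k, m k + 1 := by
  simp only [Pi.add_apply, Finset.sum_add_distrib]
  rw [Finset.sum_pi_single']
  simp

private theorem R4_zero {κ : Type} [Fintype κ] {m : κ → ℕ} (h : ∑ k, m k = 0) : m = 0 := by
  funext k
  exact (Finset.sum_eq_zero_iff.1 h) k (Finset.mem_univ k)

/-- (a) separating points -/
private theorem R4_sep {b c : ι → E d} {j : ι} {σ : ι → SignType}
    (hσ : ∀ s ∈ Star b j, ∀ l, s l ≠ 0 → s l = σ l) :
    ∃ U : Fin (Module.finrank ℝ ↥(WW b c j 1)) → ι, ∀ h ∈ WW b c j 1,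
      (∀ i, h (R4_emb σ (Pi.single (U i) 1)) = 0) → h = 0 := by
  set e := Fintype.equivFin ι with he
  let ev : ↥(WW b c j 1) →ₗ[ℝ] (Fin (Fintype.card ι) → ℝ) :=
    { toFun := fun h k => h.1 (R4_emb σ (Pi.single (e.symm k) 1))
      map_add' := by intro x y; rfl
      map_smul' := by intro r x; rfl }
  have hinj : ∀ h : ↥(WW b c j 1), (∀ m ∈ Finset.univ, ev h m = 0) → h = 0 := by
    intro h hh
    apply Subtype.ext
    refine R4_L5 hσ h.2.1.1 fun m hm => ?_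
    have hne : ∃ l, m l ≠ 0 := by
      by_contra hcon
      push Not at hcon
      rw [Finset.sum_eq_zero fun l _ => hcon l] at hm
      omega
    obtain ⟨l, hl⟩ := hne
    obtain ⟨m', rfl⟩ := R4_dec hl
    rw [R4_sum_single] at hm
    have h0 : m' = 0 := R4_zero (by omega)
    subst h0
    have h1 := hh (e l) (Finset.mem_univ _)
    rw [zero_add]
    have h2 : ev h (e l) = h.1 (R4_emb σ (Pi.single (e.symm (e l)) 1)) := rfl
    rw [h2, Equiv.symm_apply_apply] at h1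
    exact h1
  obtain ⟨hcard, hres⟩ := R4_pivot Finset.univ ev hinj
  set P := Finset.univ.filter (fun m => ∃ h : ↥(WW b c j 1), ev h m ≠ 0 ∧
    ∀ m' ∈ Finset.univ, m' < m → ev h m' = 0) with hP
  refine ⟨fun i => e.symm (P.orderEmbOfFin hcard i), fun h hh hz => ?_⟩
  have h1 : (⟨h, hh⟩ : ↥(WW b c j 1)) = 0 := by
    apply hres
    intro m hm
    have h2 : m ∈ Set.range (P.orderEmbOfFin hcard) := by
      rw [Finset.range_orderEmbOfFin]
      exact hm
    obtain ⟨i, rfl⟩ := h2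
    exact hz i
  exact congrArg Subtype.val h1

/-- (b) -/
private theorem R4_b {b c : ι → E d} (hS : Simple b) {j : ι} {σ : ι → SignType}
    (hσ0 : ∀ l, σ l ≠ 0) (hσj : σ j = 1)
    (hσ : ∀ s ∈ Star b j, ∀ l, s l ≠ 0 → s l = σ l) {g : ℕ} {U : Fin g → ι}
    (hU : ∀ h ∈ WW b c j 1, (∀ i, h (R4_emb σ (Pi.single (U i) 1)) = 0) → h = 0) (q : ℕ) :
    ∀ h ∈ WW b c j (q + 1), (∀ i, Xe (uv (U i, σ (U i))) h = 0) → h = 0 := by
  induction q with
  | zero =>
    intro h hh hz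
    apply hU h hh
    intro i
    have h1 := R4_L2 hσ0 (U i) h 0
    rw [hz i, zero_add] at h1
    exact h1.symm
  | succ q ih =>
    intro h hh hz
    refine R4_L5 hσ hh.1.1 fun m hm => ?_
    have hne : ∃ l, m l ≠ 0 := by
      by_contra hcon
      push Not at hcon
      rw [Finset.sum_eq_zero fun l _ => hcon l] at hm
      omega
    obtain ⟨l, hl⟩ := hne
    obtain ⟨m', rfl⟩ := R4_dec hl
    have h1 : Xe (uv (l, σ l)) h = 0 := by
      apply ih _ (R4_L3 hS hσ0 hσj l hh)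
      intro i
      rw [R4_comm hσ0, hz i, map_zero]
    have h2 := R4_L2 hσ0 l h m'
    rw [h1] at h2
    exact h2.symm

/-- the exponent vector of a monomial in the separating variables -/
private def R4_mm {g : ℕ} (U : Fin g → ι) (m : Fin g → ℕ) : ι → ℕ :=
  ∑ i, m i • (Pi.single (U i) 1 : ι → ℕ)

omit [Fintype ι] in
private theorem R4_mm_add {g : ℕ} (U : Fin g → ι) (m : Fin g → ℕ) (i : Fin g) :
    R4_mm U (m + Pi.single i 1) = R4_mm U m + Pi.single (U i) 1 := by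
  unfold R4_mm
  simp only [Pi.add_apply, add_smul, Finset.sum_add_distrib]
  congr 1
  rw [Finset.sum_eq_single i]
  · rw [Pi.single_eq_same, one_smul]
  · intro k _ hk
    rw [Pi.single_eq_of_ne hk, zero_smul]
  · intro h
    exact absurd (Finset.mem_univ _) h

/-- (c) -/
private theorem R4_c {b c : ι → E d} (hS : Simple b) {j : ι} {σ : ι → SignType}
    (hσ0 : ∀ l, σ l ≠ 0) (hσj : σ j = 1)
    (hσ : ∀ s ∈ Star b j, ∀ l, s l ≠ 0 → s l = σ l) {g : ℕ} {U : Fin g → ι}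
    (hU : ∀ h ∈ WW b c j 1, (∀ i, h (R4_emb σ (Pi.single (U i) 1)) = 0) → h = 0) (q : ℕ) :
    ∀ h ∈ WW b c j q, (∀ m : Fin g → ℕ, ∑ i, m i = q → h (R4_emb σ (R4_mm U m)) = 0) →
      h = 0 := by
  induction q with
  | zero =>
    intro h hh hz
    refine R4_L5 hσ hh.1.1 fun m hm => ?_
    rw [R4_zero hm]
    have h1 := hz 0 (by simp)
    have h2 : R4_mm U (0 : Fin g → ℕ) = 0 := by
      unfold R4_mm
      simp
    rwa [h2] at h1
  | succ q ih =>
    intro h hh hz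
    apply R4_b hS hσ0 hσj hσ hU q h hh
    intro i
    apply ih _ (R4_L3 hS hσ0 hσj (U i) hh)
    intro m hm
    rw [R4_L2 hσ0, ← R4_mm_add]
    apply hz
    rw [R4_sum_single, hm]

/-- the monomials of degree `t` -/
private def R4_Mon (N t : ℕ) : Finset (Lex (Fin N → ℕ)) :=
  (Finset.piAntidiag (Finset.univ : Finset (Fin N)) t).image toLex

private theorem R4_mem_Mon {N t : ℕ} (m : Lex (Fin N → ℕ)) :
    m ∈ R4_Mon N t ↔ ∑ i, (ofLex m) i = t := by
  unfold R4_Mon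
  rw [Finset.mem_image]
  constructor
  · rintro ⟨a, ha, rfl⟩
    exact (Finset.mem_piAntidiag.mp ha).1
  · intro h
    exact ⟨ofLex m, Finset.mem_piAntidiag.mpr ⟨h, fun i _ => Finset.mem_univ i⟩, rfl⟩

/-- the pivot monomials -/
private def R4_B (b c : ι → E d) (j : ι) (σ : ι → SignType) {g : ℕ} (U : Fin g → ι) (q : ℕ) :
    Finset (Lex (Fin g → ℕ)) :=
  (R4_Mon g q).filter (fun m => ∃ h : ↥(WW b c j q), h.1 (R4_emb σ (R4_mm U (ofLex m))) ≠ 0 ∧
    ∀ m' ∈ R4_Mon g q, m' < m → h.1 (R4_emb σ (R4_mm U (ofLex m'))) = 0)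

private theorem R4_card {b c : ι → E d} (hS : Simple b) {j : ι} {σ : ι → SignType}
    (hσ0 : ∀ l, σ l ≠ 0) (hσj : σ j = 1)
    (hσ : ∀ s ∈ Star b j, ∀ l, s l ≠ 0 → s l = σ l) {g : ℕ} {U : Fin g → ι}
    (hU : ∀ h ∈ WW b c j 1, (∀ i, h (R4_emb σ (Pi.single (U i) 1)) = 0) → h = 0) (q : ℕ) :
    (R4_B b c j σ U q).card = Module.finrank ℝ ↥(WW b c j q) := by
  let ev : ↥(WW b c j q) →ₗ[ℝ] (Lex (Fin g → ℕ) → ℝ) :=
    { toFun := fun h m => h.1 (R4_emb σ (R4_mm U (ofLex m)))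
      map_add' := by intro x y; rfl
      map_smul' := by intro r x; rfl }
  have hinj : ∀ h : ↥(WW b c j q), (∀ m ∈ R4_Mon g q, ev h m = 0) → h = 0 := by
    intro h hh
    apply Subtype.ext
    apply R4_c hS hσ0 hσj hσ hU q h.1 h.2
    intro m hm
    exact hh (toLex m) ((R4_mem_Mon _).2 hm)
  exact (R4_pivot (R4_Mon g q) ev hinj).1

private theorem R4_shadow {b c : ι → E d} (hS : Simple b) {j : ι} {σ : ι → SignType}
    (hσ0 : ∀ l, σ l ≠ 0) (hσj : σ j = 1) {g : ℕ} (U : Fin g → ι) {q : ℕ}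
    {m : Lex (Fin g → ℕ)} (hm : m ∈ R4_B b c j σ U (q + 1)) {i : Fin g}
    (hi : (ofLex m) i ≠ 0) :
    ∃ m' ∈ R4_B b c j σ U q, m' + toLex (Pi.single i 1) = m := by
  obtain ⟨n, hn⟩ := R4_dec hi
  refine ⟨toLex n, ?_, ?_⟩
  · unfold R4_B at hm ⊢
    rw [Finset.mem_filter] at hm ⊢
    obtain ⟨h1, h, h2, h3⟩ := hm
    rw [R4_mem_Mon, hn, R4_sum_single] at h1
    refine ⟨?_, ⟨Xe (uv (U i, σ (U i))) h.1, R4_L3 hS hσ0 hσj (U i) h.2⟩, ?_, ?_⟩
    · rw [R4_mem_Mon]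
      show ∑ k, n k = q
      omega
    · show Xe (uv (U i, σ (U i))) h.1 (R4_emb σ (R4_mm U n)) ≠ 0
      rw [R4_L2 hσ0, ← R4_mm_add, ← hn]
      exact h2
    · intro m' hm' hlt
      show Xe (uv (U i, σ (U i))) h.1 (R4_emb σ (R4_mm U (ofLex m'))) = 0
      rw [R4_L2 hσ0, ← R4_mm_add]
      refine h3 (m' + toLex (Pi.single i 1)) ?_ ?_
      · rw [R4_mem_Mon] at hm' ⊢
        show ∑ k, (ofLex m' + Pi.single i 1 : Fin g → ℕ) k = q + 1
        rw [R4_sum_single, hm']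
      · have hme : m = toLex n + toLex (Pi.single i 1) := hn
        rw [hme]
        exact add_lt_add_left hlt _
  · exact hn.symm

/-- ROW R4 (file S78/Ratio.lean): growth of the spaces `WW` -/
theorem ww_ratio {b c : ι → E d} (hS : Simple b) {j : ι}
    (hopp : ∀ s ∈ Cells b, ∀ t ∈ Cells b, s j = 1 → t j = 1 → ∀ l, s l ≠ 0 → t l ≠ 0 →
      s l = t l) {q : ℕ} (hq : 1 ≤ q) :
    (q + 1) * Module.finrank ℝ ↥(WW b c j (q + 1)) ≤
      (Module.finrank ℝ ↥(WW b c j 1) + q) * Module.finrank ℝ ↥(WW b c j q) := by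
  -- the signs
  obtain ⟨σ, hσ0, hσj, hσ⟩ : ∃ σ : ι → SignType, (∀ l, σ l ≠ 0) ∧ σ j = 1 ∧
      ∀ s ∈ Star b j, ∀ l, s l ≠ 0 → s l = σ l := by
    have hch : ∀ l, ∃ x : SignType, x ≠ 0 ∧ (l = j → x = 1) ∧
        ∀ t ∈ Cells b, t j = 1 → t l ≠ 0 → t l = x := by
      intro l
      by_cases h : ∃ t ∈ Cells b, t j = 1 ∧ t l ≠ 0
      · obtain ⟨t, ht1, ht2, ht3⟩ := h
        exact ⟨t l, ht3, fun hl => by rw [hl]; exact ht2,
          fun s hs1 hs2 hs3 => hopp s hs1 t ht1 hs2 ht2 l hs3 ht3⟩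
      · exact ⟨1, by decide, fun _ => rfl, fun s hs1 hs2 hs3 => absurd ⟨s, hs1, hs2, hs3⟩ h⟩
    choose σ h1 h2 h3 using hch
    refine ⟨σ, h1, h2 j rfl, fun s hs l hl => ?_⟩
    unfold Pool.Agent.KST.Star at hs
    rw [Finset.mem_filter] at hs
    obtain ⟨-, t, ht1, ht2, ht3⟩ := hs
    have h4 := ht2 l hl
    rw [← h4]
    exact h3 l t ht1 ht3 (by rw [h4]; exact hl)
  obtain ⟨g, hg, U, hU⟩ : ∃ g : ℕ, Module.finrank ℝ ↥(WW b c j 1) = g ∧ ∃ U : Fin g → ι,
      ∀ h ∈ WW b c j 1, (∀ i, h (R4_emb σ (Pi.single (U i) 1)) = 0) → h = 0 :=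
    ⟨_, rfl, R4_sep (c := c) hσ⟩
  rw [← R4_card hS hσ0 hσj hσ hU (q + 1), ← R4_card hS hσ0 hσj hσ hU q, hg]
  have hL : (q + 1) * (R4_B b c j σ U (q + 1)).card =
      ∑ m ∈ R4_B b c j σ U (q + 1), ∑ i, (ofLex m) i := by
    have h1 : ∀ m ∈ R4_B b c j σ U (q + 1), ∑ i, (ofLex m) i = q + 1 :=
      fun m hm => (R4_mem_Mon m).1 (Finset.mem_filter.1 hm).1
    rw [Finset.sum_congr rfl h1, Finset.sum_const, smul_eq_mul, mul_comm]
  have hR : (g + q) * (R4_B b c j σ U q).card =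
      ∑ m ∈ R4_B b c j σ U q, ∑ i, ((ofLex m) i + 1) := by
    have h1 : ∀ m ∈ R4_B b c j σ U q, ∑ i, ((ofLex m) i + 1) = g + q := by
      intro m hm
      rw [Finset.sum_add_distrib, (R4_mem_Mon m).1 (Finset.mem_filter.1 hm).1]
      simp [add_comm]
    rw [Finset.sum_congr rfl h1, Finset.sum_const, smul_eq_mul, mul_comm]
  rw [hL, hR, Finset.sum_comm, Finset.sum_comm (s := R4_B b c j σ U q)]
  refine Finset.sum_le_sum fun i _ => ?_
  have hinjadd : Set.InjOn (fun m : Lex (Fin g → ℕ) => m + toLex (Pi.single i 1))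
      (R4_B b c j σ U q : Set (Lex (Fin g → ℕ))) := fun x _ y _ hxy => add_right_cancel hxy
  have h1 : ∑ m ∈ R4_B b c j σ U q, ((ofLex m) i + 1) =
      ∑ m ∈ (R4_B b c j σ U q).image (fun m => m + toLex (Pi.single i 1)), (ofLex m) i := by
    rw [Finset.sum_image hinjadd]
    refine Finset.sum_congr rfl fun m _ => ?_
    show (ofLex m) i + 1 = (ofLex m + Pi.single i 1 : Fin g → ℕ) i
    rw [Pi.add_apply, Pi.single_eq_same]
  rw [h1, ← Finset.sum_filter_ne_zero]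
  refine Finset.sum_le_sum_of_subset fun m hm => ?_
  rw [Finset.mem_filter] at hm
  obtain ⟨m', hm', he⟩ := R4_shadow hS hσ0 hσj U hm.1 hm.2
  exact Finset.mem_image.2 ⟨m', hm', he⟩

end

end Pool.Agent.S78
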