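import Pool.Agent.WLP.DataB
import Pool.Agent.S78.Ind
import Pool.Agent.S78.Key
import Pool.Agent.S78.Ratio
import Pool.Agent.S78.Dim

/-!
# The numbers of the proof, dimensions at least seven
-/

set_option autoImplicit false

open scoped BigOperators RealInnerProductSpace

namespace Pool.Agent.S78

noncomputable section

open Classical

open Pool.Agent.KST (E IsCell Cells Verts Simple Pol pt PP Gen Star VF Low LowF Inside hh Fn FF Ker
  Par Le sgn)
open Pool.Agent.CTC (Xe uv StarS Meet Few GenC SepC Top ng)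
open WLP

private theorem dd_sq {α : Type*} (J : Finset α) (x y : α → ℤ) (hx : ∀ j ∈ J, 0 ≤ x j)
    (hy : ∀ j ∈ J, 2 * y j ≤ x j * (x j + 1)) :
    2 * ∑ j ∈ J, y j ≤ (∑ j ∈ J, x j) * (∑ j ∈ J, x j + 1) := by
  induction J using Finset.induction_on with
  | empty => simp
  | insert j J hj ih =>
    rw [Finset.sum_insert hj, Finset.sum_insert hj]
    have h1 := ih (fun k hk => hx k (Finset.mem_insert_of_mem hk))
      (fun k hk => hy k (Finset.mem_insert_of_mem hk))
    have h2 := hy j (Finset.mem_insert_self j J)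
    have h3 := hx j (Finset.mem_insert_self j J)
    have h4 : 0 ≤ ∑ j ∈ J, x j := Finset.sum_nonneg (fun k hk => hx k (Finset.mem_insert_of_mem hk))
    have h5 := mul_nonneg h3 h4
    nlinarith

/-- the numbers -/
theorem dataD {ι : Type} [Fintype ι] {d : ℕ} (hd : 6 ≤ d) {b : ι → E (d + 1)} (hS : Simple b)
    (hb : Bornology.IsBounded (Pol b)) {J : Finset ι} (hJC : SepC b J)
    (hdgJ : ∀ j ∈ J, (∃ t ∈ Cells b, t j = 1) → d + 2 ≤ WLP.dg b j) :
    ∃ k H : ℕ → ℤ, WLP.Data b J k H ∧ 0 ≤ H 2 - H 1 ∧ 0 ≤ H 3 - H 2 ∧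
      H 1 - H 0 ≤ H 0 * (k 1 - H 0) ∧
      H 2 - H 1 ≤ (H 0 + 1) / 2 * (k 2 - H 1) ∧
      H 3 - H 2 ≤ (H 0 + 3) / 4 * (k 3 - H 2) ∧
      2 * (H 2 - H 1 - H 0) ≤ (k 1 - H 0 + 2) * (H 1 - H 0 - H 0) ∧
      3 * (H 3 - H 2) ≤ (k 1 - H 0 + 2) * (H 2 - H 1) := by
  have hJ : SepB b J := hJC.toSepB
  obtain ⟨c, hc⟩ := exists_generic ι (d + 1)
  obtain ⟨a, ha, -⟩ := Pool.Agent.KST.exists_gen_near hS (0 : E (d + 1)) one_pos
  choose A hA using fun j => Pool.Agent.KST.exists_low hS j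
  have hsw := Pool.Agent.KST.sweep_cells hS hb ha
  have hmin : ∀ n, 2 * Module.finrank ℝ ↥(FF (Cells b) n ⊓ Ker c ⊓ Par ι (-1)) +
      (d + 1).choose n = hh (Verts b) (PP b a) n := fun n =>
    Pool.Agent.KST.finrank_minus (sweep_change c hc hsw)
      (fun s hs => Pool.Agent.KST.neg_mem_cells hs) n
  have hminb : ∀ n, 2 * Module.finrank ℝ ↥(FF (Cells b) n ⊓ Ker b ⊓ Par ι (-1)) +
      (d + 1).choose n = hh (Verts b) (PP b a) n := fun n =>
    Pool.Agent.KST.finrank_minus hsw (fun s hs => Pool.Agent.KST.neg_mem_cells hs) n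
  set κ : ℕ → ℤ := fun n => (Module.finrank ℝ ↥(FF (Cells b) n ⊓ Ker c ⊓ Par ι (-1)) : ℤ) with hκ
  set H : ℕ → ℤ := fun n => ∑ j ∈ J, (hh (VF b j) (PP b (A j)) n : ℤ) with hH
  have hmin' : ∀ n, (hh (Verts b) (PP b a) n : ℤ) = 2 * κ n + ((d + 1).choose n : ℤ) := by
    intro n
    rw [← hmin n]
    push_cast
    rfl
  -- nonempty facets
  have hVFne : ∀ j, (∃ t ∈ Cells b, t j = 1) ↔ (VF b j).Nonempty := by
    intro j
    constructor
    · intro h
      obtain ⟨v, hv, -⟩ := (Pool.Agent.KST.sweep_star hS hb (hA j).1 (hA j).2 h).ex 0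
        (Pool.Agent.KST.sweep_star hS hb (hA j).1 (hA j).2 h).zero
      exact ⟨v, hv⟩
    · rintro ⟨v, hv⟩
      unfold VF Verts at hv
      rw [Finset.mem_filter, Finset.mem_filter] at hv
      exact ⟨v, hv.1.1, hv.2⟩
  have hlink : ∀ j ∈ J, ∃ S : Swp ι d,
      (∀ n, (S.V.filter (fun v => (S.P v).card = n)).card = hh (VF b j) (PP b (A j)) n) ∧
      ((VF b j).Nonempty → S.V.Nonempty) := fun j hj =>
    mb_link hS hb (hA j).1 (hA j).2 (hJ.opp j hj)
  have hHsym : ∀ j ∈ J, ∀ n ≤ d, hh (VF b j) (PP b (A j)) (d - n) =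
      hh (VF b j) (PP b (A j)) n := by
    intro j hj n hn
    obtain ⟨S, hSn, -⟩ := hlink j hj
    rw [← hSn, ← hSn, hsym S n hn]
  have hHpos : ∀ j ∈ J, (VF b j).Nonempty → ∀ n ≤ d, 1 ≤ hh (VF b j) (PP b (A j)) n := by
    intro j hj hne n hn
    obtain ⟨S, hSn, hS2⟩ := hlink j hj
    rw [← hSn]
    exact hpos S (hS2 hne) n hn
  have hHempty : ∀ j, ¬ (VF b j).Nonempty → ∀ n, hh (VF b j) (PP b (A j)) n = 0 := by
    intro j hne n
    rw [Finset.not_nonempty_iff_eq_empty] at hne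
    unfold hh
    rw [hne]
    rfl
  have hH0n : ∀ j ∈ J, (∃ t ∈ Cells b, t j = 1) → hh (VF b j) (PP b (A j)) 0 = 1 := by
    intro j hj h
    have h1 := hHpos j hj ((hVFne j).1 h) 0 (Nat.zero_le _)
    have h2 := Pool.Agent.KST.hh_zero_le hS hb (hA j).1 (hA j).2
    exact le_antisymm h2 h1
  have hH0 : ∀ j ∈ J, (hh (VF b j) (PP b (A j)) 0 : ℤ) =
      if (∃ t ∈ Cells b, t j = 1) then 1 else 0 := by
    intro j hj
    by_cases h : ∃ t ∈ Cells b, t j = 1
    · rw [if_pos h, hH0n j hj h]; rfl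
    · rw [if_neg h, hHempty j (fun h' => h ((hVFne j).2 h'))]
      rfl
  have hr : ((J.filter (fun j => ∃ t ∈ Cells b, t j = 1)).card : ℤ) = H 0 := by
    rw [hH]
    simp only
    rw [Finset.sum_congr rfl hH0, Finset.sum_boole]
  have hk0 : κ 0 = 0 := by
    have h1 : hh (Verts b) (PP b a) 0 ≤ 1 := by
      unfold hh
      rw [Finset.card_le_one]
      intro v hv w hw
      rw [Finset.mem_filter, Finset.card_eq_zero] at hv hw
      refine hsw.uniq 0 hsw.zero v hv.1 w hw.1 ?_ ?_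
      · refine ⟨fun l hl => absurd rfl hl, ?_⟩
        intro l hl
        rw [hv.2] at hl
        exact absurd hl (Finset.notMem_empty _)
      · refine ⟨fun l hl => absurd rfl hl, ?_⟩
        intro l hl
        rw [hw.2] at hl
        exact absurd hl (Finset.notMem_empty _)
    have h2 := hmin 0
    rw [Nat.choose_zero_right] at h2
    have h3 : Module.finrank ℝ ↥(FF (Cells b) 0 ⊓ Ker c ⊓ Par ι (-1)) = 0 := by omega
    rw [hκ]
    simp only
    rw [h3]; rfl
  have hk : ∀ n ≤ d + 1, κ (d + 1 - n) = κ n := by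
    intro n hn
    have h1 := Pool.Agent.KST.hh_symm hS hb ha hn
    have h2 := hmin' n
    have h3 := hmin' (d + 1 - n)
    rw [Nat.choose_symm hn] at h3
    rw [← h1, h2] at h3
    linarith
  have hHs : ∀ n < d + 1, H (d + 1 - 1 - n) = H n := by
    intro n hn
    rw [hH]
    simp only
    apply Finset.sum_congr rfl
    intro j hj
    rw [Nat.add_sub_cancel, hHsym j hj n (by omega)]
  have h1 : ∀ n < d + 1, H 0 ≤ H n := by
    intro n hn
    rw [hH]
    simp only
    apply Finset.sum_le_sum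
    intro j hj
    rw [hH0 j hj]
    by_cases h : ∃ t ∈ Cells b, t j = 1
    · rw [if_pos h]
      exact_mod_cast hHpos j hj ((hVFne j).1 h) n (by omega)
    · rw [if_neg h]
      positivity
  have h0 : 0 ≤ H 0 := by
    rw [hH]
    positivity
  have hle : ∀ n, d + 1 ≤ 2 * n → n < d + 1 → H n ≤ κ n := by
    intro n hn hn'
    have h2 := star_le hS hb hJ hc hn (by omega : n ≤ d)
    have h3 : ∑ j ∈ J, hh (VF b j) (PP b (A j)) n ≤
        ∑ j ∈ J, Module.finrank ℝ ↥(FF (Star b j) n ⊓ Ker c) := by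
      apply Finset.sum_le_sum
      intro j _
      by_cases h : ∃ t ∈ Cells b, t j = 1
      · rw [Pool.Agent.KST.finrank_ker (sweep_change c hc
          (Pool.Agent.KST.sweep_star hS hb (hA j).1 (hA j).2 h)) n]
      · rw [hHempty j (fun h' => h ((hVFne j).2 h'))]
        exact Nat.zero_le _
    have h4 := le_trans h3 h2
    rw [hH, hκ]
    simp only
    exact_mod_cast h4
  have hc1 : ((Cells b).card : ℤ) =
      3 ^ (d + 1) + 2 * ∑ n ∈ Finset.range (d + 1 + 1), 2 ^ n * κ n := by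
    rw [Pool.Agent.KST.card_cells hS hb ha]
    push_cast
    rw [← mb_fiber (Verts b) (fun v => (PP b a v).card) (d + 1 + 1)
      (fun v hv => Nat.lt_succ_of_le (mb_supp_card hv)) (fun n => (2 : ℤ) ^ n)]
    have h2 : ∀ n ∈ Finset.range (d + 1 + 1), (2 : ℤ) ^ n *
        (((Verts b).filter (fun v => (PP b a v).card = n)).card : ℤ) =
        (2 : ℤ) ^ n * ((d + 1).choose n : ℤ) + 2 * (2 ^ n * κ n) := by
      intro n _
      have h3 := hmin' n
      unfold hh at h3
      rw [h3]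
      ring
    rw [Finset.sum_congr rfl h2, Finset.sum_add_distrib, ← Finset.mul_sum]
    congr 1
    have h4 := add_pow (2 : ℤ) 1 (d + 1)
    simp only [one_pow, mul_one] at h4
    rw [← h4]
    norm_num
  have hc2 : ((Verts b).card : ℤ) =
      2 ^ (d + 1) + 2 * ∑ n ∈ Finset.range (d + 1 + 1), κ n := by
    have h2 := mb_fiber (Verts b) (fun v => (PP b a v).card) (d + 1 + 1)
      (fun v hv => Nat.lt_succ_of_le (mb_supp_card hv)) (fun _ => (1 : ℤ))
    simp only [one_mul, Finset.sum_const, nsmul_eq_mul, mul_one] at h2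
    rw [← h2]
    have h3 : ∀ n ∈ Finset.range (d + 1 + 1),
        (((Verts b).filter (fun v => (PP b a v).card = n)).card : ℤ) =
        ((d + 1).choose n : ℤ) + 2 * κ n := by
      intro n _
      have h3 := hmin' n
      unfold hh at h3
      rw [h3]
      ring
    rw [Finset.sum_congr rfl h3, Finset.sum_add_distrib, ← Finset.mul_sum]
    congr 1
    exact_mod_cast Nat.sum_range_choose (d + 1)
  have hc3 : ∑ j ∈ J, (((Cells b).filter (fun s => s j = 1)).card : ℤ) =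
      ∑ n ∈ Finset.range (d + 1), 2 ^ n * H n := by
    rw [hH]
    simp only
    simp_rw [Finset.mul_sum]
    rw [Finset.sum_comm]
    apply Finset.sum_congr rfl
    intro j _
    rw [Pool.Agent.KST.card_facet hS hb (hA j).1 (hA j).2]
    push_cast
    rw [← mb_fiber (VF b j) (fun v => (PP b (A j) v).card) (d + 1)
      (fun v hv => Nat.lt_succ_of_le (mb_supp_card' hS hb (hA j).1 (hA j).2 hv))
      (fun n => (2 : ℤ) ^ n)]
    rfl
  have hc4 : ∑ j ∈ J, ((VF b j).card : ℤ) = ∑ n ∈ Finset.range (d + 1), H n := by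
    rw [hH]
    simp only
    rw [Finset.sum_comm]
    apply Finset.sum_congr rfl
    intro j _
    have h2 := mb_fiber (VF b j) (fun v => (PP b (A j) v).card) (d + 1)
      (fun v hv => Nat.lt_succ_of_le (mb_supp_card' hS hb (hA j).1 (hA j).2 hv))
      (fun _ => (1 : ℤ))
    simp only [one_mul, Finset.sum_const, nsmul_eq_mul, mul_one] at h2
    rw [← h2]
    rfl
  have hc5 : ((Verts b).card : ℤ) =
      (((Verts b).filter (fun v => ∀ j ∈ J, v j = 0)).card : ℤ) +
        2 * ∑ j ∈ J, ((VF b j).card : ℤ) := by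
    have h2 := mb_verts hJ
    exact_mod_cast h2
  -- the first numbers of the facets
  have hdg : ∀ j, (∃ t ∈ Cells b, t j = 1) →
      (Finset.univ.filter (fun l => ∃ t ∈ Cells b, t j = 1 ∧ t l ≠ 0)).card = dg b j + 1 := by
    rintro j ⟨t, ht, htj⟩
    have h2 : Finset.univ.filter (fun l => ∃ t ∈ Cells b, t j = 1 ∧ t l ≠ 0) =
        insert j (Finset.univ.filter (fun l => l ≠ j ∧ ∃ t ∈ Cells b, t j = 1 ∧ t l ≠ 0)) := by
      ext l
      rw [Finset.mem_insert, Finset.mem_filter, Finset.mem_filter]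
      constructor
      · rintro ⟨h3, h4⟩
        by_cases h5 : l = j
        · left; exact h5
        · right; exact ⟨h3, h5, h4⟩
      · rintro (h3 | ⟨h3, -, h5⟩)
        · subst h3
          exact ⟨Finset.mem_univ _, t, ht, htj, by rw [htj]; decide⟩
        · exact ⟨h3, h5⟩
    rw [h2, Finset.card_insert_of_notMem]
    · rfl
    · intro h3
      exact (Finset.mem_filter.1 h3).2.1 rfl
  have hfirst : ∀ j ∈ J, (∃ t ∈ Cells b, t j = 1) →
      (hh (VF b j) (PP b (A j)) 1 : ℤ) - 1 = (dg b j : ℤ) - (d + 1) ∧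
      2 * hh (VF b j) (PP b (A j)) 2 ≤ hh (VF b j) (PP b (A j)) 1 *
        (hh (VF b j) (PP b (A j)) 1 + 1) := by
    intro j hj h
    obtain ⟨h2, h3⟩ := db_facet hS hb (hA j).1 (hA j).2 h (hJ.opp j hj)
    have h4 := hH0n j hj h
    refine ⟨?_, h3 h4⟩
    rw [hdg j h, h4] at h2
    have h5 : (hh (VF b j) (PP b (A j)) 1 : ℤ) + (d + 1) * 1 = dg b j + 1 := by
      exact_mod_cast h2
    linarith
  have hdeg : H 1 - H 0 = ∑ j ∈ J.filter (fun j => ∃ t ∈ Cells b, t j = 1),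
      ((dg b j : ℤ) - (d + 1)) := by
    rw [Finset.sum_filter, hH]
    simp only
    rw [← Finset.sum_sub_distrib]
    apply Finset.sum_congr rfl
    intro j hj
    rw [hH0 j hj]
    by_cases h : ∃ t ∈ Cells b, t j = 1
    · rw [if_pos h, if_pos h]
      exact (hfirst j hj h).1
    · rw [if_neg h, if_neg h, hHempty j (fun h' => h ((hVFne j).2 h'))]
      rfl
  have htwo : 1 ≤ d → 2 * (H 2 - H 1) ≤ (H 1 - H 0) * (H 1 - H 0 + 1) := by
    intro hd
    rw [hH]
    simp only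
    rw [← Finset.sum_sub_distrib, ← Finset.sum_sub_distrib]
    apply dd_sq
    · intro j hj
      rw [hH0 j hj]
      by_cases h : ∃ t ∈ Cells b, t j = 1
      · rw [if_pos h]
        have h2 := hHpos j hj ((hVFne j).1 h) 1 hd
        have h3 : (1 : ℤ) ≤ hh (VF b j) (PP b (A j)) 1 := by exact_mod_cast h2
        linarith
      · rw [if_neg h, sub_zero]
        exact Int.natCast_nonneg _
    · intro j hj
      rw [hH0 j hj]
      by_cases h : ∃ t ∈ Cells b, t j = 1
      · rw [if_pos h]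
        have h2 := (hfirst j hj h).2
        have h3 : 2 * (hh (VF b j) (PP b (A j)) 2 : ℤ) ≤ hh (VF b j) (PP b (A j)) 1 *
            (hh (VF b j) (PP b (A j)) 1 + 1) := by exact_mod_cast h2
        nlinarith
      · rw [if_neg h, hHempty j (fun h' => h ((hVFne j).2 h')),
          hHempty j (fun h' => h ((hVFne j).2 h'))]
        norm_num
  -- the number of facets
  have hfac : ((Finset.univ.filter (fun l => l ∉ J ∧ ∃ t ∈ Cells b, t l = 1)).card : ℤ) + H 0 ≤
      κ 1 + (d + 1) := by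
    have h2 := Pool.Agent.KST.facets_le hS
    have h3 : Module.finrank ℝ ↥(FF (Cells b) 1 ⊓ Ker b ⊓ Par ι (-1)) =
        Module.finrank ℝ ↥(FF (Cells b) 1 ⊓ Ker c ⊓ Par ι (-1)) := by
      have h4 := hmin 1
      have h5 := hminb 1
      omega
    have h6 : (Finset.univ.filter (fun l => ∃ t ∈ Cells b, t l = 1)).card =
        (Finset.univ.filter (fun l => l ∉ J ∧ ∃ t ∈ Cells b, t l = 1)).card +
        (J.filter (fun j => ∃ t ∈ Cells b, t j = 1)).card := by
      rw [← Finset.card_union_of_disjoint]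
      · congr 1
        ext l
        rw [Finset.mem_union, Finset.mem_filter, Finset.mem_filter, Finset.mem_filter]
        constructor
        · rintro ⟨h7, h8⟩
          by_cases h9 : l ∈ J
          · right; exact ⟨h9, h8⟩
          · left; exact ⟨h7, h9, h8⟩
        · rintro (⟨h7, h8, h9⟩ | ⟨h7, h8⟩)
          · exact ⟨h7, h9⟩
          · exact ⟨Finset.mem_univ _, h8⟩
      · rw [Finset.disjoint_left]
        intro l hl hl'
        exact (Finset.mem_filter.1 hl).2.1 (Finset.mem_filter.1 hl').1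
    rw [← hr]
    rw [h6, h3] at h2
    rw [hκ]
    simp only
    have h7 : (((Finset.univ.filter (fun l => l ∉ J ∧ ∃ t ∈ Cells b, t l = 1)).card +
        (J.filter (fun j => ∃ t ∈ Cells b, t j = 1)).card : ℕ) : ℤ) ≤
        ((d + 1 + Module.finrank ℝ ↥(FF (Cells b) 1 ⊓ Ker c ⊓ Par ι (-1)) : ℕ) : ℤ) := by
      exact_mod_cast h2
    push_cast at h7
    linarith
  rw [hc4] at hc5
  -- dimensions in terms of the numbers of the facets
  have hg := Pool.Agent.CTC.genC_of_alg hc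
  have hη' : ∀ j n, (Module.finrank ℝ ↥(FF (Star b j) n ⊓ Ker c) : ℤ) =
      (hh (VF b j) (PP b (A j)) n : ℤ) := by
    intro j n
    by_cases h : ∃ t ∈ Cells b, t j = 1
    · rw [Pool.Agent.KST.finrank_ker (sweep_change c hc
        (Pool.Agent.KST.sweep_star hS hb (hA j).1 (hA j).2 h)) n]
    · have h2 : (FF (Star b j) n ⊓ Ker c : Submodule ℝ (Fn ι)) = ⊥ := by
        rw [eq_bot_iff]
        intro f hf
        rw [Submodule.mem_bot]
        funext e
        refine hf.1 e ?_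
        intro he
        have h1 := (Finset.mem_filter.1 he).2.2
        obtain ⟨t, ht, -, htj⟩ := (Finset.mem_filter.1 h1).2
        exact h ⟨t, ht, htj⟩
      rw [h2, finrank_bot, hHempty j (fun h' => h ((hVFne j).2 h'))]
  -- sets of caps against all functions
  have hcap : ∀ n, 1 ≤ n → 2 * n < d + 1 → ∀ T ⊆ J,
      (∀ f : ι × SignType → Fn ι,
        (∀ a, a.1 ∈ T → a.2 ≠ 0 → f a ∈ FF (StarS b a) n ⊓ Ker c) →
        ∑ a ∈ Finset.univ.filter (fun a : ι × SignType => a.1 ∈ T ∧ a.2 ≠ 0), f a = 0 →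
        ∀ a, a.1 ∈ T → a.2 ≠ 0 → f a = 0) →
      ∑ j ∈ T, ((hh (VF b j) (PP b (A j)) n : ℤ) - hh (VF b j) (PP b (A j)) (n - 1)) ≤
        κ n - H (n - 1) := by
    intro n hn1 hnd T hT hI
    have h2 := starPI hS hb hg hJC (T := T) (n := n) (m := d + 1 - n)
      hT (by omega) hn1 (by omega) hI
      (fun f hf h0 => Pool.Agent.CTC.inj_star hS hb hJ hc (by omega) (by omega) f hf h0)
    have h3 : ∑ j ∈ T, (Module.finrank ℝ ↥(FF (Star b j) (d + 1 - n - 1) ⊓ Ker c) : ℤ) +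
        ∑ k ∈ J \ T, (Module.finrank ℝ ↥(FF (Star b k) (d + 1 - n) ⊓ Ker c) : ℤ) ≤
        κ (d + 1 - n) := by
      rw [hκ]
      simp only
      exact_mod_cast h2
    rw [Finset.sum_congr rfl (fun k _ => hη' k _), Finset.sum_congr rfl (fun k _ => hη' k _)] at h3
    have h4 : ∑ k ∈ J \ T, (hh (VF b k) (PP b (A k)) (d + 1 - n) : ℤ) +
        ∑ k ∈ T, (hh (VF b k) (PP b (A k)) (d + 1 - n) : ℤ) = H (d + 1 - n) := by
      rw [hH]
      simp only
      exact Finset.sum_sdiff hT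
        (f := fun k => (hh (VF b k) (PP b (A k)) (d + 1 - n) : ℤ))
    have h5 : H (d + 1 - n) = H (n - 1) := by
      have := hHs (n - 1) (by omega)
      rwa [show d + 1 - 1 - (n - 1) = d + 1 - n from by omega] at this
    have h6 : κ (d + 1 - n) = κ n := hk n (by omega)
    have h7 : ∑ j ∈ T, (hh (VF b j) (PP b (A j)) (d + 1 - n - 1) : ℤ) =
        ∑ j ∈ T, (hh (VF b j) (PP b (A j)) n : ℤ) := by
      refine Finset.sum_congr rfl fun j hj => ?_
      have := hHsym j (hT hj) n (by omega)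
      rw [show d - n = d + 1 - n - 1 from by omega] at this
      rw [this]
    have h8 : ∑ j ∈ T, (hh (VF b j) (PP b (A j)) (d + 1 - n) : ℤ) =
        ∑ j ∈ T, (hh (VF b j) (PP b (A j)) (n - 1) : ℤ) := by
      refine Finset.sum_congr rfl fun j hj => ?_
      have := hHsym j (hT hj) (n - 1) (by omega)
      rw [show d - (n - 1) = d + 1 - n from by omega] at this
      rw [this]
    rw [Finset.sum_sub_distrib]
    linarith
  have hfew : ∀ n, 1 ≤ n → 2 * n < d + 1 → ∀ T ⊆ J, T.card ≤ n →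
      ∑ j ∈ T, ((hh (VF b j) (PP b (A j)) n : ℤ) - hh (VF b j) (PP b (A j)) (n - 1)) ≤
        κ n - H (n - 1) := by
    intro n hn1 hnd T hT hTn
    exact hcap n hn1 hnd T hT fun f hf hs =>
      Pool.Agent.CTC.star_indep hg hJC hT hn1 (few_card hJC hT hTn) f hf hs
  have hthree : ∀ T ⊆ J, T.card ≤ 4 →
      ∑ j ∈ T, ((hh (VF b j) (PP b (A j)) 3 : ℤ) - hh (VF b j) (PP b (A j)) 2) ≤
        κ 3 - H 2 := by
    intro T hT hTn
    exact hcap 3 (by norm_num) (by omega) T hT fun f hf hs =>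
      indepN hg hJC hT le_rfl hTn f hf hs
  -- the nonempty caps
  set J' := J.filter (fun j => ∃ t ∈ Cells b, t j = 1) with hJ'
  have hJ'J : J' ⊆ J := Finset.filter_subset _ _
  have hJne : ∀ j ∈ J', ∃ t ∈ Cells b, t j = 1 := fun j hj => (Finset.mem_filter.1 hj).2
  have hHJ : ∀ n, H n = ∑ j ∈ J', (hh (VF b j) (PP b (A j)) n : ℤ) := by
    intro n
    rw [hH]
    simp only
    symm
    refine Finset.sum_subset hJ'J ?_
    intro j hj hj'
    have h1 : ¬ ∃ t ∈ Cells b, t j = 1 := fun h => hj' (Finset.mem_filter.2 ⟨hj, h⟩)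
    rw [hHempty j (fun h' => h1 ((hVFne j).2 h'))]
    rfl
  -- one cap
  have hs1 : ∀ j ∈ J', (hh (VF b j) (PP b (A j)) 1 : ℤ) - hh (VF b j) (PP b (A j)) 0 ≤
      κ 1 - H 0 := by
    intro j hj
    have := hfew 1 le_rfl (by omega) {j} (Finset.singleton_subset_iff.2 (hJ'J hj)) (by simp)
    rwa [Finset.sum_singleton] at this
  have hone1 : ∀ j ∈ J', (1 : ℤ) ≤ (hh (VF b j) (PP b (A j)) 1 : ℤ) -
      hh (VF b j) (PP b (A j)) 0 := by
    intro j hj
    have h1 := (hfirst j (hJ'J hj) (hJne j hj)).1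
    have h2 := hH0n j (hJ'J hj) (hJne j hj)
    have h3 := hdgJ j (hJ'J hj) (hJne j hj)
    have h4 : ((d + 2 : ℕ) : ℤ) ≤ (dg b j : ℤ) := by exact_mod_cast h3
    push_cast at h4
    rw [h2]
    push_cast
    linarith
  have hdim : ∀ j ∈ J, ∀ q, 1 ≤ q → q ≤ 3 →
      (hh (VF b j) (PP b (A j)) q : ℤ) - hh (VF b j) (PP b (A j)) (q - 1) =
        (Module.finrank ℝ ↥(WW b c j q) : ℤ) := by
    intro j hj q hq hq3
    have h1 := star_dim hS hb j (hJ.opp j hj) hc hq (by omega) (by omega)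
    have h2 : (Module.finrank ℝ ↥(FF (Star b j) q ⊓ Ker c) : ℤ) =
        Module.finrank ℝ ↥(FF (Star b j) (q - 1) ⊓ Ker c) +
          Module.finrank ℝ ↥(WW b c j q) := by exact_mod_cast h1
    rw [hη', hη'] at h2
    linarith
  have hr2 : ∀ j ∈ J', 2 * ((hh (VF b j) (PP b (A j)) 2 : ℤ) - hh (VF b j) (PP b (A j)) 1) ≤
      ((hh (VF b j) (PP b (A j)) 1 : ℤ) - hh (VF b j) (PP b (A j)) 0 + 1) *
      ((hh (VF b j) (PP b (A j)) 1 : ℤ) - hh (VF b j) (PP b (A j)) 0) := by
    intro j hj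
    have h1 := ww_ratio (c := c) hS (hJ.opp j (hJ'J hj)) (q := 1) le_rfl
    have h2 : (2 : ℤ) * (Module.finrank ℝ ↥(WW b c j 2) : ℤ) ≤
        ((Module.finrank ℝ ↥(WW b c j 1) : ℤ) + 1) * (Module.finrank ℝ ↥(WW b c j 1) : ℤ) := by
      exact_mod_cast h1
    have e1 := hdim j (hJ'J hj) 1 le_rfl (by norm_num)
    have e2 := hdim j (hJ'J hj) 2 (by norm_num) (by norm_num)
    simp only [Nat.sub_self, show 2 - 1 = 1 from rfl] at e1 e2
    rw [e1, e2]
    exact h2
  have hr3 : ∀ j ∈ J', 3 * ((hh (VF b j) (PP b (A j)) 3 : ℤ) - hh (VF b j) (PP b (A j)) 2) ≤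
      ((hh (VF b j) (PP b (A j)) 1 : ℤ) - hh (VF b j) (PP b (A j)) 0 + 2) *
      ((hh (VF b j) (PP b (A j)) 2 : ℤ) - hh (VF b j) (PP b (A j)) 1) := by
    intro j hj
    have h1 := ww_ratio (c := c) hS (hJ.opp j (hJ'J hj)) (q := 2) (by norm_num)
    have h2 : (3 : ℤ) * (Module.finrank ℝ ↥(WW b c j 3) : ℤ) ≤
        ((Module.finrank ℝ ↥(WW b c j 1) : ℤ) + 2) * (Module.finrank ℝ ↥(WW b c j 2) : ℤ) := by
      exact_mod_cast h1
    have e1 := hdim j (hJ'J hj) 1 le_rfl (by norm_num)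
    have e2 := hdim j (hJ'J hj) 2 (by norm_num) (by norm_num)
    have e3 := hdim j (hJ'J hj) 3 (by norm_num) (by norm_num)
    simp only [Nat.sub_self, show 2 - 1 = 1 from rfl, show 3 - 1 = 2 from rfl] at e1 e2 e3
    rw [e1, e2, e3]
    exact h2
  have hpos2 : ∀ j ∈ J, 0 ≤ (hh (VF b j) (PP b (A j)) 2 : ℤ) - hh (VF b j) (PP b (A j)) 1 := by
    intro j hj
    have e2 := hdim j hj 2 (by norm_num) (by norm_num)
    simp only [show 2 - 1 = 1 from rfl] at e2
    rw [e2]
    exact Int.natCast_nonneg _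
  have hpos3 : ∀ j ∈ J, 0 ≤ (hh (VF b j) (PP b (A j)) 3 : ℤ) - hh (VF b j) (PP b (A j)) 2 := by
    intro j hj
    have e2 := hdim j hj 3 (by norm_num) (by norm_num)
    simp only [show 3 - 1 = 2 from rfl] at e2
    rw [e2]
    exact Int.natCast_nonneg _
  have hcardJ' : (J'.card : ℤ) = H 0 := hr
  have hdiff : ∀ m n, H m - H n = ∑ j ∈ J', ((hh (VF b j) (PP b (A j)) m : ℤ) -
      hh (VF b j) (PP b (A j)) n) := by
    intro m n
    rw [hHJ m, hHJ n, Finset.sum_sub_distrib]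
  refine ⟨κ, H, ⟨hk0, fun n => ?_, hk, hHs, h1, h0, hle, hr, hc1, hc3, ?_, hfac, hdeg, htwo⟩,
    ?_, ?_, ?_, ?_, ?_, ?_, ?_⟩
  · exact Int.natCast_nonneg _
  · linarith
  · rw [hdiff]
    exact Finset.sum_nonneg fun j hj => hpos2 j (hJ'J hj)
  · rw [hdiff]
    exact Finset.sum_nonneg fun j hj => hpos3 j (hJ'J hj)
  · rw [hdiff, ← hcardJ', hcardJ']
    have h2 := Finset.sum_le_sum hs1
    rw [Finset.sum_const, nsmul_eq_mul, hcardJ'] at h2
    exact h2
  · rw [hdiff]
    have h2 := blocks J' (fun j => (hh (VF b j) (PP b (A j)) 2 : ℤ) -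
      hh (VF b j) (PP b (A j)) 1) (κ 2 - H 1) 2 (by norm_num) (fun T hT hTc =>
        hfew 2 (by norm_num) (by omega) T (hT.trans hJ'J) hTc)
    have h3 : (((J'.card + 2 - 1) / 2 : ℕ) : ℤ) = (H 0 + 1) / 2 := by
      rw [← hcardJ']
      omega
    rw [h3] at h2
    exact h2
  · rw [hdiff]
    have h2 := blocks J' (fun j => (hh (VF b j) (PP b (A j)) 3 : ℤ) -
      hh (VF b j) (PP b (A j)) 2) (κ 3 - H 2) 4 (by norm_num) (fun T hT hTc =>
        hthree T (hT.trans hJ'J) hTc)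
    have h3 : (((J'.card + 4 - 1) / 4 : ℕ) : ℤ) = (H 0 + 3) / 4 := by
      rw [← hcardJ']
      omega
    rw [h3] at h2
    exact h2
  · have h2 : ∀ j ∈ J', 2 * ((hh (VF b j) (PP b (A j)) 2 : ℤ) - hh (VF b j) (PP b (A j)) 1) - 2 ≤
        (κ 1 - H 0 + 2) * ((hh (VF b j) (PP b (A j)) 1 : ℤ) - hh (VF b j) (PP b (A j)) 0 - 1) := by
      intro j hj
      have a1 := hs1 j hj
      have a2 := hone1 j hj
      have a3 := hr2 j hj
      nlinarith [mul_nonneg (sub_nonneg.2 a1) (sub_nonneg.2 a2)]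
    have h3 := Finset.sum_le_sum h2
    rw [← Finset.mul_sum, Finset.sum_sub_distrib, Finset.sum_sub_distrib, ← Finset.mul_sum,
      ← hdiff, ← hdiff, Finset.sum_const, Finset.sum_const, nsmul_eq_mul, nsmul_eq_mul, hcardJ'] at h3
    linarith
  · have h2 : ∀ j ∈ J', 3 * ((hh (VF b j) (PP b (A j)) 3 : ℤ) - hh (VF b j) (PP b (A j)) 2) ≤
        (κ 1 - H 0 + 2) * ((hh (VF b j) (PP b (A j)) 2 : ℤ) - hh (VF b j) (PP b (A j)) 1) := by
      intro j hj
      have a1 := hs1 j hj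
      have a2 := hpos2 j (hJ'J hj)
      have a3 := hr3 j hj
      nlinarith [mul_nonneg (sub_nonneg.2 a1) a2]
    have h3 := Finset.sum_le_sum h2
    rw [← Finset.mul_sum, ← Finset.mul_sum, ← hdiff, ← hdiff] at h3
    exact h3

end

end Pool.Agent.S78
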