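import Pool.Agent.CTC.Defs
import Pool.Agent.CTC.SH

/-!
# Simple vertex figures in dimensions seven and eight: definitions
-/

set_option autoImplicit false

open scoped BigOperators RealInnerProductSpace

namespace Pool.Agent.S78

noncomputable section

open Classical

open Pool.Agent.KST (E Fn supp Le IsCell Cells Verts Simple Pol pt PP Gen Star VF Low Sweep sgn EE X
  D FF Par Ker S hh LowF Inside)
open Pool.Agent.CTC (Xe uv StarS Meet Few GenC SepC Top ng)

variable {ι : Type} [Fintype ι] {d : ℕ}

/-- the kernel functions of the star of `(j, +)` killed by the shift in direction `j` -/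
def WW (b c : ι → E d) (j : ι) (q : ℕ) : Submodule ℝ (Fn ι) :=
  FF (Star b j) q ⊓ Ker c ⊓ LinearMap.ker (Xe (uv (j, 1)))

end

end Pool.Agent.S78
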