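import Mathlib

/-!
# S78 / Num7: the integer inequality of dimension seven
-/

set_option autoImplicit false

namespace Pool.Agent.S78

theorem n7_2_0 {s2 s3 r G1 G2 G3 : ℤ} (hs2 : 0 ≤ s2) (hs3 : 0 ≤ s3)
    (r0 : 0 ≤ r) (r1 : r ≤ 14) (h1 : r ≤ G1) (h2 : 0 ≤ G2) (h3 : 0 ≤ G3) (a1 : G1 ≤ r * 2)
    (a2 : G2 ≤ (r + 1) / 2 * s2) (a3 : G3 ≤ (r + 3) / 4 * s3)
    (c2 : 2 * (G2 - r) ≤ (2 + 2) * (G1 - r)) (m3 : 3 * G3 ≤ (2 + 2) * G2)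
    (hB : r + G1 + G2 + G3 ≤ 64 + 2 * (2 + s2 + s3)) :
    2 * G1 + 4 * G2 + 8 * G3 < 66 * 2 + 36 * s2 + 24 * s3 := by
  interval_cases r <;> norm_num at a2 a3 <;> linarith

theorem n7_2_1 {s2 s3 r G1 G2 G3 : ℤ} (hs2 : 0 ≤ s2) (hs3 : 0 ≤ s3)
    (r0 : 15 ≤ r) (r1 : r ≤ 29) (h1 : r ≤ G1) (h2 : 0 ≤ G2) (h3 : 0 ≤ G3) (a1 : G1 ≤ r * 2)
    (a2 : G2 ≤ (r + 1) / 2 * s2) (a3 : G3 ≤ (r + 3) / 4 * s3)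
    (c2 : 2 * (G2 - r) ≤ (2 + 2) * (G1 - r)) (m3 : 3 * G3 ≤ (2 + 2) * G2)
    (hB : r + G1 + G2 + G3 ≤ 64 + 2 * (2 + s2 + s3)) :
    2 * G1 + 4 * G2 + 8 * G3 < 66 * 2 + 36 * s2 + 24 * s3 := by
  interval_cases r <;> norm_num at a2 a3 <;>
    first
    | linarith
    | (rcases le_or_gt s3 3 with hq | hq <;> first | linarith | (rcases le_or_gt s2 1 with hp | hp <;> linarith))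
    | omega

theorem n7_3_0 {s2 s3 r G1 G2 G3 : ℤ} (hs2 : 0 ≤ s2) (hs3 : 0 ≤ s3)
    (r0 : 0 ≤ r) (r1 : r ≤ 14) (h1 : r ≤ G1) (h2 : 0 ≤ G2) (h3 : 0 ≤ G3) (a1 : G1 ≤ r * 3)
    (a2 : G2 ≤ (r + 1) / 2 * s2) (a3 : G3 ≤ (r + 3) / 4 * s3)
    (c2 : 2 * (G2 - r) ≤ (3 + 2) * (G1 - r)) (m3 : 3 * G3 ≤ (3 + 2) * G2)
    (hB : r + G1 + G2 + G3 ≤ 64 + 2 * (3 + s2 + s3)) :
    2 * G1 + 4 * G2 + 8 * G3 < 66 * 3 + 36 * s2 + 24 * s3 := by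
  interval_cases r <;> norm_num at a2 a3 <;> linarith

theorem n7_3_1 {s2 s3 r G1 G2 G3 : ℤ} (hs2 : 0 ≤ s2) (hs3 : 0 ≤ s3)
    (r0 : 15 ≤ r) (r1 : r ≤ 25) (h1 : r ≤ G1) (h2 : 0 ≤ G2) (h3 : 0 ≤ G3) (a1 : G1 ≤ r * 3)
    (a2 : G2 ≤ (r + 1) / 2 * s2) (a3 : G3 ≤ (r + 3) / 4 * s3)
    (c2 : 2 * (G2 - r) ≤ (3 + 2) * (G1 - r)) (m3 : 3 * G3 ≤ (3 + 2) * G2)
    (hB : r + G1 + G2 + G3 ≤ 64 + 2 * (3 + s2 + s3)) :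
    2 * G1 + 4 * G2 + 8 * G3 < 66 * 3 + 36 * s2 + 24 * s3 := by
  interval_cases r <;> norm_num at a2 a3 <;> linarith

theorem n7_4_0 {s2 s3 r G1 G2 G3 : ℤ} (hs2 : 0 ≤ s2) (hs3 : 0 ≤ s3)
    (r0 : 0 ≤ r) (r1 : r ≤ 14) (h1 : r ≤ G1) (h2 : 0 ≤ G2) (h3 : 0 ≤ G3) (a1 : G1 ≤ r * 4)
    (a2 : G2 ≤ (r + 1) / 2 * s2) (a3 : G3 ≤ (r + 3) / 4 * s3)
    (c2 : 2 * (G2 - r) ≤ (4 + 2) * (G1 - r)) (m3 : 3 * G3 ≤ (4 + 2) * G2)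
    (hB : r + G1 + G2 + G3 ≤ 64 + 2 * (4 + s2 + s3)) :
    2 * G1 + 4 * G2 + 8 * G3 < 66 * 4 + 36 * s2 + 24 * s3 := by
  interval_cases r <;> norm_num at a2 a3 <;> linarith

theorem n7_4_1 {s2 s3 r G1 G2 G3 : ℤ} (hs2 : 0 ≤ s2) (hs3 : 0 ≤ s3)
    (r0 : 15 ≤ r) (r1 : r ≤ 22) (h1 : r ≤ G1) (h2 : 0 ≤ G2) (h3 : 0 ≤ G3) (a1 : G1 ≤ r * 4)
    (a2 : G2 ≤ (r + 1) / 2 * s2) (a3 : G3 ≤ (r + 3) / 4 * s3)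
    (c2 : 2 * (G2 - r) ≤ (4 + 2) * (G1 - r)) (m3 : 3 * G3 ≤ (4 + 2) * G2)
    (hB : r + G1 + G2 + G3 ≤ 64 + 2 * (4 + s2 + s3)) :
    2 * G1 + 4 * G2 + 8 * G3 < 66 * 4 + 36 * s2 + 24 * s3 := by
  interval_cases r <;> norm_num at a2 a3 <;> linarith

theorem n7_5_0 {s2 s3 r G1 G2 G3 : ℤ} (hs2 : 0 ≤ s2) (hs3 : 0 ≤ s3)
    (r0 : 0 ≤ r) (r1 : r ≤ 14) (h1 : r ≤ G1) (h2 : 0 ≤ G2) (h3 : 0 ≤ G3) (a1 : G1 ≤ r * 5)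
    (a2 : G2 ≤ (r + 1) / 2 * s2) (a3 : G3 ≤ (r + 3) / 4 * s3)
    (c2 : 2 * (G2 - r) ≤ (5 + 2) * (G1 - r)) (m3 : 3 * G3 ≤ (5 + 2) * G2)
    (hB : r + G1 + G2 + G3 ≤ 64 + 2 * (5 + s2 + s3)) :
    2 * G1 + 4 * G2 + 8 * G3 < 66 * 5 + 36 * s2 + 24 * s3 := by
  interval_cases r <;> norm_num at a2 a3 <;> linarith

theorem n7_5_1 {s2 s3 r G1 G2 G3 : ℤ} (hs2 : 0 ≤ s2) (hs3 : 0 ≤ s3)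
    (r0 : 15 ≤ r) (r1 : r ≤ 18) (h1 : r ≤ G1) (h2 : 0 ≤ G2) (h3 : 0 ≤ G3) (a1 : G1 ≤ r * 5)
    (a2 : G2 ≤ (r + 1) / 2 * s2) (a3 : G3 ≤ (r + 3) / 4 * s3)
    (c2 : 2 * (G2 - r) ≤ (5 + 2) * (G1 - r)) (m3 : 3 * G3 ≤ (5 + 2) * G2)
    (hB : r + G1 + G2 + G3 ≤ 64 + 2 * (5 + s2 + s3)) :
    2 * G1 + 4 * G2 + 8 * G3 < 66 * 5 + 36 * s2 + 24 * s3 := by
  interval_cases r <;> norm_num at a2 a3 <;> linarith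

theorem n7_6_0 {s2 s3 r G1 G2 G3 : ℤ} (hs2 : 0 ≤ s2) (hs3 : 0 ≤ s3)
    (r0 : 0 ≤ r) (r1 : r ≤ 14) (h1 : r ≤ G1) (h2 : 0 ≤ G2) (h3 : 0 ≤ G3) (a1 : G1 ≤ r * 6)
    (a2 : G2 ≤ (r + 1) / 2 * s2) (a3 : G3 ≤ (r + 3) / 4 * s3)
    (c2 : 2 * (G2 - r) ≤ (6 + 2) * (G1 - r)) (m3 : 3 * G3 ≤ (6 + 2) * G2)
    (hB : r + G1 + G2 + G3 ≤ 64 + 2 * (6 + s2 + s3)) :
    2 * G1 + 4 * G2 + 8 * G3 < 66 * 6 + 36 * s2 + 24 * s3 := by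
  interval_cases r <;> norm_num at a2 a3 <;> linarith

theorem n7_6_1 {s2 s3 r G1 G2 G3 : ℤ} (hs2 : 0 ≤ s2) (hs3 : 0 ≤ s3)
    (r0 : 15 ≤ r) (r1 : r ≤ 15) (h1 : r ≤ G1) (h2 : 0 ≤ G2) (h3 : 0 ≤ G3) (a1 : G1 ≤ r * 6)
    (a2 : G2 ≤ (r + 1) / 2 * s2) (a3 : G3 ≤ (r + 3) / 4 * s3)
    (c2 : 2 * (G2 - r) ≤ (6 + 2) * (G1 - r)) (m3 : 3 * G3 ≤ (6 + 2) * G2)
    (hB : r + G1 + G2 + G3 ≤ 64 + 2 * (6 + s2 + s3)) :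
    2 * G1 + 4 * G2 + 8 * G3 < 66 * 6 + 36 * s2 + 24 * s3 := by
  interval_cases r <;> norm_num at a2 a3 <;> linarith

theorem n7_7_0 {s2 s3 r G1 G2 G3 : ℤ} (hs2 : 0 ≤ s2) (hs3 : 0 ≤ s3)
    (r0 : 0 ≤ r) (r1 : r ≤ 11) (h1 : r ≤ G1) (h2 : 0 ≤ G2) (h3 : 0 ≤ G3) (a1 : G1 ≤ r * 7)
    (a2 : G2 ≤ (r + 1) / 2 * s2) (a3 : G3 ≤ (r + 3) / 4 * s3)
    (c2 : 2 * (G2 - r) ≤ (7 + 2) * (G1 - r)) (m3 : 3 * G3 ≤ (7 + 2) * G2)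
    (hB : r + G1 + G2 + G3 ≤ 64 + 2 * (7 + s2 + s3)) :
    2 * G1 + 4 * G2 + 8 * G3 < 66 * 7 + 36 * s2 + 24 * s3 := by
  interval_cases r <;> norm_num at a2 a3 <;> linarith

theorem n7_8_0 {s2 s3 r G1 G2 G3 : ℤ} (hs2 : 0 ≤ s2) (hs3 : 0 ≤ s3)
    (r0 : 0 ≤ r) (r1 : r ≤ 8) (h1 : r ≤ G1) (h2 : 0 ≤ G2) (h3 : 0 ≤ G3) (a1 : G1 ≤ r * 8)
    (a2 : G2 ≤ (r + 1) / 2 * s2) (a3 : G3 ≤ (r + 3) / 4 * s3)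
    (c2 : 2 * (G2 - r) ≤ (8 + 2) * (G1 - r)) (m3 : 3 * G3 ≤ (8 + 2) * G2)
    (hB : r + G1 + G2 + G3 ≤ 64 + 2 * (8 + s2 + s3)) :
    2 * G1 + 4 * G2 + 8 * G3 < 66 * 8 + 36 * s2 + 24 * s3 := by
  interval_cases r <;> norm_num at a2 a3 <;> linarith

theorem n7_9_0 {s2 s3 r G1 G2 G3 : ℤ} (hs2 : 0 ≤ s2) (hs3 : 0 ≤ s3)
    (r0 : 0 ≤ r) (r1 : r ≤ 4) (h1 : r ≤ G1) (h2 : 0 ≤ G2) (h3 : 0 ≤ G3) (a1 : G1 ≤ r * 9)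
    (a2 : G2 ≤ (r + 1) / 2 * s2) (a3 : G3 ≤ (r + 3) / 4 * s3)
    (c2 : 2 * (G2 - r) ≤ (9 + 2) * (G1 - r)) (m3 : 3 * G3 ≤ (9 + 2) * G2)
    (hB : r + G1 + G2 + G3 ≤ 64 + 2 * (9 + s2 + s3)) :
    2 * G1 + 4 * G2 + 8 * G3 < 66 * 9 + 36 * s2 + 24 * s3 := by
  interval_cases r <;> norm_num at a2 a3 <;> linarith

theorem n7_10_0 {s2 s3 r G1 G2 G3 : ℤ} (hs2 : 0 ≤ s2) (hs3 : 0 ≤ s3)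
    (r0 : 0 ≤ r) (r1 : r ≤ 0) (h1 : r ≤ G1) (h2 : 0 ≤ G2) (h3 : 0 ≤ G3) (a1 : G1 ≤ r * 10)
    (a2 : G2 ≤ (r + 1) / 2 * s2) (a3 : G3 ≤ (r + 3) / 4 * s3)
    (c2 : 2 * (G2 - r) ≤ (10 + 2) * (G1 - r)) (m3 : 3 * G3 ≤ (10 + 2) * G2)
    (hB : r + G1 + G2 + G3 ≤ 64 + 2 * (10 + s2 + s3)) :
    2 * G1 + 4 * G2 + 8 * G3 < 66 * 10 + 36 * s2 + 24 * s3 := by
  interval_cases r <;> norm_num at a2 a3 <;> linarith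

/-- ROW R5a -/
theorem num7 {s1 s2 s3 r G1 G2 G3 : ℤ} (hs1 : 2 ≤ s1) (hs2 : 0 ≤ s2) (hs3 : 0 ≤ s3) (hr : 0 ≤ r)
    (h1 : r ≤ G1) (h2 : 0 ≤ G2) (h3 : 0 ≤ G3) (a1 : G1 ≤ r * s1) (a2 : G2 ≤ (r + 1) / 2 * s2)
    (a3 : G3 ≤ (r + 3) / 4 * s3) (c2 : 2 * (G2 - r) ≤ (s1 + 2) * (G1 - r))
    (m3 : 3 * G3 ≤ (s1 + 2) * G2) (hB : r + G1 + G2 + G3 ≤ 64 + 2 * (s1 + s2 + s3)) :
    2 * G1 + 4 * G2 + 8 * G3 < 66 * s1 + 36 * s2 + 24 * s3 := by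
  by_cases hbig : 512 < 14 * r + 50 * s1 + 20 * s2 + 8 * s3
  · linarith
  · have hbig' : 14 * r + 50 * s1 + 20 * s2 + 8 * s3 ≤ 512 := not_lt.1 hbig
    have hs9 : s1 ≤ 10 := by omega
    have hc : s1 = 2 ∨ s1 = 3 ∨ s1 = 4 ∨ s1 = 5 ∨ s1 = 6 ∨ s1 = 7 ∨ s1 = 8 ∨ s1 = 9 ∨ s1 = 10 := by omega
    clear hs1 hbig hs9
    rcases hc with rfl | rfl | rfl | rfl | rfl | rfl | rfl | rfl | rfl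
    · rcases le_or_gt r 14 with hk | hk
      · exact n7_2_0 hs2 hs3 (by omega) (by omega) h1 h2 h3 a1 a2 a3 c2 m3 hB
      · exact n7_2_1 hs2 hs3 (by omega) (by omega) h1 h2 h3 a1 a2 a3 c2 m3 hB
    · rcases le_or_gt r 14 with hk | hk
      · exact n7_3_0 hs2 hs3 (by omega) (by omega) h1 h2 h3 a1 a2 a3 c2 m3 hB
      · exact n7_3_1 hs2 hs3 (by omega) (by omega) h1 h2 h3 a1 a2 a3 c2 m3 hB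
    · rcases le_or_gt r 14 with hk | hk
      · exact n7_4_0 hs2 hs3 (by omega) (by omega) h1 h2 h3 a1 a2 a3 c2 m3 hB
      · exact n7_4_1 hs2 hs3 (by omega) (by omega) h1 h2 h3 a1 a2 a3 c2 m3 hB
    · rcases le_or_gt r 14 with hk | hk
      · exact n7_5_0 hs2 hs3 (by omega) (by omega) h1 h2 h3 a1 a2 a3 c2 m3 hB
      · exact n7_5_1 hs2 hs3 (by omega) (by omega) h1 h2 h3 a1 a2 a3 c2 m3 hB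
    · rcases le_or_gt r 14 with hk | hk
      · exact n7_6_0 hs2 hs3 (by omega) (by omega) h1 h2 h3 a1 a2 a3 c2 m3 hB
      · exact n7_6_1 hs2 hs3 (by omega) (by omega) h1 h2 h3 a1 a2 a3 c2 m3 hB
    · exact n7_7_0 hs2 hs3 (by omega) (by omega) h1 h2 h3 a1 a2 a3 c2 m3 hB
    · exact n7_8_0 hs2 hs3 (by omega) (by omega) h1 h2 h3 a1 a2 a3 c2 m3 hB
    · exact n7_9_0 hs2 hs3 (by omega) (by omega) h1 h2 h3 a1 a2 a3 c2 m3 hB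
    · exact n7_10_0 hs2 hs3 (by omega) (by omega) h1 h2 h3 a1 a2 a3 c2 m3 hB

end Pool.Agent.S78
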