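import Mathlib

/-!
# S78 / Num8: the integer inequality of dimension eight
-/

set_option autoImplicit false

namespace Pool.Agent.S78

theorem n8_2_0 {s2 s3 s4 r G1 G2 G3 : ℤ} (hs2 : 0 ≤ s2) (hs3 : 0 ≤ s3) (hs4 : 0 ≤ s4)
    (r0 : 0 ≤ r) (r1 : r ≤ 19) (h1 : r ≤ G1) (h2 : 0 ≤ G2) (h3 : 0 ≤ G3) (a1 : G1 ≤ r * 2)
    (a2 : G2 ≤ (r + 1) / 2 * s2) (a3 : G3 ≤ (r + 3) / 4 * s3)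
    (c2 : 2 * (G2 - r) ≤ (2 + 2) * (G1 - r)) (m3 : 3 * G3 ≤ (2 + 2) * G2)
    (hB : r + G1 + G2 + G3 ≤ 128 + 2 * (2 + s2 + s3) + s4) :
    2 * G1 + 4 * G2 + 8 * G3 < 130 * 2 + 68 * s2 + 40 * s3 + 16 * s4 := by
  interval_cases r <;> norm_num at a2 a3 <;> linarith

theorem n8_2_1 {s2 s3 s4 r G1 G2 G3 : ℤ} (hs2 : 0 ≤ s2) (hs3 : 0 ≤ s3) (hs4 : 0 ≤ s4)
    (r0 : 20 ≤ r) (r1 : r ≤ 39) (h1 : r ≤ G1) (h2 : 0 ≤ G2) (h3 : 0 ≤ G3) (a1 : G1 ≤ r * 2)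
    (a2 : G2 ≤ (r + 1) / 2 * s2) (a3 : G3 ≤ (r + 3) / 4 * s3)
    (c2 : 2 * (G2 - r) ≤ (2 + 2) * (G1 - r)) (m3 : 3 * G3 ≤ (2 + 2) * G2)
    (hB : r + G1 + G2 + G3 ≤ 128 + 2 * (2 + s2 + s3) + s4) :
    2 * G1 + 4 * G2 + 8 * G3 < 130 * 2 + 68 * s2 + 40 * s3 + 16 * s4 := by
  interval_cases r <;> norm_num at a2 a3 <;> linarith

theorem n8_2_2 {s2 s3 s4 r G1 G2 G3 : ℤ} (hs2 : 0 ≤ s2) (hs3 : 0 ≤ s3) (hs4 : 0 ≤ s4)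
    (r0 : 40 ≤ r) (r1 : r ≤ 56) (h1 : r ≤ G1) (h2 : 0 ≤ G2) (h3 : 0 ≤ G3) (a1 : G1 ≤ r * 2)
    (a2 : G2 ≤ (r + 1) / 2 * s2) (a3 : G3 ≤ (r + 3) / 4 * s3)
    (c2 : 2 * (G2 - r) ≤ (2 + 2) * (G1 - r)) (m3 : 3 * G3 ≤ (2 + 2) * G2)
    (hB : r + G1 + G2 + G3 ≤ 128 + 2 * (2 + s2 + s3) + s4) :
    2 * G1 + 4 * G2 + 8 * G3 < 130 * 2 + 68 * s2 + 40 * s3 + 16 * s4 := by
  interval_cases r <;> norm_num at a2 a3 <;> linarith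

theorem n8_3_0 {s2 s3 s4 r G1 G2 G3 : ℤ} (hs2 : 0 ≤ s2) (hs3 : 0 ≤ s3) (hs4 : 0 ≤ s4)
    (r0 : 0 ≤ r) (r1 : r ≤ 19) (h1 : r ≤ G1) (h2 : 0 ≤ G2) (h3 : 0 ≤ G3) (a1 : G1 ≤ r * 3)
    (a2 : G2 ≤ (r + 1) / 2 * s2) (a3 : G3 ≤ (r + 3) / 4 * s3)
    (c2 : 2 * (G2 - r) ≤ (3 + 2) * (G1 - r)) (m3 : 3 * G3 ≤ (3 + 2) * G2)
    (hB : r + G1 + G2 + G3 ≤ 128 + 2 * (3 + s2 + s3) + s4) :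
    2 * G1 + 4 * G2 + 8 * G3 < 130 * 3 + 68 * s2 + 40 * s3 + 16 * s4 := by
  interval_cases r <;> norm_num at a2 a3 <;> linarith

theorem n8_3_1 {s2 s3 s4 r G1 G2 G3 : ℤ} (hs2 : 0 ≤ s2) (hs3 : 0 ≤ s3) (hs4 : 0 ≤ s4)
    (r0 : 20 ≤ r) (r1 : r ≤ 39) (h1 : r ≤ G1) (h2 : 0 ≤ G2) (h3 : 0 ≤ G3) (a1 : G1 ≤ r * 3)
    (a2 : G2 ≤ (r + 1) / 2 * s2) (a3 : G3 ≤ (r + 3) / 4 * s3)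
    (c2 : 2 * (G2 - r) ≤ (3 + 2) * (G1 - r)) (m3 : 3 * G3 ≤ (3 + 2) * G2)
    (hB : r + G1 + G2 + G3 ≤ 128 + 2 * (3 + s2 + s3) + s4) :
    2 * G1 + 4 * G2 + 8 * G3 < 130 * 3 + 68 * s2 + 40 * s3 + 16 * s4 := by
  interval_cases r <;> norm_num at a2 a3 <;> linarith

theorem n8_3_2 {s2 s3 s4 r G1 G2 G3 : ℤ} (hs2 : 0 ≤ s2) (hs3 : 0 ≤ s3) (hs4 : 0 ≤ s4)
    (r0 : 40 ≤ r) (r1 : r ≤ 48) (h1 : r ≤ G1) (h2 : 0 ≤ G2) (h3 : 0 ≤ G3) (a1 : G1 ≤ r * 3)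
    (a2 : G2 ≤ (r + 1) / 2 * s2) (a3 : G3 ≤ (r + 3) / 4 * s3)
    (c2 : 2 * (G2 - r) ≤ (3 + 2) * (G1 - r)) (m3 : 3 * G3 ≤ (3 + 2) * G2)
    (hB : r + G1 + G2 + G3 ≤ 128 + 2 * (3 + s2 + s3) + s4) :
    2 * G1 + 4 * G2 + 8 * G3 < 130 * 3 + 68 * s2 + 40 * s3 + 16 * s4 := by
  interval_cases r <;> norm_num at a2 a3 <;> linarith

theorem n8_4_0 {s2 s3 s4 r G1 G2 G3 : ℤ} (hs2 : 0 ≤ s2) (hs3 : 0 ≤ s3) (hs4 : 0 ≤ s4)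
    (r0 : 0 ≤ r) (r1 : r ≤ 19) (h1 : r ≤ G1) (h2 : 0 ≤ G2) (h3 : 0 ≤ G3) (a1 : G1 ≤ r * 4)
    (a2 : G2 ≤ (r + 1) / 2 * s2) (a3 : G3 ≤ (r + 3) / 4 * s3)
    (c2 : 2 * (G2 - r) ≤ (4 + 2) * (G1 - r)) (m3 : 3 * G3 ≤ (4 + 2) * G2)
    (hB : r + G1 + G2 + G3 ≤ 128 + 2 * (4 + s2 + s3) + s4) :
    2 * G1 + 4 * G2 + 8 * G3 < 130 * 4 + 68 * s2 + 40 * s3 + 16 * s4 := by
  interval_cases r <;> norm_num at a2 a3 <;> linarith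

theorem n8_4_1 {s2 s3 s4 r G1 G2 G3 : ℤ} (hs2 : 0 ≤ s2) (hs3 : 0 ≤ s3) (hs4 : 0 ≤ s4)
    (r0 : 20 ≤ r) (r1 : r ≤ 39) (h1 : r ≤ G1) (h2 : 0 ≤ G2) (h3 : 0 ≤ G3) (a1 : G1 ≤ r * 4)
    (a2 : G2 ≤ (r + 1) / 2 * s2) (a3 : G3 ≤ (r + 3) / 4 * s3)
    (c2 : 2 * (G2 - r) ≤ (4 + 2) * (G1 - r)) (m3 : 3 * G3 ≤ (4 + 2) * G2)
    (hB : r + G1 + G2 + G3 ≤ 128 + 2 * (4 + s2 + s3) + s4) :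
    2 * G1 + 4 * G2 + 8 * G3 < 130 * 4 + 68 * s2 + 40 * s3 + 16 * s4 := by
  interval_cases r <;> norm_num at a2 a3 <;> linarith

theorem n8_4_2 {s2 s3 s4 r G1 G2 G3 : ℤ} (hs2 : 0 ≤ s2) (hs3 : 0 ≤ s3) (hs4 : 0 ≤ s4)
    (r0 : 40 ≤ r) (r1 : r ≤ 40) (h1 : r ≤ G1) (h2 : 0 ≤ G2) (h3 : 0 ≤ G3) (a1 : G1 ≤ r * 4)
    (a2 : G2 ≤ (r + 1) / 2 * s2) (a3 : G3 ≤ (r + 3) / 4 * s3)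
    (c2 : 2 * (G2 - r) ≤ (4 + 2) * (G1 - r)) (m3 : 3 * G3 ≤ (4 + 2) * G2)
    (hB : r + G1 + G2 + G3 ≤ 128 + 2 * (4 + s2 + s3) + s4) :
    2 * G1 + 4 * G2 + 8 * G3 < 130 * 4 + 68 * s2 + 40 * s3 + 16 * s4 := by
  interval_cases r <;> norm_num at a2 a3 <;> linarith

theorem n8_5_0 {s2 s3 s4 r G1 G2 G3 : ℤ} (hs2 : 0 ≤ s2) (hs3 : 0 ≤ s3) (hs4 : 0 ≤ s4)
    (r0 : 0 ≤ r) (r1 : r ≤ 19) (h1 : r ≤ G1) (h2 : 0 ≤ G2) (h3 : 0 ≤ G3) (a1 : G1 ≤ r * 5)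
    (a2 : G2 ≤ (r + 1) / 2 * s2) (a3 : G3 ≤ (r + 3) / 4 * s3)
    (c2 : 2 * (G2 - r) ≤ (5 + 2) * (G1 - r)) (m3 : 3 * G3 ≤ (5 + 2) * G2)
    (hB : r + G1 + G2 + G3 ≤ 128 + 2 * (5 + s2 + s3) + s4) :
    2 * G1 + 4 * G2 + 8 * G3 < 130 * 5 + 68 * s2 + 40 * s3 + 16 * s4 := by
  interval_cases r <;> norm_num at a2 a3 <;> linarith

theorem n8_5_1 {s2 s3 s4 r G1 G2 G3 : ℤ} (hs2 : 0 ≤ s2) (hs3 : 0 ≤ s3) (hs4 : 0 ≤ s4)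
    (r0 : 20 ≤ r) (r1 : r ≤ 32) (h1 : r ≤ G1) (h2 : 0 ≤ G2) (h3 : 0 ≤ G3) (a1 : G1 ≤ r * 5)
    (a2 : G2 ≤ (r + 1) / 2 * s2) (a3 : G3 ≤ (r + 3) / 4 * s3)
    (c2 : 2 * (G2 - r) ≤ (5 + 2) * (G1 - r)) (m3 : 3 * G3 ≤ (5 + 2) * G2)
    (hB : r + G1 + G2 + G3 ≤ 128 + 2 * (5 + s2 + s3) + s4) :
    2 * G1 + 4 * G2 + 8 * G3 < 130 * 5 + 68 * s2 + 40 * s3 + 16 * s4 := by
  interval_cases r <;> norm_num at a2 a3 <;> linarith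

theorem n8_6_0 {s2 s3 s4 r G1 G2 G3 : ℤ} (hs2 : 0 ≤ s2) (hs3 : 0 ≤ s3) (hs4 : 0 ≤ s4)
    (r0 : 0 ≤ r) (r1 : r ≤ 19) (h1 : r ≤ G1) (h2 : 0 ≤ G2) (h3 : 0 ≤ G3) (a1 : G1 ≤ r * 6)
    (a2 : G2 ≤ (r + 1) / 2 * s2) (a3 : G3 ≤ (r + 3) / 4 * s3)
    (c2 : 2 * (G2 - r) ≤ (6 + 2) * (G1 - r)) (m3 : 3 * G3 ≤ (6 + 2) * G2)
    (hB : r + G1 + G2 + G3 ≤ 128 + 2 * (6 + s2 + s3) + s4) :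
    2 * G1 + 4 * G2 + 8 * G3 < 130 * 6 + 68 * s2 + 40 * s3 + 16 * s4 := by
  interval_cases r <;> norm_num at a2 a3 <;> linarith

theorem n8_6_1 {s2 s3 s4 r G1 G2 G3 : ℤ} (hs2 : 0 ≤ s2) (hs3 : 0 ≤ s3) (hs4 : 0 ≤ s4)
    (r0 : 20 ≤ r) (r1 : r ≤ 24) (h1 : r ≤ G1) (h2 : 0 ≤ G2) (h3 : 0 ≤ G3) (a1 : G1 ≤ r * 6)
    (a2 : G2 ≤ (r + 1) / 2 * s2) (a3 : G3 ≤ (r + 3) / 4 * s3)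
    (c2 : 2 * (G2 - r) ≤ (6 + 2) * (G1 - r)) (m3 : 3 * G3 ≤ (6 + 2) * G2)
    (hB : r + G1 + G2 + G3 ≤ 128 + 2 * (6 + s2 + s3) + s4) :
    2 * G1 + 4 * G2 + 8 * G3 < 130 * 6 + 68 * s2 + 40 * s3 + 16 * s4 := by
  interval_cases r <;> norm_num at a2 a3 <;> linarith

theorem n8_7_0 {s2 s3 s4 r G1 G2 G3 : ℤ} (hs2 : 0 ≤ s2) (hs3 : 0 ≤ s3) (hs4 : 0 ≤ s4)
    (r0 : 0 ≤ r) (r1 : r ≤ 16) (h1 : r ≤ G1) (h2 : 0 ≤ G2) (h3 : 0 ≤ G3) (a1 : G1 ≤ r * 7)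
    (a2 : G2 ≤ (r + 1) / 2 * s2) (a3 : G3 ≤ (r + 3) / 4 * s3)
    (c2 : 2 * (G2 - r) ≤ (7 + 2) * (G1 - r)) (m3 : 3 * G3 ≤ (7 + 2) * G2)
    (hB : r + G1 + G2 + G3 ≤ 128 + 2 * (7 + s2 + s3) + s4) :
    2 * G1 + 4 * G2 + 8 * G3 < 130 * 7 + 68 * s2 + 40 * s3 + 16 * s4 := by
  interval_cases r <;> norm_num at a2 a3 <;> linarith

theorem n8_8_0 {s2 s3 s4 r G1 G2 G3 : ℤ} (hs2 : 0 ≤ s2) (hs3 : 0 ≤ s3) (hs4 : 0 ≤ s4)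
    (r0 : 0 ≤ r) (r1 : r ≤ 8) (h1 : r ≤ G1) (h2 : 0 ≤ G2) (h3 : 0 ≤ G3) (a1 : G1 ≤ r * 8)
    (a2 : G2 ≤ (r + 1) / 2 * s2) (a3 : G3 ≤ (r + 3) / 4 * s3)
    (c2 : 2 * (G2 - r) ≤ (8 + 2) * (G1 - r)) (m3 : 3 * G3 ≤ (8 + 2) * G2)
    (hB : r + G1 + G2 + G3 ≤ 128 + 2 * (8 + s2 + s3) + s4) :
    2 * G1 + 4 * G2 + 8 * G3 < 130 * 8 + 68 * s2 + 40 * s3 + 16 * s4 := by
  interval_cases r <;> norm_num at a2 a3 <;> linarith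

/-- ROW R5b -/
theorem num8 {s1 s2 s3 s4 r G1 G2 G3 : ℤ} (hs1 : 2 ≤ s1) (hs2 : 0 ≤ s2) (hs3 : 0 ≤ s3)
    (hs4 : 0 ≤ s4) (hr : 0 ≤ r)
    (h1 : r ≤ G1) (h2 : 0 ≤ G2) (h3 : 0 ≤ G3) (a1 : G1 ≤ r * s1) (a2 : G2 ≤ (r + 1) / 2 * s2)
    (a3 : G3 ≤ (r + 3) / 4 * s3) (c2 : 2 * (G2 - r) ≤ (s1 + 2) * (G1 - r))
    (m3 : 3 * G3 ≤ (s1 + 2) * G2) (hB : r + G1 + G2 + G3 ≤ 128 + 2 * (s1 + s2 + s3) + s4) :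
    2 * G1 + 4 * G2 + 8 * G3 < 130 * s1 + 68 * s2 + 40 * s3 + 16 * s4 := by
  by_cases hbig : 1024 < 14 * r + 114 * s1 + 52 * s2 + 24 * s3 + 8 * s4
  · linarith
  · have hbig' : 14 * r + 114 * s1 + 52 * s2 + 24 * s3 + 8 * s4 ≤ 1024 := not_lt.1 hbig
    have hs8 : s1 ≤ 8 := by omega
    have hc : s1 = 2 ∨ s1 = 3 ∨ s1 = 4 ∨ s1 = 5 ∨ s1 = 6 ∨ s1 = 7 ∨ s1 = 8 := by omega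
    clear hs1 hbig hs8
    rcases hc with rfl | rfl | rfl | rfl | rfl | rfl | rfl
    · rcases le_or_gt r 19 with hk | hk
      · exact n8_2_0 hs2 hs3 hs4 (by omega) (by omega) h1 h2 h3 a1 a2 a3 c2 m3 hB
      · rcases le_or_gt r 39 with hl | hl
        · exact n8_2_1 hs2 hs3 hs4 (by omega) (by omega) h1 h2 h3 a1 a2 a3 c2 m3 hB
        · exact n8_2_2 hs2 hs3 hs4 (by omega) (by omega) h1 h2 h3 a1 a2 a3 c2 m3 hB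
    · rcases le_or_gt r 19 with hk | hk
      · exact n8_3_0 hs2 hs3 hs4 (by omega) (by omega) h1 h2 h3 a1 a2 a3 c2 m3 hB
      · rcases le_or_gt r 39 with hl | hl
        · exact n8_3_1 hs2 hs3 hs4 (by omega) (by omega) h1 h2 h3 a1 a2 a3 c2 m3 hB
        · exact n8_3_2 hs2 hs3 hs4 (by omega) (by omega) h1 h2 h3 a1 a2 a3 c2 m3 hB
    · rcases le_or_gt r 19 with hk | hk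
      · exact n8_4_0 hs2 hs3 hs4 (by omega) (by omega) h1 h2 h3 a1 a2 a3 c2 m3 hB
      · rcases le_or_gt r 39 with hl | hl
        · exact n8_4_1 hs2 hs3 hs4 (by omega) (by omega) h1 h2 h3 a1 a2 a3 c2 m3 hB
        · exact n8_4_2 hs2 hs3 hs4 (by omega) (by omega) h1 h2 h3 a1 a2 a3 c2 m3 hB
    · rcases le_or_gt r 19 with hk | hk
      · exact n8_5_0 hs2 hs3 hs4 (by omega) (by omega) h1 h2 h3 a1 a2 a3 c2 m3 hB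
      · exact n8_5_1 hs2 hs3 hs4 (by omega) (by omega) h1 h2 h3 a1 a2 a3 c2 m3 hB
    · rcases le_or_gt r 19 with hk | hk
      · exact n8_6_0 hs2 hs3 hs4 (by omega) (by omega) h1 h2 h3 a1 a2 a3 c2 m3 hB
      · exact n8_6_1 hs2 hs3 hs4 (by omega) (by omega) h1 h2 h3 a1 a2 a3 c2 m3 hB
    · exact n8_7_0 hs2 hs3 hs4 (by omega) (by omega) h1 h2 h3 a1 a2 a3 c2 m3 hB
    · exact n8_8_0 hs2 hs3 hs4 (by omega) (by omega) h1 h2 h3 a1 a2 a3 c2 m3 hB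

end Pool.Agent.S78
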