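import Pool.Agent.S78.Data
import Pool.Agent.S78.Num7
import Pool.Agent.S78.Num8
import Pool.Agent.WLP.Eq56

/-!
# S78 / Many78: polytopes with simple vertex figures in dimensions seven and eight, without
superfluous constraints and with at least `d + 2` constraints
-/

set_option autoImplicit false

open scoped BigOperators RealInnerProductSpace

namespace Pool.Agent.S78

noncomputable section

open Classical

open Pool.Agent.KST (E IsCell Cells Verts Simple Pol pt PP Gen Star VF Low LowF Inside hh n1NS)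
open Pool.Agent.CTC (HypC)
open WLP

private theorem m78_filter {X : Type} (s : Finset X) {p q : X → Prop} (i1 : DecidablePred p)
    (i2 : DecidablePred q) (h : ∀ x ∈ s, p x ↔ q x) :
    @Finset.filter X p i1 s = @Finset.filter X q i2 s := Finset.filter_congr h

private theorem m78_mem {X : Type} {s : Finset X} {p : X → Prop} (i : DecidablePred p) {x : X} :
    x ∈ @Finset.filter X p i s ↔ x ∈ s ∧ p x := Finset.mem_filter

/-- the numbers of a polytope with simple vertex figures, without superfluous constraints -/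
theorem dataN4 {α : Type} [Fintype α] {d : ℕ} (hd : 6 ≤ d) (a : α → E (d + 1))
    (hb : Bornology.IsBounded (Pol a))
    (hns : ∀ x ∈ Pol a, ¬ LinearIndependent ℝ (fun i : {i : α // |⟪a i, x⟫| = 1} => a i.1) →
      x ∈ Set.extremePoints ℝ (Pol a))
    (hNR : ∀ i, ∀ v ∈ n1NS a, |⟪a i, v⟫| = 1 → ∃ x ∈ Pol a, x ≠ v ∧ ⟪a i, x⟫ = ⟪a i, v⟫)
    (hirr : ∀ i, ∃ x, (∀ k, k ≠ i → |⟪a k, x⟫| ≤ 1) ∧ 1 < |⟪a i, x⟫|) :
    ∃ (r : ℕ) (g : Fin r → E (d + 1)) (k H : ℕ → ℤ), HypC a g ∧ Num d k H ∧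
      (Fintype.card α : ℤ) ≤ k 1 - H 0 + (d + 1) ∧ H 0 = r ∧ (r : ℤ) ≤ H 1 - H 0 ∧
      (r : ℤ) ≤ 2 ^ d +
        (∑ n ∈ Finset.range (d + 1 + 1), k n - ∑ n ∈ Finset.range (d + 1), H n + H 0) ∧
      (0 ≤ H 2 - H 1 ∧ 0 ≤ H 3 - H 2 ∧
        H 1 - H 0 ≤ H 0 * (k 1 - H 0) ∧
        H 2 - H 1 ≤ (H 0 + 1) / 2 * (k 2 - H 1) ∧
        H 3 - H 2 ≤ (H 0 + 3) / 4 * (k 3 - H 2) ∧
        2 * (H 2 - H 1 - H 0) ≤ (k 1 - H 0 + 2) * (H 1 - H 0 - H 0) ∧
        3 * (H 3 - H 2) ≤ (k 1 - H 0 + 2) * (H 2 - H 1)) ∧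
      3 ^ (d + 1) + 2 * (∑ n ∈ Finset.range (d + 1 + 1), 2 ^ n * k n -
        ∑ n ∈ Finset.range (d + 1), 2 ^ n * H n + H 0) ≤ ((Cells a).card : ℤ) := by
  obtain ⟨r, g, HC, -, hcap, hin, hdeg⟩ := nat_hyp3 a hb hns hNR
  have HB := HC.toHypB
  have hb' : Bornology.IsBounded (Pol (Sum.elim a g)) := by
    refine hb.subset fun x hx i => ?_
    have h := hx (Sum.inl i)
    rwa [Sum.elim_inl] at h
  obtain ⟨J, hsep, hmemJ⟩ : ∃ J : Finset (α ⊕ Fin r), Pool.Agent.CTC.SepC (Sum.elim a g) J ∧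
      ∀ l, l ∈ J ↔ ∃ j, l = Sum.inr j := by
    exact ⟨_, Pool.Agent.CTC.hypC_sep HC, fun l => ⟨fun h => ((m78_mem _).1 h).2,
      fun h => (m78_mem _).2 ⟨Finset.mem_univ _, h⟩⟩⟩
  have hdgJ : ∀ j ∈ J, (∃ t ∈ Cells (Sum.elim a g), t j = 1) →
      d + 2 ≤ WLP.dg (Sum.elim a g) j := by
    intro l hl _
    obtain ⟨j, rfl⟩ := (hmemJ l).1 hl
    unfold WLP.dg
    refine le_trans (hdeg j) (le_of_eq ?_)
    congr 1
    exact m78_filter _ _ _ fun l _ => Iff.rfl
  obtain ⟨k, H, hD, hone⟩ := dataD hd HB.simple hb' hsep hdgJ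
  have hJ : J = Finset.univ.map ⟨Sum.inr, Sum.inr_injective⟩ := by
    ext l
    rw [hmemJ, Finset.mem_map]
    constructor
    · rintro ⟨j, rfl⟩
      exact ⟨j, Finset.mem_univ _, rfl⟩
    · rintro ⟨j, -, rfl⟩
      exact ⟨j, rfl⟩
  have hsum : ∑ j ∈ J, (((Cells (Sum.elim a g)).filter (fun s => s j = 1)).card : ℤ) =
      ∑ j : Fin r, (((Cells (Sum.elim a g)).filter (fun s => s (Sum.inr j) = 1)).card : ℤ) := by
    rw [hJ, Finset.sum_map]
    rfl
  have hr : (J.filter (fun j => ∃ t ∈ Cells (Sum.elim a g), t j = 1)).card = r := by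
    rw [Finset.filter_true_of_mem]
    · rw [hJ, Finset.card_map, Finset.card_univ, Fintype.card_fin]
    · intro l hl
      obtain ⟨j, rfl⟩ := (hmemJ l).1 hl
      exact hcap j
  have hr' := hD.hr
  rw [hr] at hr'
  have hfac := hD.facets
  rw [hsum] at hfac
  refine ⟨r, g, k, H, HC, hD.num, ?_, hr'.symm, ?_, ?_, ?_, ?_⟩
  · have h1 := Pool.Agent.KST.q5_card (Sum.elim a g) Sum.inl Sum.inl_injective J (by
      intro i hi
      obtain ⟨j, hj⟩ := (hmemJ _).1 hi
      exact absurd hj (by simp))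
    have h2 := hD.fac
    have hall : ∀ i : α, ∃ t ∈ Cells (Sum.elim a g), t (Sum.inl i) = 1 := by
      intro i
      by_contra hno
      obtain ⟨x, hx1, hx2⟩ := hirr i
      have h3 := Pool.Agent.CTC.pol_eqB HB hb (by omega) hin x (by
        intro k hk
        apply hx1 k
        intro h
        rw [h] at hk
        exact hno hk)
      exact absurd (h3 i) (not_le.2 hx2)
    have key : ∀ {A : Finset α} {B B' : Finset (α ⊕ Fin r)} {x y z : ℤ}, A.card ≤ B.card →
        (B'.card : ℤ) + x ≤ y + z → A = Finset.univ → B = B' →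
        (Fintype.card α : ℤ) ≤ y - x + z := by
      intro A B B' x y z h3 h4 h5 h6
      subst h5 h6
      rw [Finset.card_univ] at h3
      have h7 : (Fintype.card α : ℤ) ≤ B.card := by exact_mod_cast h3
      linarith
    exact key h1 h2 (Finset.eq_univ_iff_forall.2 fun i => (m78_mem _).2
      ⟨Finset.mem_univ _, hall i⟩) (m78_filter _ _ _ fun i _ => Iff.rfl)
  · rw [hD.deg]
    have h1 : ∀ j ∈ J.filter (fun j => ∃ t ∈ Cells (Sum.elim a g), t j = 1),
        (1 : ℤ) ≤ (dg (Sum.elim a g) j : ℤ) - (d + 1) := by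
      intro l hl
      obtain ⟨j, rfl⟩ := (hmemJ l).1 (Finset.mem_filter.1 hl).1
      have h2 : d + 1 + 1 ≤ dg (Sum.elim a g) (Sum.inr j) := by
        unfold dg
        refine le_trans (hdeg j) (le_of_eq ?_)
        congr 1
        exact m78_filter _ _ _ fun l _ => Iff.rfl
      have h3 : ((d + 1 + 1 : ℕ) : ℤ) ≤ (dg (Sum.elim a g) (Sum.inr j) : ℤ) := by
        exact_mod_cast h2
      push_cast at h3
      linarith
    have h2 := Finset.card_nsmul_le_sum _ _ _ h1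
    rw [hr] at h2
    simpa using h2
  · have h1 := hD.verts
    have h2 : (0 : ℤ) ≤ (((Verts (Sum.elim a g)).filter (fun v => ∀ j ∈ J, v j = 0)).card : ℤ) :=
      Int.natCast_nonneg _
    rw [← hr'] at h1
    rw [← hr']
    have h3 : (2 : ℤ) ^ (d + 1) = 2 * 2 ^ d := by rw [pow_succ]; ring
    rw [h3] at h1
    linarith
  · exact hone
  · -- faces inside the caps
    have hin2 : 2 * r ≤ ∑ j : Fin r, ((Inside a g j 1).card + (Inside a g j (-1)).card) := by
      calc 2 * r = ∑ _j : Fin r, 2 := by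
            rw [Finset.sum_const, Finset.card_univ, Fintype.card_fin, smul_eq_mul, mul_comm]
        _ ≤ _ := by
            refine Finset.sum_le_sum fun j _ => ?_
            obtain ⟨t, ht, htj⟩ := hcap j
            have h2 := inside_posB HB hb j 1 (by decide) ⟨t, ht, htj⟩
            have h3 := inside_posB HB hb j (-1) (by decide)
              ⟨-t, Pool.Agent.KST.neg_mem_cells ht, by rw [Pi.neg_apply, htj]⟩
            omega
    have hsplit := card_splitB HB
    have hins := inside_cardB HB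
    have h1 := hD.cells
    have hcast : ∑ j : Fin r,
        (((Cells (Sum.elim a g)).filter (fun s => s (Sum.inr j) = 1)).card : ℤ) =
        ((∑ j : Fin r,
          ((Cells (Sum.elim a g)).filter (fun s => s (Sum.inr j) = 1)).card : ℕ) : ℤ) := by
      rw [Nat.cast_sum]
    rw [hcast] at hfac
    have h5 : (((Cells (Sum.elim a g)).card : ℕ) : ℤ) - 2 *
        ((∑ j : Fin r, ((Cells (Sum.elim a g)).filter (fun s => s (Sum.inr j) = 1)).card : ℕ) : ℤ)
        + 2 * (r : ℤ) ≤ ((Cells a).card : ℤ) := by omega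
    rw [hfac, h1] at h5
    linarith

/-- at least `d + 2` constraints, none of them superfluous -/
theorem many_case78 {α : Type} [Fintype α] {d : ℕ} (hd : d = 7 ∨ d = 8) (a : α → E d)
    (hcard : d + 2 ≤ Fintype.card α) (hb : Bornology.IsBounded (Pol a))
    (hns : ∀ x ∈ Pol a, ¬ LinearIndependent ℝ (fun i : {i : α // |⟪a i, x⟫| = 1} => a i.1) →
      x ∈ Set.extremePoints ℝ (Pol a))
    (hNR : ∀ i, ∀ v ∈ n1NS a, |⟪a i, v⟫| = 1 → ∃ x ∈ Pol a, x ≠ v ∧ ⟪a i, x⟫ = ⟪a i, v⟫)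
    (hirr : ∀ i, ∃ x, (∀ k, k ≠ i → |⟪a k, x⟫| ≤ 1) ∧ 1 < |⟪a i, x⟫|) :
    3 ^ d < (Cells a).card := by
  rcases hd with rfl | rfl
  · obtain ⟨r, g, k, H, HC, hNum, h1, h2, h3, h4, ⟨p2, p3, a1, a2, a3, c2, m3⟩, h6⟩ :=
      dataN4 (d := 6) (by norm_num) a hb hns hNR hirr
    have hc : (9 : ℤ) ≤ (Fintype.card α : ℤ) := by exact_mod_cast hcard
    have k7 : k 7 = k 0 := hNum.ksym 0 (by norm_num)
    have k6 : k 6 = k 1 := hNum.ksym 1 (by norm_num)
    have k5 : k 5 = k 2 := hNum.ksym 2 (by norm_num)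
    have k4 : k 4 = k 3 := hNum.ksym 3 (by norm_num)
    have H6 : H 6 = H 0 := hNum.hsym 0 (by norm_num)
    have H5 : H 5 = H 1 := hNum.hsym 1 (by norm_num)
    have H4 : H 4 = H 2 := hNum.hsym 2 (by norm_num)
    have l4 : H 4 ≤ k 4 := hNum.hle 4 (by norm_num) (by norm_num)
    have l5 : H 5 ≤ k 5 := hNum.hle 5 (by norm_num) (by norm_num)
    have k0 := hNum.k0
    have hr0 : 0 ≤ H 0 := hNum.h0
    rw [← h2] at h3 h4
    have e1 : ∑ n ∈ Finset.range (6 + 1 + 1), k n - ∑ n ∈ Finset.range (6 + 1), H n + H 0 =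
        2 * ((k 1 - H 0) + (k 2 - H 1) + (k 3 - H 2)) - H 3 + H 0 := by
      simp only [Finset.sum_range_succ, Finset.sum_range_zero]
      rw [k7, k6, k5, k4, H6, H5, H4, k0]
      ring
    have e2 : ∑ n ∈ Finset.range (6 + 1 + 1), 2 ^ n * k n -
        ∑ n ∈ Finset.range (6 + 1), 2 ^ n * H n + H 0 =
        66 * (k 1 - H 0) + 36 * (k 2 - H 1) + 24 * (k 3 - H 2) -
          (2 * (H 1 - H 0) + 4 * (H 2 - H 1) + 8 * (H 3 - H 2)) := by
      simp only [Finset.sum_range_succ, Finset.sum_range_zero]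
      rw [k7, k6, k5, k4, H6, H5, H4, k0]
      ring
    rw [e1] at h4
    rw [e2] at h6
    have h7 := num7 (s1 := k 1 - H 0) (s2 := k 2 - H 1) (s3 := k 3 - H 2) (r := H 0)
      (G1 := H 1 - H 0) (G2 := H 2 - H 1) (G3 := H 3 - H 2) (by norm_num at h1; linarith)
      (by rw [← H5, ← k5]; linarith) (by rw [← H4, ← k4]; linarith) hr0 h3 p2 p3 a1 a2 a3 c2 m3
      (by norm_num at h4; linarith)
    have h8 : (3 : ℤ) ^ 7 < ((Cells a).card : ℤ) := by
      have h9 : (3 : ℤ) ^ (6 + 1) = 3 ^ 7 := by norm_num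
      rw [h9] at h6
      linarith
    exact_mod_cast h8
  · obtain ⟨r, g, k, H, HC, hNum, h1, h2, h3, h4, ⟨p2, p3, a1, a2, a3, c2, m3⟩, h6⟩ :=
      dataN4 (d := 7) (by norm_num) a hb hns hNR hirr
    have hc : (10 : ℤ) ≤ (Fintype.card α : ℤ) := by exact_mod_cast hcard
    have k8 : k 8 = k 0 := hNum.ksym 0 (by norm_num)
    have k7 : k 7 = k 1 := hNum.ksym 1 (by norm_num)
    have k6 : k 6 = k 2 := hNum.ksym 2 (by norm_num)
    have k5 : k 5 = k 3 := hNum.ksym 3 (by norm_num)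
    have H7 : H 7 = H 0 := hNum.hsym 0 (by norm_num)
    have H6 : H 6 = H 1 := hNum.hsym 1 (by norm_num)
    have H5 : H 5 = H 2 := hNum.hsym 2 (by norm_num)
    have H4 : H 4 = H 3 := hNum.hsym 3 (by norm_num)
    have l4 : H 4 ≤ k 4 := hNum.hle 4 (by norm_num) (by norm_num)
    have l5 : H 5 ≤ k 5 := hNum.hle 5 (by norm_num) (by norm_num)
    have l6 : H 6 ≤ k 6 := hNum.hle 6 (by norm_num) (by norm_num)
    have k0 := hNum.k0
    have hr0 : 0 ≤ H 0 := hNum.h0
    rw [← h2] at h3 h4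
    have e1 : ∑ n ∈ Finset.range (7 + 1 + 1), k n - ∑ n ∈ Finset.range (7 + 1), H n + H 0 =
        2 * ((k 1 - H 0) + (k 2 - H 1) + (k 3 - H 2)) + (k 4 - H 3) - H 3 + H 0 := by
      simp only [Finset.sum_range_succ, Finset.sum_range_zero]
      rw [k8, k7, k6, k5, H7, H6, H5, H4, k0]
      ring
    have e2 : ∑ n ∈ Finset.range (7 + 1 + 1), 2 ^ n * k n -
        ∑ n ∈ Finset.range (7 + 1), 2 ^ n * H n + H 0 =
        130 * (k 1 - H 0) + 68 * (k 2 - H 1) + 40 * (k 3 - H 2) + 16 * (k 4 - H 3) -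
          (2 * (H 1 - H 0) + 4 * (H 2 - H 1) + 8 * (H 3 - H 2)) := by
      simp only [Finset.sum_range_succ, Finset.sum_range_zero]
      rw [k8, k7, k6, k5, H7, H6, H5, H4, k0]
      ring
    rw [e1] at h4
    rw [e2] at h6
    have h7 := num8 (s1 := k 1 - H 0) (s2 := k 2 - H 1) (s3 := k 3 - H 2) (s4 := k 4 - H 3)
      (r := H 0) (G1 := H 1 - H 0) (G2 := H 2 - H 1) (G3 := H 3 - H 2)
      (by norm_num at h1; linarith)
      (by rw [← H6, ← k6]; linarith) (by rw [← H5, ← k5]; linarith) (by rw [← H4]; linarith)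
      hr0 h3 p2 p3 a1 a2 a3 c2 m3
      (by norm_num at h4; linarith)
    have h8 : (3 : ℤ) ^ 8 < ((Cells a).card : ℤ) := by
      have h9 : (3 : ℤ) ^ (7 + 1) = 3 ^ 8 := by norm_num
      rw [h9] at h6
      linarith
    exact_mod_cast h8

end

end Pool.Agent.S78
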